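import Mathlib
import Pool.Agent.H60.Q1.X3S
import Pool.Agent.H81.NC.ProbB

set_option autoImplicit false
open Finset

/-!
# Half circuits around wall points (module D4 (iii) of route W)

`E` = labels of the room, `K` = wall vertices (everything which is not a room vertex). The only link between
them is `Nbh E K z M`: in the box of radius `M` around `z` every edge at a vertex which is not in `K` is in `E`.
-/

namespace Pool.Agent.H70.W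

open Pool.Agent.H75.Perc Pool.Agent.H75.TwoArm Pool.Agent.H75.Four Pool.Agent.H49.Perc
open Pool.Agent.H99.NC Pool.Agent.H60.Q1

/-- labels of the annulus -/
noncomputable def An (z : ℤ × ℤ) (a b : ℤ) : Finset (ℤ × ℤ) :=
  Bx (z.1 - b) (z.1 + b) (z.2 - b) (z.2 + b) \ Bx (z.1 - a) (z.1 + a) (z.2 - a) (z.2 + a)

lemma mem_An {z : ℤ × ℤ} {a b : ℤ} {l : ℤ × ℤ} : l ∈ An z a b ↔
    ((2 * (z.1 - b) ≤ l.1 ∧ l.1 ≤ 2 * (z.1 + b)) ∧ (2 * (z.2 - b) ≤ l.2 ∧ l.2 ≤ 2 * (z.2 + b)) ∧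
      (l.1 + l.2) % 2 = 1) ∧
    ¬ ((2 * (z.1 - a) ≤ l.1 ∧ l.1 ≤ 2 * (z.1 + a)) ∧ (2 * (z.2 - a) ≤ l.2 ∧ l.2 ≤ 2 * (z.2 + a)) ∧
      (l.1 + l.2) % 2 = 1) := by
  unfold An; rw [mem_sdiff, mem_Bx, mem_Bx]

lemma An_mono {z : ℤ × ℤ} {a a' b b' : ℤ} (h1 : a' ≤ a) (h2 : b ≤ b') : An z a b ⊆ An z a' b' := by
  intro l hl
  rw [mem_An] at hl ⊢
  omega

/-- in the box of radius `M` around `z`, every edge at a vertex which is not in `K` is in `E` -/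
def Nbh (E : Finset (ℤ × ℤ)) (K : ℤ × ℤ → Prop) (z : ℤ × ℤ) (M : ℤ) : Prop :=
  ∀ u v : ℤ × ℤ, IsUnit4 (v - u) → ¬ K u → inR z M u → inR z M v → u + v ∈ E

lemma inR_mono {z : ℤ × ℤ} {M M' : ℤ} (h : M' ≤ M) {u : ℤ × ℤ} (hu : inR z M' u) : inR z M u := by
  rw [inR_iff] at hu ⊢
  omega

lemma Nbh.mono {E : Finset (ℤ × ℤ)} {K : ℤ × ℤ → Prop} {z : ℤ × ℤ} {M M' : ℤ} (h : M' ≤ M)
    (hE : Nbh E K z M) : Nbh E K z M' :=
  fun u v h1 h2 h3 h4 => hE u v h1 h2 (inR_mono h h3) (inR_mono h h4)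

/-- **half circuit**: a path of the room from a wall vertex in `L` to a wall vertex in `R` -/
def HR (E : Finset (ℤ × ℤ)) (K L R : ℤ × ℤ → Prop) (z : ℤ × ℤ) (a b : ℤ)
    (ω : Finset (ℤ × ℤ)) : Prop :=
  ∃ p p', K p ∧ L p ∧ K p' ∧ R p' ∧ Co (ω ∩ (E ∩ An z a b)) p p'

/-- the diagonal direction `(s, t)` at distance more than `ρ` from `z` -/
def Sd (z : ℤ × ℤ) (ρ s t : ℤ) (p : ℤ × ℤ) : Prop := ρ < s * (p.1 - z.1) ∧ ρ < t * (p.2 - z.2)

lemma Sd.mono {z : ℤ × ℤ} {ρ ρ' s t : ℤ} (h : ρ' ≤ ρ) {p : ℤ × ℤ} (hp : Sd z ρ s t p) :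
    Sd z ρ' s t p := ⟨h.trans_lt hp.1, h.trans_lt hp.2⟩

lemma HR_inc (E : Finset (ℤ × ℤ)) (K L R : ℤ × ℤ → Prop) (z : ℤ × ℤ) (a b : ℤ) :
    Inc (HR E K L R z a b) := by
  rintro ω ω' h ⟨p, p', h1, h2, h3, h4, h5⟩
  exact ⟨p, p', h1, h2, h3, h4, h5.mono (inter_subset_inter_right h)⟩

lemma HR_loc {E : Finset (ℤ × ℤ)} {K L R : ℤ × ℤ → Prop} {z : ℤ × ℤ} {a b : ℤ}
    {ω : Finset (ℤ × ℤ)} : HR E K L R z a b ω ↔ HR E K L R z a b (ω ∩ (E ∩ An z a b)) := by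
  unfold HR
  rw [inter_assoc, inter_self]

lemma HR_loc' {E : Finset (ℤ × ℤ)} {K L R : ℤ × ℤ → Prop} {z : ℤ × ℤ} {a b : ℤ}
    {ω ω' : Finset (ℤ × ℤ)} (h : ω ∩ (E ∩ An z a b) = ω' ∩ (E ∩ An z a b)) :
    HR E K L R z a b ω ↔ HR E K L R z a b ω' := by
  rw [HR_loc, HR_loc (ω := ω'), h]

lemma HR_mono {E : Finset (ℤ × ℤ)} {K L R L' R' : ℤ × ℤ → Prop} {z : ℤ × ℤ} {a b a' b' : ℤ}
    {ω : Finset (ℤ × ℤ)} (h1 : a' ≤ a) (h2 : b ≤ b') (hL : ∀ p, L p → L' p) (hR : ∀ p, R p → R' p)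
    (h : HR E K L R z a b ω) : HR E K L' R' z a' b' ω := by
  obtain ⟨p, p', q1, q2, q3, q4, q5⟩ := h
  exact ⟨p, p', q1, hL _ q2, q3, hR _ q4, q5.mono (inter_subset_inter_left
    (inter_subset_inter_left (An_mono h1 h2)))⟩

lemma HR_symm {E : Finset (ℤ × ℤ)} {K L R : ℤ × ℤ → Prop} {z : ℤ × ℤ} {a b : ℤ}
    {ω : Finset (ℤ × ℤ)} : HR E K L R z a b ω ↔ HR E K R L z a b ω :=
  ⟨fun ⟨p, p', h1, h2, h3, h4, h5⟩ => ⟨p', p, h3, h4, h1, h2, h5.symm⟩,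
    fun ⟨p, p', h1, h2, h3, h4, h5⟩ => ⟨p', p, h3, h4, h1, h2, h5.symm⟩⟩

/-- **extraction**: a path between the two sides contains a path of the room between the two sides -/
lemma trav {E θ : Finset (ℤ × ℤ)} {K X Y V : ℤ × ℤ → Prop}
    (hV : ∀ u v, Ad θ u v → V u ∧ V v)
    (hE : ∀ u v : ℤ × ℤ, IsUnit4 (v - u) → ¬ K u → V u → V v → u + v ∈ E)
    (hK : ∀ v, V v → K v → X v ∨ Y v) (hXY : ∀ v, X v → ¬ Y v)
    (hna : ∀ u v : ℤ × ℤ, X u → Y v → ¬ IsUnit4 (v - u)) {p q : ℤ × ℤ} (h : Co θ p q) (hp : X p)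
    (hq : Y q) : ∃ w w', X w ∧ Y w' ∧ Co (θ ∩ E) w w' := by
  obtain ⟨v, v', hv, hv', hvv, hX, -⟩ := exit_co (X := fun v => ¬ Y v) h (hXY p hp) (not_not.2 hq)
  rw [not_not] at hv'
  have key : ∀ v, CoX θ (fun v => ¬ Y v) p v → ∃ w, X w ∧ Co (θ ∩ E) w v := by
    intro v hv
    induction hv with
    | refl => exact ⟨p, hp, Co.refl _ _⟩
    | @tail b c _ hbc ih =>
      obtain ⟨w, hw, hwb⟩ := ih
      by_cases hc : X c
      · exact ⟨c, hc, Co.refl _ _⟩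
      · refine ⟨w, hw, hwb.tail ⟨hbc.1.1, mem_inter.2 ⟨hbc.1.2, ?_⟩⟩⟩
        have h1 := hV _ _ hbc.1
        have h2 : ¬ K c := fun h3 => (hK c h1.2 h3).elim hc hbc.2
        have h3 := hE c b hbc.1.symm.1 h2 h1.2 h1.1
        rwa [add_comm] at h3
  obtain ⟨w, hw, hwv⟩ := key v hX
  refine ⟨w, v', hw, hv', hwv.tail ⟨hvv.1, mem_inter.2 ⟨hvv.2, ?_⟩⟩⟩
  have h1 := hV _ _ hvv
  have h2 : ¬ K v := fun h3 => (hK v h1.1 h3).elim (fun h4 => hna v v' h4 hv' hvv.1) hv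
  exact hE v v' hvv.1 h2 h1.1 h1.2

/-! ### The three local shapes, standard orientation -/

/-- flat or staircase wall: the wall vertices lie between `{x + y ≤ 0}` and `{x + y ≤ N}` -/
def Flat (K : ℤ × ℤ → Prop) (z : ℤ × ℤ) (N M : ℤ) : Prop :=
  (∀ u, inR z M u → (u.1 - z.1) + (u.2 - z.2) ≤ 0 → K u) ∧
    (∀ u, inR z M u → K u → (u.1 - z.1) + (u.2 - z.2) ≤ N)

/-- convex corner: the room is the cone `{|y| ≤ x}`, up to `N` -/
def Cvx (K : ℤ × ℤ → Prop) (z : ℤ × ℤ) (N M : ℤ) : Prop :=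
  (∀ u, inR z M u → u.1 - z.1 ≤ |u.2 - z.2| → K u) ∧
    (∀ u, inR z M u → K u → u.1 - z.1 ≤ |u.2 - z.2| + N)

/-- concave corner: the room is the complement of the cone `{x ≤ -|y|}`, up to `N` -/
def Ccv (K : ℤ × ℤ → Prop) (z : ℤ × ℤ) (N M : ℤ) : Prop :=
  (∀ u, inR z M u → u.1 - z.1 ≤ -|u.2 - z.2| → K u) ∧
    (∀ u, inR z M u → K u → u.1 - z.1 ≤ -|u.2 - z.2| + N)

lemma Flat.mono {K : ℤ × ℤ → Prop} {z : ℤ × ℤ} {N N' M M' : ℤ} (hN : N ≤ N') (hM : M' ≤ M)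
    (h : Flat K z N M) : Flat K z N' M' :=
  ⟨fun u hu => h.1 u (inR_mono hM hu), fun u hu hK => (h.2 u (inR_mono hM hu) hK).trans hN⟩

lemma Cvx.mono {K : ℤ × ℤ → Prop} {z : ℤ × ℤ} {N N' M M' : ℤ} (hN : N ≤ N') (hM : M' ≤ M)
    (h : Cvx K z N M) : Cvx K z N' M' :=
  ⟨fun u hu => h.1 u (inR_mono hM hu), fun u hu hK => (h.2 u (inR_mono hM hu) hK).trans (by omega)⟩

lemma Ccv.mono {K : ℤ × ℤ → Prop} {z : ℤ × ℤ} {N N' M M' : ℤ} (hN : N ≤ N') (hM : M' ≤ M)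
    (h : Ccv K z N M) : Ccv K z N' M' :=
  ⟨fun u hu => h.1 u (inR_mono hM hu), fun u hu hK => (h.2 u (inR_mono hM hu) hK).trans (by omega)⟩

/-- the union of the two paths -/
lemma co_join {η B1 B2 : Finset (ℤ × ℤ)} {t x l : ℤ × ℤ} (h1 : Co (η ∩ B1) t x)
    (h2 : Co (η ∩ B2) l x) : Co (η ∩ (B1 ∪ B2)) l t :=
  (h2.mono (inter_subset_inter_left subset_union_right)).trans
    (h1.mono (inter_subset_inter_left subset_union_left)).symm

lemma not_unit_of {u v : ℤ × ℤ} (h : u.1 + 2 ≤ v.1 ∨ u.2 + 2 ≤ v.2) : ¬ IsUnit4 (v - u) := by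
  intro h1
  have := unit_cases h1
  omega

lemma flat_of {E : Finset (ℤ × ℤ)} {K : ℤ × ℤ → Prop} {z : ℤ × ℤ} {N a : ℤ} (ha : 1 ≤ a)
    (hN : N ≤ a) (hE : Nbh E K z (3 * a)) (hK : Flat K z N (3 * a)) {ω : Finset (ℤ × ℤ)}
    (hT : HC (z.1 - 2 * a) (z.1 + 3 * a) (z.2 + 2 * a) (z.2 + 3 * a) ω)
    (hL : VC (z.1 - 2 * a) (z.1 - a) (z.2 + a) (z.2 + 3 * a) ω)
    (hRt : VC (z.1 + 2 * a) (z.1 + 3 * a) (z.2 - 3 * a) (z.2 + 3 * a) ω) :
    HR E K (Sd z (a - 1) (-1) 1) (Sd z (a - 1) 1 (-1)) z (a - 1) (3 * a) ω := by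
  obtain ⟨t, t', t1, t2, t3, t4⟩ := hT
  obtain ⟨l, l', l1, l2, l3, l4⟩ := hL
  obtain ⟨r, r', r1, r2, r3, r4⟩ := hRt
  set BT := Bx (z.1 - 2 * a) (z.1 + 3 * a) (z.2 + 2 * a) (z.2 + 3 * a) with hBT
  set BL := Bx (z.1 - 2 * a) (z.1 - a) (z.2 + a) (z.2 + 3 * a) with hBL
  set BR' := Bx (z.1 + 2 * a) (z.1 + 3 * a) (z.2 - 3 * a) (z.2 + 3 * a) with hBR
  obtain ⟨x, x1, x2⟩ := cross_co (a := z.1 - 2 * a) (b := z.1 + 3 * a) (c := z.2 + a)
    (d := z.2 + 3 * a) (ω1 := ω ∩ BT) (ω2 := ω ∩ BL)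
    (inter_subset_right.trans (Bx_sub le_rfl le_rfl (by omega) le_rfl))
    (inter_subset_right.trans (Bx_sub le_rfl (by omega) le_rfl le_rfl))
    (by unfold inB at t1 ⊢; omega) (by unfold inB at l1 ⊢; omega)
    t4 l4 t2 t3 l2 l3
  obtain ⟨y, y1, y2⟩ := cross_co (a := z.1 - 2 * a) (b := z.1 + 3 * a) (c := z.2 - 3 * a)
    (d := z.2 + 3 * a) (ω1 := ω ∩ BT) (ω2 := ω ∩ BR')
    (inter_subset_right.trans (Bx_sub le_rfl le_rfl (by omega) le_rfl))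
    (inter_subset_right.trans (Bx_sub (by omega) le_rfl le_rfl le_rfl))
    (by unfold inB at t1 ⊢; omega) (by unfold inB at r1 ⊢; omega)
    t4 r4 t2 t3 r2 r3
  have c1 : Co (ω ∩ (BT ∪ BL ∪ BR')) l r := by
    have e1 : Co (ω ∩ (BT ∪ BL)) l t := co_join x1 x2
    have e2 : Co (ω ∩ (BT ∪ BR')) r t := co_join y1 y2
    exact (e1.mono (inter_subset_inter_left subset_union_left)).trans
      (e2.symm.mono (inter_subset_inter_left (union_subset_union subset_union_left (subset_refl _))))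
  have hin : ∀ u v : ℤ × ℤ, Ad (ω ∩ (BT ∪ BL ∪ BR')) u v →
      (inR z (3 * a) u ∧ (2 * a ≤ u.2 - z.2 ∨ (u.1 - z.1 ≤ -a ∧ a ≤ u.2 - z.2) ∨
        2 * a ≤ u.1 - z.1)) ∧
      (inR z (3 * a) v ∧ (2 * a ≤ v.2 - z.2 ∨ (v.1 - z.1 ≤ -a ∧ a ≤ v.2 - z.2) ∨
        2 * a ≤ v.1 - z.1)) := by
    intro u v huv
    have h1 := unit_cases huv.1
    have h2 := (mem_inter.1 huv.2).2
    rw [mem_union, mem_union, hBT, hBL, hBR, mem_Bx, mem_Bx, mem_Bx] at h2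
    simp only [Prod.fst_add, Prod.snd_add] at h2
    rw [inR_iff, inR_iff]
    omega
  obtain ⟨w, w', hw, hw', hww⟩ := trav (E := E) (K := K)
    (X := fun v => K v ∧ Sd z (a - 1) (-1) 1 v) (Y := fun v => K v ∧ Sd z (a - 1) 1 (-1) v)
    (V := fun u => inR z (3 * a) u ∧ (2 * a ≤ u.2 - z.2 ∨ (u.1 - z.1 ≤ -a ∧ a ≤ u.2 - z.2) ∨
        2 * a ≤ u.1 - z.1)) hin (fun u v h1 h2 h3 h4 => hE u v h1 h2 h3.1 h4.1)
    (by
      intro v hv hKv
      have h1 := hK.2 v hv.1 hKv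
      simp only [hKv, true_and]
      unfold Sd
      rcases hv.2 with h2 | h2 | h2
      · left; omega
      · left; omega
      · right; omega)
    (by
      rintro v ⟨-, h1⟩ ⟨-, h2⟩
      unfold Sd at h1 h2
      omega)
    (by
      rintro u v ⟨-, h1⟩ ⟨-, h2⟩
      unfold Sd at h1 h2
      exact not_unit_of (by omega))
    c1
    (by
      unfold inB at l1
      refine ⟨hK.1 l (by rw [inR_iff]; omega) (by omega), ?_⟩
      unfold Sd; omega)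
    (by
      unfold inB at r1
      refine ⟨hK.1 r (by rw [inR_iff]; omega) (by omega), ?_⟩
      unfold Sd; omega)
  refine ⟨w, w', hw.1, hw.2, hw'.1, hw'.2, hww.mono ?_⟩
  intro e he
  obtain ⟨h1, h2⟩ := mem_inter.1 he
  obtain ⟨h3, h4⟩ := mem_inter.1 h1
  refine mem_inter.2 ⟨h3, mem_inter.2 ⟨h2, ?_⟩⟩
  rw [mem_union, mem_union, hBT, hBL, hBR, mem_Bx, mem_Bx, mem_Bx] at h4
  rw [mem_An]
  omega

lemma cvx_of {E : Finset (ℤ × ℤ)} {K : ℤ × ℤ → Prop} {z : ℤ × ℤ} {N a : ℤ} (ha : 1 ≤ a)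
    (hN : N ≤ a) (hE : Nbh E K z (3 * a)) (hK : Cvx K z N (3 * a)) {ω : Finset (ℤ × ℤ)}
    (hRt : VC (z.1 + 2 * a) (z.1 + 3 * a) (z.2 - 3 * a) (z.2 + 3 * a) ω) :
    HR E K (Sd z (a - 1) 1 (-1)) (Sd z (a - 1) 1 1) z (a - 1) (3 * a) ω := by
  obtain ⟨r, r', r1, r2, r3, r4⟩ := hRt
  set BR' := Bx (z.1 + 2 * a) (z.1 + 3 * a) (z.2 - 3 * a) (z.2 + 3 * a) with hBR
  have hin : ∀ u v : ℤ × ℤ, Ad (ω ∩ BR') u v →
      (inR z (3 * a) u ∧ 2 * a ≤ u.1 - z.1) ∧ (inR z (3 * a) v ∧ 2 * a ≤ v.1 - z.1) := by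
    intro u v huv
    have h1 := unit_cases huv.1
    have h2 := (mem_inter.1 huv.2).2
    rw [hBR, mem_Bx] at h2
    simp only [Prod.fst_add, Prod.snd_add] at h2
    rw [inR_iff, inR_iff]
    omega
  have hr' := r4.inB inter_subset_right r1
  obtain ⟨w, w', hw, hw', hww⟩ := trav (E := E) (K := K)
    (X := fun v => K v ∧ Sd z (a - 1) 1 (-1) v) (Y := fun v => K v ∧ Sd z (a - 1) 1 1 v)
    (V := fun u => inR z (3 * a) u ∧ 2 * a ≤ u.1 - z.1) hin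
    (fun u v h1 h2 h3 h4 => hE u v h1 h2 h3.1 h4.1)
    (by
      intro v hv hKv
      have h1 := hK.2 v hv.1 hKv
      simp only [hKv, true_and]
      unfold Sd
      have h2 := hv.2
      rcases abs_cases (v.2 - z.2) with h3 | h3
      · right; omega
      · left; omega)
    (by
      rintro v ⟨-, h1⟩ ⟨-, h2⟩
      unfold Sd at h1 h2
      omega)
    (by
      rintro u v ⟨-, h1⟩ ⟨-, h2⟩
      unfold Sd at h1 h2
      exact not_unit_of (by omega))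
    r4
    (by
      unfold inB at r1
      refine ⟨hK.1 r (by rw [inR_iff]; omega) (by rw [le_abs]; omega), ?_⟩
      unfold Sd; omega)
    (by
      unfold inB at hr'
      refine ⟨hK.1 r' (by rw [inR_iff]; omega) (by rw [le_abs]; omega), ?_⟩
      unfold Sd; omega)
  refine ⟨w, w', hw.1, hw.2, hw'.1, hw'.2, hww.mono ?_⟩
  intro e he
  obtain ⟨h1, h2⟩ := mem_inter.1 he
  obtain ⟨h3, h4⟩ := mem_inter.1 h1
  refine mem_inter.2 ⟨h3, mem_inter.2 ⟨h2, ?_⟩⟩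
  rw [hBR, mem_Bx] at h4
  rw [mem_An]
  omega

lemma ccv_of {E : Finset (ℤ × ℤ)} {K : ℤ × ℤ → Prop} {z : ℤ × ℤ} {N a : ℤ} (ha : 1 ≤ a)
    (hN : N ≤ a) (hE : Nbh E K z (3 * a)) (hK : Ccv K z N (3 * a)) {ω : Finset (ℤ × ℤ)}
    (hT : HC (z.1 - 3 * a) (z.1 + 3 * a) (z.2 + 2 * a) (z.2 + 3 * a) ω)
    (hB : HC (z.1 - 3 * a) (z.1 + 3 * a) (z.2 - 3 * a) (z.2 - 2 * a) ω)
    (hRt : VC (z.1 + 2 * a) (z.1 + 3 * a) (z.2 - 3 * a) (z.2 + 3 * a) ω) :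
    HR E K (Sd z (a - 1) (-1) (-1)) (Sd z (a - 1) (-1) 1) z (a - 1) (3 * a) ω := by
  obtain ⟨t, t', t1, t2, t3, t4⟩ := hT
  obtain ⟨l, l', l1, l2, l3, l4⟩ := hB
  obtain ⟨r, r', r1, r2, r3, r4⟩ := hRt
  set BT := Bx (z.1 - 3 * a) (z.1 + 3 * a) (z.2 + 2 * a) (z.2 + 3 * a) with hBT
  set BL := Bx (z.1 - 3 * a) (z.1 + 3 * a) (z.2 - 3 * a) (z.2 - 2 * a) with hBL
  set BR' := Bx (z.1 + 2 * a) (z.1 + 3 * a) (z.2 - 3 * a) (z.2 + 3 * a) with hBR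
  obtain ⟨x, x1, x2⟩ := cross_co (a := z.1 - 3 * a) (b := z.1 + 3 * a) (c := z.2 - 3 * a)
    (d := z.2 + 3 * a) (ω1 := ω ∩ BL) (ω2 := ω ∩ BR')
    (inter_subset_right.trans (Bx_sub le_rfl le_rfl le_rfl (by omega)))
    (inter_subset_right.trans (Bx_sub (by omega) le_rfl le_rfl le_rfl))
    (by unfold inB at l1 ⊢; omega) (by unfold inB at r1 ⊢; omega)
    l4 r4 l2 l3 r2 r3
  obtain ⟨y, y1, y2⟩ := cross_co (a := z.1 - 3 * a) (b := z.1 + 3 * a) (c := z.2 - 3 * a)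
    (d := z.2 + 3 * a) (ω1 := ω ∩ BT) (ω2 := ω ∩ BR')
    (inter_subset_right.trans (Bx_sub le_rfl le_rfl (by omega) le_rfl))
    (inter_subset_right.trans (Bx_sub (by omega) le_rfl le_rfl le_rfl))
    (by unfold inB at t1 ⊢; omega) (by unfold inB at r1 ⊢; omega)
    t4 r4 t2 t3 r2 r3
  have c1 : Co (ω ∩ (BT ∪ BL ∪ BR')) l t := by
    have e1 : Co (ω ∩ (BL ∪ BR')) r l := co_join x1 x2
    have e2 : Co (ω ∩ (BT ∪ BR')) r t := co_join y1 y2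
    exact (e1.symm.mono (inter_subset_inter_left (union_subset_union subset_union_right
      (subset_refl _)))).trans
      (e2.mono (inter_subset_inter_left (union_subset_union subset_union_left (subset_refl _))))
  have hin : ∀ u v : ℤ × ℤ, Ad (ω ∩ (BT ∪ BL ∪ BR')) u v →
      (inR z (3 * a) u ∧ (2 * a ≤ u.2 - z.2 ∨ u.2 - z.2 ≤ -(2 * a) ∨ 2 * a ≤ u.1 - z.1)) ∧
      (inR z (3 * a) v ∧ (2 * a ≤ v.2 - z.2 ∨ v.2 - z.2 ≤ -(2 * a) ∨ 2 * a ≤ v.1 - z.1)) := by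
    intro u v huv
    have h1 := unit_cases huv.1
    have h2 := (mem_inter.1 huv.2).2
    rw [mem_union, mem_union, hBT, hBL, hBR, mem_Bx, mem_Bx, mem_Bx] at h2
    simp only [Prod.fst_add, Prod.snd_add] at h2
    rw [inR_iff, inR_iff]
    omega
  obtain ⟨w, w', hw, hw', hww⟩ := trav (E := E) (K := K)
    (X := fun v => K v ∧ Sd z (a - 1) (-1) (-1) v) (Y := fun v => K v ∧ Sd z (a - 1) (-1) 1 v)
    (V := fun u => inR z (3 * a) u ∧ (2 * a ≤ u.2 - z.2 ∨ u.2 - z.2 ≤ -(2 * a) ∨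
      2 * a ≤ u.1 - z.1)) hin
    (fun u v h1 h2 h3 h4 => hE u v h1 h2 h3.1 h4.1)
    (by
      intro v hv hKv
      have h1 := hK.2 v hv.1 hKv
      simp only [hKv, true_and]
      unfold Sd
      rcases hv.2 with h2 | h2 | h2
      · right
        rw [abs_of_nonneg (by omega)] at h1
        omega
      · left
        rw [abs_of_nonpos (by omega)] at h1
        omega
      · exfalso
        have := abs_nonneg (v.2 - z.2)
        omega)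
    (by
      rintro v ⟨-, h1⟩ ⟨-, h2⟩
      unfold Sd at h1 h2
      omega)
    (by
      rintro u v ⟨-, h1⟩ ⟨-, h2⟩
      unfold Sd at h1 h2
      exact not_unit_of (by omega))
    c1
    (by
      unfold inB at l1
      refine ⟨hK.1 l (by rw [inR_iff]; omega) ?_, ?_⟩
      · rw [abs_of_nonpos (by omega)]; omega
      · unfold Sd; omega)
    (by
      unfold inB at t1
      refine ⟨hK.1 t (by rw [inR_iff]; omega) ?_, ?_⟩
      · rw [abs_of_nonneg (by omega)]; omega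
      · unfold Sd; omega)
  refine ⟨w, w', hw.1, hw.2, hw'.1, hw'.2, hww.mono ?_⟩
  intro e he
  obtain ⟨h1, h2⟩ := mem_inter.1 he
  obtain ⟨h3, h4⟩ := mem_inter.1 h1
  refine mem_inter.2 ⟨h3, mem_inter.2 ⟨h2, ?_⟩⟩
  rw [mem_union, mem_union, hBT, hBL, hBR, mem_Bx, mem_Bx, mem_Bx] at h4
  rw [mem_An]
  omega

/-! ### One scale, probability, standard orientation -/

/-- an event which is decided by `E ∩ An z a b` -/
lemma PrP_HR {q : ℤ × ℤ → ℝ} {E K' : Finset (ℤ × ℤ)} {K L R : ℤ × ℤ → Prop} {z : ℤ × ℤ}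
    {a b : ℤ} (h : E ∩ An z a b ⊆ K') :
    PrP q K' (HR E K L R z a b) = PrP q (E ∩ An z a b) (HR E K L R z a b) :=
  PrP_local h fun _ _ => HR_loc

theorem flat_prob : ∃ c : ℝ, 0 < c ∧ ∀ q : ℤ × ℤ → ℝ, Qh q → ∀ (E : Finset (ℤ × ℤ))
    (K : ℤ × ℤ → Prop) (z : ℤ × ℤ) (N a : ℤ), 1 ≤ a → N ≤ a → Nbh E K z (3 * a) →
    Flat K z N (3 * a) → c ≤ PrP q (E ∩ An z (a - 1) (3 * a))
      (HR E K (Sd z (a - 1) (-1) 1) (Sd z (a - 1) 1 (-1)) z (a - 1) (3 * a)) := by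
  obtain ⟨c, hc, h⟩ := rsw_q 6
  refine ⟨c * c * c, by positivity, fun q hq E K z N a ha hN hE hK => ?_⟩
  set B := Bx (z.1 - 3 * a) (z.1 + 3 * a) (z.2 - 3 * a) (z.2 + 3 * a) with hB
  rw [← PrP_HR (K' := E ∪ B) (inter_subset_left.trans subset_union_left)]
  have h1 := (h q hq (E ∪ B) (z.1 - 2 * a) (z.1 + 3 * a) (z.2 + 2 * a) (z.2 + 3 * a)
    (by omega) (by omega) ((Bx_sub (by omega) le_rfl (by omega) le_rfl).trans
      subset_union_right)).1 (by push_cast; omega)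
  have h2 := (h q hq (E ∪ B) (z.1 - 2 * a) (z.1 - a) (z.2 + a) (z.2 + 3 * a)
    (by omega) (by omega)
    ((Bx_sub (by omega) (by omega) (by omega) le_rfl).trans
      subset_union_right)).2 (by push_cast; omega)
  have h3 := (h q hq (E ∪ B) (z.1 + 2 * a) (z.1 + 3 * a) (z.2 - 3 * a) (z.2 + 3 * a)
    (by omega) (by omega)
    ((Bx_sub (by omega) le_rfl le_rfl le_rfl).trans
      subset_union_right)).2 (by push_cast; omega)
  have e1 := harris3P hq.pb (E ∪ B)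
    (HC_inc (z.1 - 2 * a) (z.1 + 3 * a) (z.2 + 2 * a) (z.2 + 3 * a))
    (VC_inc (z.1 - 2 * a) (z.1 - a) (z.2 + a) (z.2 + 3 * a))
    (VC_inc (z.1 + 2 * a) (z.1 + 3 * a) (z.2 - 3 * a) (z.2 + 3 * a))
  have e2 := mul_le_mul (mul_le_mul h1 h2 hc.le (hc.le.trans h1)) h3 hc.le
    (mul_nonneg (hc.le.trans h1) (hc.le.trans h2))
  exact (e2.trans e1).trans (PrP_mono hq.pb fun ω _ hh =>
    flat_of ha hN hE hK hh.1 hh.2.1 hh.2.2)

theorem cvx_prob : ∃ c : ℝ, 0 < c ∧ ∀ q : ℤ × ℤ → ℝ, Qh q → ∀ (E : Finset (ℤ × ℤ))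
    (K : ℤ × ℤ → Prop) (z : ℤ × ℤ) (N a : ℤ), 1 ≤ a → N ≤ a → Nbh E K z (3 * a) →
    Cvx K z N (3 * a) → c ≤ PrP q (E ∩ An z (a - 1) (3 * a))
      (HR E K (Sd z (a - 1) 1 (-1)) (Sd z (a - 1) 1 1) z (a - 1) (3 * a)) := by
  obtain ⟨c, hc, h⟩ := rsw_q 6
  refine ⟨c, by positivity, fun q hq E K z N a ha hN hE hK => ?_⟩
  set B := Bx (z.1 - 3 * a) (z.1 + 3 * a) (z.2 - 3 * a) (z.2 + 3 * a) with hB
  rw [← PrP_HR (K' := E ∪ B) (inter_subset_left.trans subset_union_left)]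
  have h3 := (h q hq (E ∪ B) (z.1 + 2 * a) (z.1 + 3 * a) (z.2 - 3 * a) (z.2 + 3 * a)
    (by omega) (by omega)
    ((Bx_sub (by omega) le_rfl le_rfl le_rfl).trans
      subset_union_right)).2 (by push_cast; omega)
  exact h3.trans (PrP_mono hq.pb fun ω _ hh => cvx_of ha hN hE hK hh)

theorem ccv_prob : ∃ c : ℝ, 0 < c ∧ ∀ q : ℤ × ℤ → ℝ, Qh q → ∀ (E : Finset (ℤ × ℤ))
    (K : ℤ × ℤ → Prop) (z : ℤ × ℤ) (N a : ℤ), 1 ≤ a → N ≤ a → Nbh E K z (3 * a) →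
    Ccv K z N (3 * a) → c ≤ PrP q (E ∩ An z (a - 1) (3 * a))
      (HR E K (Sd z (a - 1) (-1) (-1)) (Sd z (a - 1) (-1) 1) z (a - 1) (3 * a)) := by
  obtain ⟨c, hc, h⟩ := rsw_q 6
  refine ⟨c * c * c, by positivity, fun q hq E K z N a ha hN hE hK => ?_⟩
  set B := Bx (z.1 - 3 * a) (z.1 + 3 * a) (z.2 - 3 * a) (z.2 + 3 * a) with hB
  rw [← PrP_HR (K' := E ∪ B) (inter_subset_left.trans subset_union_left)]
  have h1 := (h q hq (E ∪ B) (z.1 - 3 * a) (z.1 + 3 * a) (z.2 + 2 * a) (z.2 + 3 * a)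
    (by omega) (by omega) ((Bx_sub le_rfl le_rfl (by omega) le_rfl).trans
      subset_union_right)).1 (by push_cast; omega)
  have h2 := (h q hq (E ∪ B) (z.1 - 3 * a) (z.1 + 3 * a) (z.2 - 3 * a) (z.2 - 2 * a)
    (by omega) (by omega) ((Bx_sub le_rfl le_rfl le_rfl (by omega)).trans
      subset_union_right)).1 (by push_cast; omega)
  have h3 := (h q hq (E ∪ B) (z.1 + 2 * a) (z.1 + 3 * a) (z.2 - 3 * a) (z.2 + 3 * a)
    (by omega) (by omega)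
    ((Bx_sub (by omega) le_rfl le_rfl le_rfl).trans
      subset_union_right)).2 (by push_cast; omega)
  have e1 := harris3P hq.pb (E ∪ B)
    (HC_inc (z.1 - 3 * a) (z.1 + 3 * a) (z.2 + 2 * a) (z.2 + 3 * a))
    (HC_inc (z.1 - 3 * a) (z.1 + 3 * a) (z.2 - 3 * a) (z.2 - 2 * a))
    (VC_inc (z.1 + 2 * a) (z.1 + 3 * a) (z.2 - 3 * a) (z.2 + 3 * a))
  have e2 := mul_le_mul (mul_le_mul h1 h2 hc.le (hc.le.trans h1)) h3 hc.le
    (mul_nonneg (hc.le.trans h1) (hc.le.trans h2))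
  exact (e2.trans e1).trans (PrP_mono hq.pb fun ω _ hh =>
    ccv_of ha hN hE hK hh.1 hh.2.1 hh.2.2)

/-! ### All scales -/

/-- no half circuit in `n` disjoint annuli -/
lemma no_scales {q : ℤ × ℤ → ℝ} (hq : Pb q) {c : ℝ} (E : Finset (ℤ × ℤ))
    (K : ℤ × ℤ → Prop) (L R : ℤ → ℤ × ℤ → Prop) (z : ℤ × ℤ) (a : ℤ) (ha : 1 ≤ a) (n : ℕ)
    (h : ∀ j < n, c ≤ PrP q (E ∩ An z (4 ^ j * a - 1) (3 * (4 ^ j * a)))
      (HR E K (L (4 ^ j * a - 1)) (R (4 ^ j * a - 1)) z (4 ^ j * a - 1) (3 * (4 ^ j * a))))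
    {F : Finset (ℤ × ℤ)} (hF : ∀ j < n, E ∩ An z (4 ^ j * a - 1) (3 * (4 ^ j * a)) ⊆ F) :
    PrP q F (fun ω => ∀ j < n, ¬ HR E K (L (4 ^ j * a - 1)) (R (4 ^ j * a - 1)) z
      (4 ^ j * a - 1) (3 * (4 ^ j * a)) ω) ≤ (1 - c) ^ n := by
  have hpow : ∀ j : ℕ, (1 : ℤ) ≤ 4 ^ j := fun j => one_le_pow₀ (by norm_num)
  have h1 := Pool.Agent.H81.NC.ProbB.PrP_indep_fin q (range n)
    (fun j => E ∩ An z (4 ^ j * a - 1) (3 * (4 ^ j * a)))
    (fun j ω => ¬ HR E K (L (4 ^ j * a - 1)) (R (4 ^ j * a - 1)) z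
      (4 ^ j * a - 1) (3 * (4 ^ j * a)) ω) (E := F)
    (fun j hj => hF j (mem_range.1 hj))
    (by
      have key : ∀ i j : ℕ, i < j → Disjoint (E ∩ An z (4 ^ i * a - 1) (3 * (4 ^ i * a)))
          (E ∩ An z (4 ^ j * a - 1) (3 * (4 ^ j * a))) := by
        intro i j hij
        rw [disjoint_left]
        intro l hl hl'
        have h2 := mem_An.1 (mem_inter.1 hl).2
        have h3 := mem_An.1 (mem_inter.1 hl').2
        have h4 : (4 : ℤ) ^ (i + 1) ≤ 4 ^ j := pow_le_pow_right₀ (by norm_num) hij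
        have h5 : (4 : ℤ) ^ (i + 1) * a ≤ 4 ^ j * a := mul_le_mul_of_nonneg_right h4 (by omega)
        have h6 : (4 : ℤ) ^ (i + 1) * a = 4 * (4 ^ i * a) := by ring
        have h7 : 1 * a ≤ 4 ^ i * a := mul_le_mul_of_nonneg_right (hpow i) (by omega)
        generalize (4 : ℤ) ^ i * a = A at *
        generalize (4 : ℤ) ^ j * a = B at *
        omega
      intro i _ j _ hij
      rcases lt_or_gt_of_ne hij with h2 | h2
      · exact key i j h2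
      · exact (key j i h2).symm)
  have h2 : PrP q F (fun ω => ∀ j < n, ¬ HR E K (L (4 ^ j * a - 1)) (R (4 ^ j * a - 1)) z
      (4 ^ j * a - 1) (3 * (4 ^ j * a)) ω) = _ := (PrP_congr fun ω _ => by
    simp only [mem_range]
    exact forall_congr' fun j => forall_congr' fun _ => not_congr HR_loc).trans h1
  rw [h2, ← card_range n, ← prod_const]
  rw [card_range]
  refine prod_le_prod (fun j _ => PrP_nonneg hq _ _) fun j hj => ?_
  rw [PrP_not]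
  have := h j (mem_range.1 hj)
  linarith

/-- **power law from one scale** -/
theorem power_of {c : ℝ} (hc0 : 0 < c) : ∃ C α : ℝ, 0 < C ∧ 0 < α ∧
    ∀ q : ℤ × ℤ → ℝ, Pb q → ∀ (E : Finset (ℤ × ℤ)) (K : ℤ × ℤ → Prop) (L R : ℤ → ℤ × ℤ → Prop),
    (∀ a a' p, a' ≤ a → L a p → L a' p) → (∀ a a' p, a' ≤ a → R a p → R a' p) →
    ∀ (z : ℤ × ℤ) (ρ M : ℤ), 1 ≤ ρ → ρ ≤ M →
    (∀ a, ρ < a → 3 * a ≤ M → c ≤ PrP q (E ∩ An z (a - 1) (3 * a))
      (HR E K (L (a - 1)) (R (a - 1)) z (a - 1) (3 * a))) →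
    ∀ F : Finset (ℤ × ℤ), E ∩ An z ρ M ⊆ F →
    PrP q F (fun ω => ¬ HR E K (L ρ) (R ρ) z ρ M ω) ≤ C * ((ρ : ℝ) / M) ^ α := by
  set c' : ℝ := min c (1 / 2) with hc'
  have hc'0 : 0 < c' := lt_min hc0 (by norm_num)
  have hc'1 : c' ≤ 1 / 2 := min_le_right _ _
  obtain ⟨α, hα, h4⟩ := pow_le_rpow (δ := 1 - c') (by linarith) (by linarith)
  have hinv : 0 < (1 - c')⁻¹ := inv_pos.2 (by linarith)
  refine ⟨(1 - c')⁻¹ * 96 ^ α + 96 ^ α, α, by positivity, hα,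
    fun q hq E K L R hL hR z ρ M hρ hρM hone F hF => ?_⟩
  have hρ' : (1 : ℝ) ≤ ρ := by exact_mod_cast hρ
  have hM' : (ρ : ℝ) ≤ M := by exact_mod_cast hρM
  have hMpos : (0 : ℝ) < M := by linarith
  have hx0 : 0 < (ρ : ℝ) / M := by positivity
  by_cases hbig : M < 96 * ρ
  · refine (PrP_le_one hq _ _).trans ?_
    have h5 : 1 ≤ 96 * ((ρ : ℝ) / M) := by
      rw [← mul_div_assoc, le_div_iff₀ hMpos]
      have h1 : (M : ℝ) ≤ 96 * ρ := by exact_mod_cast hbig.le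
      linarith
    have h6 : 1 ≤ (96 * ((ρ : ℝ) / M)) ^ α := Real.one_le_rpow h5 hα.le
    rw [Real.mul_rpow (by norm_num) hx0.le] at h6
    have h7 : 0 < ((ρ : ℝ) / M) ^ α := Real.rpow_pos_of_pos hx0 _
    have h8 : 0 ≤ (1 - c')⁻¹ * 96 ^ α * ((ρ : ℝ) / M) ^ α := by positivity
    nlinarith
  push Not at hbig
  -- the number of scales, `a = ρ + 1`
  obtain ⟨n, hn1, hn2⟩ : ∃ n : ℕ, 3 * (4 ^ n * (ρ + 1)) ≤ M ∧ M < 3 * (4 ^ (n + 1) * (ρ + 1)) := by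
    have hex : ∃ n : ℕ, M < 3 * (4 ^ (n + 1) * (ρ + 1)) := by
      obtain ⟨n, hn⟩ := pow_unbounded_of_one_lt M (by norm_num : (1 : ℤ) < 4)
      refine ⟨n, ?_⟩
      have h1 : (4 : ℤ) ^ n ≤ 4 ^ (n + 1) := pow_le_pow_right₀ (by norm_num) (by omega)
      have h2 : (0 : ℤ) < 4 ^ (n + 1) := by positivity
      nlinarith
    classical
    refine ⟨Nat.find hex, ?_, Nat.find_spec hex⟩
    rcases Nat.eq_zero_or_pos (Nat.find hex) with h0 | h0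
    · rw [h0]; omega
    · have := Nat.find_min hex (m := Nat.find hex - 1) (by omega)
      push Not at this
      rwa [Nat.sub_add_cancel h0] at this
  have hpow : ∀ j : ℕ, (1 : ℤ) ≤ 4 ^ j := fun j => one_le_pow₀ (by norm_num)
  have hrho : ∀ j < n + 1, ρ ≤ 4 ^ j * (ρ + 1) - 1 ∧ 3 * (4 ^ j * (ρ + 1)) ≤ M := by
    intro j hj
    have h5 : (4 : ℤ) ^ j ≤ 4 ^ n := pow_le_pow_right₀ (by norm_num) (by omega)
    have h6 : 4 ^ j * (ρ + 1) ≤ 4 ^ n * (ρ + 1) := mul_le_mul_of_nonneg_right h5 (by omega)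
    have h8 : 1 * (ρ + 1) ≤ 4 ^ j * (ρ + 1) := mul_le_mul_of_nonneg_right (hpow j) (by omega)
    constructor <;> omega
  have main := no_scales hq (c := c') E K L R z (ρ + 1) (by omega) (n + 1)
    (fun j hj => (min_le_left _ _).trans (hone _ (by have := (hrho j hj).1; omega)
      (hrho j hj).2)) (F := F)
    (fun j hj => (inter_subset_inter_left (An_mono (hrho j hj).1 (hrho j hj).2)).trans hF)
  have m1 : PrP q F (fun ω => ¬ HR E K (L ρ) (R ρ) z ρ M ω) ≤ (1 - c') ^ (n + 1) := by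
    refine le_trans (PrP_mono hq fun ω _ h => ?_) main
    intro j hj hRO
    exact h (HR_mono (hrho j hj).1 (hrho j hj).2 (fun p => hL _ _ p (hrho j hj).1)
      (fun p => hR _ _ p (hrho j hj).1) hRO)
  have hxR : (M : ℝ) / ρ < 4 ^ (n + 1 + 1) * 96 / 4 := by
    rw [div_lt_iff₀ (by linarith)]
    have h5 : M < 4 ^ (n + 1) * ρ * 24 := by
      have h6 : 4 ^ (n + 1) * (ρ + 1) ≤ 4 ^ (n + 1) * (2 * ρ) :=
        mul_le_mul_of_nonneg_left (by omega) (by positivity)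
      have h7 : 4 ^ (n + 1) * (2 * ρ) = 2 * (4 ^ (n + 1) * ρ) := by ring
      have h8 : 0 < 4 ^ (n + 1) * ρ := by positivity
      omega
    have h9 : (M : ℝ) < 4 ^ (n + 1) * ρ * 24 := by exact_mod_cast h5
    have h10 : (4 : ℝ) ^ (n + 1 + 1) * 96 / 4 * ρ = 4 * (4 ^ (n + 1) * ρ * 24) := by ring
    rw [h10]
    have h11 : (0 : ℝ) < 4 ^ (n + 1) * ρ * 24 := by positivity
    linarith
  -- the power
  have h5 := h4 ((M : ℝ) / ρ / 96) (n + 1) (by positivity) (by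
    rw [div_lt_iff₀ (by norm_num)]
    calc (M : ℝ) / ρ < 4 ^ (n + 1 + 1) * 96 / 4 := hxR
      _ ≤ 4 ^ (n + 1 + 1) * 96 := by
        have : (0 : ℝ) < 4 ^ (n + 1 + 1) * 96 := by positivity
        linarith)
  have e1 : ((M : ℝ) / ρ / 96) ^ (-α) = 96 ^ α * ((ρ : ℝ) / M) ^ α := by
    rw [Real.rpow_neg (by positivity), ← Real.inv_rpow (by positivity),
      show ((M : ℝ) / ρ / 96)⁻¹ = 96 * (ρ / M) by field_simp,
      Real.mul_rpow (by norm_num) hx0.le]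
  rw [e1] at h5
  have hPα : 0 < ((ρ : ℝ) / M) ^ α := Real.rpow_pos_of_pos hx0 _
  calc _ ≤ (1 - c') ^ (n + 1) := m1
    _ ≤ (1 - c')⁻¹ * (96 ^ α * (ρ / M) ^ α) := h5
    _ = (1 - c')⁻¹ * 96 ^ α * (ρ / M) ^ α := by ring
    _ ≤ _ := mul_le_mul_of_nonneg_right (le_add_of_nonneg_right (by positivity)) hPα.le

/-! ### Symmetries -/

/-- the reflections and rotations which fix `z` -/
def syZX (z : ℤ × ℤ) : Sy := syX (2 * z.1)

def syZY (z : ℤ × ℤ) : Sy := syY (2 * z.2)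

/-- reflection at the diagonal through `z` -/
def syZD (z : ℤ × ℤ) : Sy where
  g u := (z.1 + (u.2 - z.2), z.2 + (u.1 - z.1))
  g' u := (z.1 + (u.2 - z.2), z.2 + (u.1 - z.1))
  G := ⟨fun e => (2 * z.1 - 2 * z.2 + e.2, 2 * z.2 - 2 * z.1 + e.1), by
    intro a b h
    have h1 := congrArg Prod.fst h
    have h2 := congrArg Prod.snd h
    simp only at h1 h2
    exact Prod.ext (by omega) (by omega)⟩
  G' e := (2 * z.1 - 2 * z.2 + e.2, 2 * z.2 - 2 * z.1 + e.1)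
  gg' u := by
    refine Prod.ext ?_ ?_
    · change z.1 + (z.2 + (u.1 - z.1) - z.2) = u.1; ring
    · change z.2 + (z.1 + (u.2 - z.2) - z.1) = u.2; ring
  g'g u := by
    refine Prod.ext ?_ ?_
    · change z.1 + (z.2 + (u.1 - z.1) - z.2) = u.1; ring
    · change z.2 + (z.1 + (u.2 - z.2) - z.1) = u.2; ring
  GG' e := by
    refine Prod.ext ?_ ?_
    · change 2 * z.1 - 2 * z.2 + (2 * z.2 - 2 * z.1 + e.1) = e.1; ring
    · change 2 * z.2 - 2 * z.1 + (2 * z.1 - 2 * z.2 + e.2) = e.2; ring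
  add u v := by
    refine Prod.ext ?_ ?_
    · change z.1 + (u.2 - z.2) + (z.1 + (v.2 - z.2)) = 2 * z.1 - 2 * z.2 + (u.2 + v.2); ring
    · change z.2 + (u.1 - z.1) + (z.2 + (v.1 - z.1)) = 2 * z.2 - 2 * z.1 + (u.1 + v.1); ring
  unit u v := by
    constructor
    · intro h
      have h1 := unit_cases h
      unfold IsUnit4
      simp only [Prod.ext_iff, Prod.fst_sub, Prod.snd_sub]
      omega
    · intro h
      have h1 := unit_cases h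
      simp only at h1
      unfold IsUnit4
      simp only [Prod.ext_iff, Prod.fst_sub, Prod.snd_sub]
      omega

lemma An_sy {z : ℤ × ℤ} {a b : ℤ} {S : Sy} (hS : S = syZX z ∨ S = syZY z ∨ S = syZD z) :
    ∀ e, e ∈ An z a b ↔ S.G' e ∈ An z a b := by
  intro e
  rw [mem_An, mem_An]
  rcases hS with rfl | rfl | rfl
  · simp only [syZX, syX]; omega
  · simp only [syZY, syY]; omega
  · simp only [syZD]; omega

lemma inR_sy {z : ℤ × ℤ} {M : ℤ} {S : Sy} (hS : S = syZX z ∨ S = syZY z ∨ S = syZD z)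
    {u : ℤ × ℤ} : inR z M (S.g' u) ↔ inR z M u := by
  rw [inR_iff, inR_iff]
  rcases hS with rfl | rfl | rfl
  · simp only [syZX, syX]; omega
  · simp only [syZY, syY]; omega
  · simp only [syZD]; omega

lemma Nbh_sy {E : Finset (ℤ × ℤ)} {K : ℤ × ℤ → Prop} {z : ℤ × ℤ} {M : ℤ} {S : Sy}
    (hS : S = syZX z ∨ S = syZY z ∨ S = syZD z) (h : Nbh E K z M) :
    Nbh (E.map S.G) (fun u => K (S.g' u)) z M := by
  intro u v h1 h2 h3 h4
  have h5 : IsUnit4 (S.g' v - S.g' u) := by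
    rw [S.unit, S.gg', S.gg']
    exact h1
  have h6 := h _ _ h5 h2 ((inR_sy hS).2 h3) ((inR_sy hS).2 h4)
  have h7 := S.add (S.g' u) (S.g' v)
  rw [S.gg', S.gg'] at h7
  rw [h7]
  exact mem_map_of_mem _ h6

lemma HR_sy {E : Finset (ℤ × ℤ)} {K L R : ℤ × ℤ → Prop} {z : ℤ × ℤ} {a b : ℤ} {S : Sy}
    (hS : S = syZX z ∨ S = syZY z ∨ S = syZD z) {ω : Finset (ℤ × ℤ)} :
    HR (E.map S.G) (fun u => K (S.g' u)) (fun u => L (S.g' u)) (fun u => R (S.g' u)) z a b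
      (ω.map S.G) ↔ HR E K L R z a b ω := by
  have e1 : ω.map S.G ∩ (E.map S.G ∩ An z a b) = (ω ∩ (E ∩ An z a b)).map S.G := by
    apply S.map_inter
    intro e
    rw [mem_inter, mem_inter, S.mem_map, An_sy hS]
  unfold HR
  rw [e1]
  constructor
  · rintro ⟨p, p', h1, h2, h3, h4, h5⟩
    refine ⟨S.g' p, S.g' p', h1, h2, h3, h4, ?_⟩
    rw [← S.co_iff, S.gg', S.gg']
    exact h5
  · rintro ⟨p, p', h1, h2, h3, h4, h5⟩
    refine ⟨S.g p, S.g p', ?_, ?_, ?_, ?_, ?_⟩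
    · simp only [S.g'g]; exact h1
    · simp only [S.g'g]; exact h2
    · simp only [S.g'g]; exact h3
    · simp only [S.g'g]; exact h4
    · rw [S.co_iff]; exact h5

/-- transport of the one scale bound -/
lemma PrP_HR_sy {q : ℤ × ℤ → ℝ} {E : Finset (ℤ × ℤ)} {K L R : ℤ × ℤ → Prop} {z : ℤ × ℤ} {a b : ℤ}
    {S : Sy} (hS : S = syZX z ∨ S = syZY z ∨ S = syZD z) :
    PrP (fun e => q (S.G' e)) (E.map S.G ∩ An z a b) (HR (E.map S.G) (fun u => K (S.g' u))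
      (fun u => L (S.g' u)) (fun u => R (S.g' u)) z a b) =
    PrP q (E ∩ An z a b) (HR E K L R z a b) := by
  have e1 : E.map S.G ∩ An z a b = (E ∩ An z a b).map S.G :=
    S.map_inter E (An_sy hS)
  rw [e1, PrP_map]
  have e2 : (fun e => q (S.G' (S.G e))) = q := by
    funext e
    congr 1
    exact S.G.injective (S.GG' _)
  simp only [e2]
  exact PrP_congr fun ω _ => HR_sy hS

/-! ### Final form: all orientations, all scales -/

/-- flat or staircase wall, inner normal `(s, t)`; the wall runs in the directions `(-s, t)` and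
`(s, -t)` -/
def FlatS (K : ℤ × ℤ → Prop) (z : ℤ × ℤ) (s t N M : ℤ) : Prop :=
  (∀ u, inR z M u → s * (u.1 - z.1) + t * (u.2 - z.2) ≤ 0 → K u) ∧
    (∀ u, inR z M u → K u → s * (u.1 - z.1) + t * (u.2 - z.2) ≤ N)

/-- convex corner, the room is the horizontal cone `{|y| ≤ s x}` -/
def CvxH (K : ℤ × ℤ → Prop) (z : ℤ × ℤ) (s N M : ℤ) : Prop :=
  (∀ u, inR z M u → s * (u.1 - z.1) ≤ |u.2 - z.2| → K u) ∧
    (∀ u, inR z M u → K u → s * (u.1 - z.1) ≤ |u.2 - z.2| + N)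

/-- convex corner, the room is the vertical cone `{|x| ≤ s y}` -/
def CvxV (K : ℤ × ℤ → Prop) (z : ℤ × ℤ) (s N M : ℤ) : Prop :=
  (∀ u, inR z M u → s * (u.2 - z.2) ≤ |u.1 - z.1| → K u) ∧
    (∀ u, inR z M u → K u → s * (u.2 - z.2) ≤ |u.1 - z.1| + N)

/-- concave corner, the wall is the horizontal cone `{s x ≤ -|y|}` -/
def CcvH (K : ℤ × ℤ → Prop) (z : ℤ × ℤ) (s N M : ℤ) : Prop :=
  (∀ u, inR z M u → s * (u.1 - z.1) ≤ -|u.2 - z.2| → K u) ∧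
    (∀ u, inR z M u → K u → s * (u.1 - z.1) ≤ -|u.2 - z.2| + N)

/-- concave corner, the wall is the vertical cone `{s y ≤ -|x|}` -/
def CcvV (K : ℤ × ℤ → Prop) (z : ℤ × ℤ) (s N M : ℤ) : Prop :=
  (∀ u, inR z M u → s * (u.2 - z.2) ≤ -|u.1 - z.1| → K u) ∧
    (∀ u, inR z M u → K u → s * (u.2 - z.2) ≤ -|u.1 - z.1| + N)

/-- the five kinds of wall points with the directions `(s1, t1)`, `(s2, t2)` of the two walls -/
def Shape (K : ℤ × ℤ → Prop) (z : ℤ × ℤ) (N M s1 t1 s2 t2 : ℤ) : Prop :=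
  ((s2 = 1 ∨ s2 = -1) ∧ (t1 = 1 ∨ t1 = -1) ∧ s1 = -s2 ∧ t2 = -t1 ∧ FlatS K z s2 t1 N M) ∨
  ((s1 = 1 ∨ s1 = -1) ∧ s2 = s1 ∧ t1 = -1 ∧ t2 = 1 ∧ CvxH K z s1 N M) ∨
  ((t1 = 1 ∨ t1 = -1) ∧ t2 = t1 ∧ s1 = -1 ∧ s2 = 1 ∧ CvxV K z t1 N M) ∨
  ((s1 = 1 ∨ s1 = -1) ∧ s2 = s1 ∧ t1 = -1 ∧ t2 = 1 ∧ CcvH K z (-s1) N M) ∨
  ((t1 = 1 ∨ t1 = -1) ∧ t2 = t1 ∧ s1 = -1 ∧ s2 = 1 ∧ CcvV K z (-t1) N M)

lemma Shape.mono {K : ℤ × ℤ → Prop} {z : ℤ × ℤ} {N N' M M' s1 t1 s2 t2 : ℤ} (hN : N ≤ N')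
    (hM : M' ≤ M) (h : Shape K z N M s1 t1 s2 t2) : Shape K z N' M' s1 t1 s2 t2 := by
  rcases h with ⟨h1, h2, h3, h4, h⟩ | ⟨h1, h2, h3, h4, h⟩ | ⟨h1, h2, h3, h4, h⟩ |
    ⟨h1, h2, h3, h4, h⟩ | ⟨h1, h2, h3, h4, h⟩
  · exact Or.inl ⟨h1, h2, h3, h4, fun u hu => h.1 u (inR_mono hM hu),
      fun u hu hK => (h.2 u (inR_mono hM hu) hK).trans hN⟩
  · exact Or.inr (Or.inl ⟨h1, h2, h3, h4, fun u hu => h.1 u (inR_mono hM hu),
      fun u hu hK => (h.2 u (inR_mono hM hu) hK).trans (by omega)⟩)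
  · exact Or.inr (Or.inr (Or.inl ⟨h1, h2, h3, h4, fun u hu => h.1 u (inR_mono hM hu),
      fun u hu hK => (h.2 u (inR_mono hM hu) hK).trans (by omega)⟩))
  · exact Or.inr (Or.inr (Or.inr (Or.inl ⟨h1, h2, h3, h4, fun u hu => h.1 u (inR_mono hM hu),
      fun u hu hK => (h.2 u (inR_mono hM hu) hK).trans (by omega)⟩)))
  · exact Or.inr (Or.inr (Or.inr (Or.inr ⟨h1, h2, h3, h4, fun u hu => h.1 u (inR_mono hM hu),
      fun u hu hK => (h.2 u (inR_mono hM hu) hK).trans (by omega)⟩)))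

lemma HR_congr {E : Finset (ℤ × ℤ)} {K L R L' R' : ℤ × ℤ → Prop} {z : ℤ × ℤ} {a b : ℤ}
    (hL : ∀ p, L p ↔ L' p) (hR : ∀ p, R p ↔ R' p) : HR E K L R z a b = HR E K L' R' z a b := by
  have h1 : L = L' := funext fun p => propext (hL p)
  have h2 : R = R' := funext fun p => propext (hR p)
  rw [h1, h2]

/-- the one scale bound is invariant under the symmetries -/
def One (c : ℝ) (E : Finset (ℤ × ℤ)) (K : ℤ × ℤ → Prop) (z : ℤ × ℤ) (a s1 t1 s2 t2 : ℤ) : Prop :=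
  ∀ q : ℤ × ℤ → ℝ, Qh q → c ≤ PrP q (E ∩ An z (a - 1) (3 * a))
    (HR E K (Sd z (a - 1) s1 t1) (Sd z (a - 1) s2 t2) z (a - 1) (3 * a))

lemma One.symm {c : ℝ} {E : Finset (ℤ × ℤ)} {K : ℤ × ℤ → Prop} {z : ℤ × ℤ} {a s1 t1 s2 t2 : ℤ}
    (h : One c E K z a s1 t1 s2 t2) : One c E K z a s2 t2 s1 t1 := by
  intro q hq
  refine (h q hq).trans (le_of_eq (PrP_congr fun ω _ => HR_symm))

lemma One_sy {c : ℝ} {E : Finset (ℤ × ℤ)} {K : ℤ × ℤ → Prop} {z : ℤ × ℤ}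
    {a s1 t1 s2 t2 s1' t1' s2' t2' : ℤ} {S : Sy} (hS : S = syZX z ∨ S = syZY z ∨ S = syZD z)
    (h1 : ∀ ρ p, Sd z ρ s1 t1 (S.g' p) ↔ Sd z ρ s1' t1' p)
    (h2 : ∀ ρ p, Sd z ρ s2 t2 (S.g' p) ↔ Sd z ρ s2' t2' p)
    (h : One c (E.map S.G) (fun u => K (S.g' u)) z a s1' t1' s2' t2') :
    One c E K z a s1 t1 s2 t2 := by
  intro q hq
  have h3 := h (fun e => q (S.G' e)) (fun e => hq _)
  rwa [← HR_congr (h1 _) (h2 _), PrP_HR_sy hS] at h3

/-- **one scale, all kinds of wall points** -/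
theorem shape_prob : ∃ c : ℝ, 0 < c ∧ ∀ (E : Finset (ℤ × ℤ)) (K : ℤ × ℤ → Prop) (z : ℤ × ℤ)
    (N a s1 t1 s2 t2 : ℤ), 1 ≤ a → N ≤ a → Nbh E K z (3 * a) →
    Shape K z N (3 * a) s1 t1 s2 t2 → One c E K z a s1 t1 s2 t2 := by
  obtain ⟨c1, hc1, H1⟩ := flat_prob
  obtain ⟨c2, hc2, H2⟩ := cvx_prob
  obtain ⟨c3, hc3, H3⟩ := ccv_prob
  set c := min c1 (min c2 c3) with hc
  have k1 : c ≤ c1 := min_le_left _ _
  have k2 : c ≤ c2 := (min_le_right _ _).trans (min_le_left _ _)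
  have k3 : c ≤ c3 := (min_le_right _ _).trans (min_le_right _ _)
  refine ⟨c, lt_min hc1 (lt_min hc2 hc3), fun E K z N a s1 t1 s2 t2 ha hN hE hK => ?_⟩
  -- standard forms
  have F1 : ∀ (E : Finset (ℤ × ℤ)) (K : ℤ × ℤ → Prop), Nbh E K z (3 * a) →
      FlatS K z 1 1 N (3 * a) → One c E K z a (-1) 1 1 (-1) := by
    intro E K hE hK q hq
    exact k1.trans (H1 q hq E K z N a ha hN hE ⟨fun u hu h => hK.1 u hu (by omega),
      fun u hu h => by have := hK.2 u hu h; omega⟩)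
  have F2 : ∀ (E : Finset (ℤ × ℤ)) (K : ℤ × ℤ → Prop), Nbh E K z (3 * a) →
      CvxH K z 1 N (3 * a) → One c E K z a 1 (-1) 1 1 := by
    intro E K hE hK q hq
    exact k2.trans (H2 q hq E K z N a ha hN hE ⟨fun u hu h => hK.1 u hu (by omega),
      fun u hu h => by have := hK.2 u hu h; omega⟩)
  have F3 : ∀ (E : Finset (ℤ × ℤ)) (K : ℤ × ℤ → Prop), Nbh E K z (3 * a) →
      CcvH K z 1 N (3 * a) → One c E K z a (-1) (-1) (-1) 1 := by
    intro E K hE hK q hq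
    exact k3.trans (H3 q hq E K z N a ha hN hE ⟨fun u hu h => hK.1 u hu (by omega),
      fun u hu h => by have := hK.2 u hu h; omega⟩)
  -- reflected forms
  have G1 : ∀ (E : Finset (ℤ × ℤ)) (K : ℤ × ℤ → Prop), Nbh E K z (3 * a) →
      FlatS K z (-1) 1 N (3 * a) → One c E K z a 1 1 (-1) (-1) := by
    intro E K hE hK
    refine One_sy (S := syZX z) (s1' := -1) (t1' := 1) (s2' := 1) (t2' := -1) (Or.inl rfl)
      (fun ρ p => by unfold Sd; simp only [syZX, syX]; constructor <;> intro h <;> omega)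
      (fun ρ p => by unfold Sd; simp only [syZX, syX]; constructor <;> intro h <;> omega)
      (F1 _ _ (Nbh_sy (Or.inl rfl) hE) ⟨fun u hu h => ?_, fun u hu h => ?_⟩)
    · refine hK.1 _ ((inR_sy (Or.inl rfl)).2 hu) ?_
      simp only [syZX, syX]; omega
    · have := hK.2 _ ((inR_sy (Or.inl rfl)).2 hu) h
      simp only [syZX, syX] at this; omega
  have G2 : ∀ (E : Finset (ℤ × ℤ)) (K : ℤ × ℤ → Prop), Nbh E K z (3 * a) →
      CvxH K z (-1) N (3 * a) → One c E K z a (-1) (-1) (-1) 1 := by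
    intro E K hE hK
    refine One_sy (S := syZX z) (s1' := 1) (t1' := -1) (s2' := 1) (t2' := 1) (Or.inl rfl)
      (fun ρ p => by unfold Sd; simp only [syZX, syX]; constructor <;> intro h <;> omega)
      (fun ρ p => by unfold Sd; simp only [syZX, syX]; constructor <;> intro h <;> omega)
      (F2 _ _ (Nbh_sy (Or.inl rfl) hE) ⟨fun u hu h => ?_, fun u hu h => ?_⟩)
    · refine hK.1 _ ((inR_sy (Or.inl rfl)).2 hu) ?_
      simp only [syZX, syX]; omega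
    · have := hK.2 _ ((inR_sy (Or.inl rfl)).2 hu) h
      simp only [syZX, syX] at this; omega
  have G3 : ∀ (E : Finset (ℤ × ℤ)) (K : ℤ × ℤ → Prop), Nbh E K z (3 * a) →
      CcvH K z (-1) N (3 * a) → One c E K z a 1 (-1) 1 1 := by
    intro E K hE hK
    refine One_sy (S := syZX z) (s1' := -1) (t1' := -1) (s2' := -1) (t2' := 1) (Or.inl rfl)
      (fun ρ p => by unfold Sd; simp only [syZX, syX]; constructor <;> intro h <;> omega)
      (fun ρ p => by unfold Sd; simp only [syZX, syX]; constructor <;> intro h <;> omega)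
      (F3 _ _ (Nbh_sy (Or.inl rfl) hE) ⟨fun u hu h => ?_, fun u hu h => ?_⟩)
    · refine hK.1 _ ((inR_sy (Or.inl rfl)).2 hu) ?_
      simp only [syZX, syX]; omega
    · have := hK.2 _ ((inR_sy (Or.inl rfl)).2 hu) h
      simp only [syZX, syX] at this; omega
  -- lower flat walls by the vertical reflection
  have V1 : ∀ (s : ℤ), (s = 1 ∨ s = -1) → ∀ (E : Finset (ℤ × ℤ)) (K : ℤ × ℤ → Prop),
      Nbh E K z (3 * a) → FlatS K z s (-1) N (3 * a) → One c E K z a (-s) (-1) s 1 := by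
    intro s hs E K hE hK
    have hY : syZY z = syZX z ∨ syZY z = syZY z ∨ syZY z = syZD z := Or.inr (Or.inl rfl)
    have hK' : FlatS (fun u => K ((syZY z).g' u)) z s 1 N (3 * a) := by
      refine ⟨fun u hu h => ?_, fun u hu h => ?_⟩
      · refine hK.1 _ ((inR_sy hY).2 hu) ?_
        simp only [syZY, syY]
        rcases hs with rfl | rfl <;> omega
      · have := hK.2 _ ((inR_sy hY).2 hu) h
        simp only [syZY, syY] at this
        rcases hs with rfl | rfl <;> omega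
    refine One_sy (S := syZY z) (s1' := -s) (t1' := 1) (s2' := s) (t2' := -1) hY
      (fun ρ p => by
        unfold Sd; simp only [syZY, syY]
        rcases hs with rfl | rfl <;> constructor <;> intro h <;> omega)
      (fun ρ p => by
        unfold Sd; simp only [syZY, syY]
        rcases hs with rfl | rfl <;> constructor <;> intro h <;> omega) ?_
    rcases hs with rfl | rfl
    · exact F1 _ _ (Nbh_sy hY hE) hK'
    · simpa using G1 _ _ (Nbh_sy hY hE) hK'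
  have hD : syZD z = syZX z ∨ syZD z = syZY z ∨ syZD z = syZD z := Or.inr (Or.inr rfl)
  rcases hK with ⟨h1, h2, h3, h4, h⟩ | ⟨h1, h2, h3, h4, h⟩ | ⟨h1, h2, h3, h4, h⟩ |
    ⟨h1, h2, h3, h4, h⟩ | ⟨h1, h2, h3, h4, h⟩
  · subst h3 h4
    rcases h2 with rfl | rfl
    · rcases h1 with rfl | rfl
      · exact F1 E K hE h
      · simpa using G1 E K hE h
    · simpa using V1 s2 h1 E K hE h
  · subst h2 h3 h4
    rcases h1 with rfl | rfl
    · exact F2 E K hE h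
    · exact G2 E K hE h
  · subst h2 h3 h4
    refine One_sy (S := syZD z) (s1' := t2) (t1' := -1) (s2' := t2) (t2' := 1) hD
      (fun ρ p => by unfold Sd; simp only [syZD]; rcases h1 with rfl | rfl <;> constructor <;> intro h <;> omega)
      (fun ρ p => by unfold Sd; simp only [syZD]; rcases h1 with rfl | rfl <;> constructor <;> intro h <;> omega)
      ?_
    have hK' : CvxH (fun u => K ((syZD z).g' u)) z t2 N (3 * a) := by
      refine ⟨fun u hu h5 => ?_, fun u hu h5 => ?_⟩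
      · refine h.1 _ ((inR_sy hD).2 hu) ?_
        simpa [syZD] using h5
      · have := h.2 _ ((inR_sy hD).2 hu) h5
        simpa [syZD] using this
    rcases h1 with rfl | rfl
    · exact F2 _ _ (Nbh_sy hD hE) hK'
    · exact G2 _ _ (Nbh_sy hD hE) hK'
  · subst h2 h3 h4
    rcases h1 with rfl | rfl
    · exact G3 E K hE h
    · exact F3 E K hE (by simpa using h)
  · subst h2 h3 h4
    refine One_sy (S := syZD z) (s1' := t2) (t1' := -1) (s2' := t2) (t2' := 1) hD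
      (fun ρ p => by unfold Sd; simp only [syZD]; rcases h1 with rfl | rfl <;> constructor <;> intro h <;> omega)
      (fun ρ p => by unfold Sd; simp only [syZD]; rcases h1 with rfl | rfl <;> constructor <;> intro h <;> omega)
      ?_
    have hK' : CcvH (fun u => K ((syZD z).g' u)) z (-t2) N (3 * a) := by
      refine ⟨fun u hu h5 => ?_, fun u hu h5 => ?_⟩
      · refine h.1 _ ((inR_sy hD).2 hu) ?_
        simpa [syZD] using h5
      · have := h.2 _ ((inR_sy hD).2 hu) h5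
        simpa [syZD] using this
    rcases h1 with rfl | rfl
    · exact G3 _ _ (Nbh_sy hD hE) hK'
    · exact F3 _ _ (Nbh_sy hD hE) (by simpa using hK')

/-- **D4 (iii)**: power law for half circuits at every kind of wall point, all densities at least
one half -/
theorem half_circuit : ∃ C α : ℝ, 0 < C ∧ 0 < α ∧ ∀ q : ℤ × ℤ → ℝ, Qh q →
    ∀ (E : Finset (ℤ × ℤ)) (K : ℤ × ℤ → Prop) (z : ℤ × ℤ) (N ρ M s1 t1 s2 t2 : ℤ), 1 ≤ ρ →
    N ≤ ρ + 1 → ρ ≤ M → Nbh E K z M → Shape K z N M s1 t1 s2 t2 →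
    ∀ F : Finset (ℤ × ℤ), E ∩ An z ρ M ⊆ F →
    PrP q F (fun ω => ¬ HR E K (Sd z ρ s1 t1) (Sd z ρ s2 t2) z ρ M ω) ≤
      C * ((ρ : ℝ) / M) ^ α := by
  obtain ⟨c, hc, h1⟩ := shape_prob
  obtain ⟨C, α, hC, hα, h2⟩ := power_of hc
  refine ⟨C, α, hC, hα, fun q hq E K z N ρ M s1 t1 s2 t2 hρ hN hρM hE hK F hF => ?_⟩
  refine h2 q hq.pb E K (fun a => Sd z a s1 t1) (fun a => Sd z a s2 t2)
    (fun a a' p h h3 => h3.mono h) (fun a a' p h h3 => h3.mono h) z ρ M hρ hρM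
    (fun a ha haM => ?_) F hF
  exact h1 E K z N a s1 t1 s2 t2 (by omega) (by omega) (hE.mono haM) (hK.mono le_rfl haM) q hq

/-- natural weights, open half circuits -/
theorem half_circuit_open : ∃ C α : ℝ, 0 < C ∧ 0 < α ∧
    ∀ (E : Finset (ℤ × ℤ)) (K : ℤ × ℤ → Prop) (z : ℤ × ℤ) (N ρ M s1 t1 s2 t2 : ℤ), 1 ≤ ρ →
    N ≤ ρ + 1 → ρ ≤ M → Nbh E K z M → Shape K z N M s1 t1 s2 t2 →
    ∀ F : Finset (ℤ × ℤ), E ∩ An z ρ M ⊆ F →
    Pr F (fun ω => ¬ HR E K (Sd z ρ s1 t1) (Sd z ρ s2 t2) z ρ M ω) ≤ C * ((ρ : ℝ) / M) ^ α := by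
  obtain ⟨C, α, hC, hα, h⟩ := half_circuit
  refine ⟨C, α, hC, hα, fun E K z N ρ M s1 t1 s2 t2 hρ hN hρM hE hK F hF => ?_⟩
  rw [← PrP_half]
  exact h _ (fun _ => by norm_num) E K z N ρ M s1 t1 s2 t2 hρ hN hρM hE hK F hF

/-- natural weights, closed dual half circuits; `K` are the wall vertices of the dual room
`E.map sh1` -/
theorem half_circuit_dual : ∃ C α : ℝ, 0 < C ∧ 0 < α ∧
    ∀ (E : Finset (ℤ × ℤ)) (K : ℤ × ℤ → Prop) (z : ℤ × ℤ) (N ρ M s1 t1 s2 t2 : ℤ), 1 ≤ ρ →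
    N ≤ ρ + 1 → ρ ≤ M → Nbh (E.map sh1) K z M → Shape K z N M s1 t1 s2 t2 →
    ∀ F : Finset (ℤ × ℤ), E ⊆ F →
    Pr F (fun ω => ¬ HR (E.map sh1) K (Sd z ρ s1 t1) (Sd z ρ s2 t2) z ρ M (du F ω)) ≤
      C * ((ρ : ℝ) / M) ^ α := by
  obtain ⟨C, α, hC, hα, h⟩ := half_circuit_open
  refine ⟨C, α, hC, hα, fun E K z N ρ M s1 t1 s2 t2 hρ hN hρM hE hK F hF => ?_⟩
  rw [Pr_du F (fun ω => ¬ HR (E.map sh1) K (Sd z ρ s1 t1) (Sd z ρ s2 t2) z ρ M ω)]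
  exact h (E.map sh1) K z N ρ M s1 t1 s2 t2 hρ hN hρM hE hK (F.map sh1)
    (inter_subset_left.trans (map_subset_map.2 hF))

end Pool.Agent.H70.W
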