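import Mathlib
import Pool.Agent.H99.W.RoomSy
import Pool.Agent.H70.W.HalfRing

set_option autoImplicit false
open Finset

/-!
# The deterministic block at a wall, strand graph language

`SyC` : symmetries with their action on vertices, faces and corners. The room `E` opens to the right in the
coordinates of `Φ` (`RoomW`); `LayW` : the other tiles of the world near the wall (wall layers): natural and
of one colour on the upper side (`uw` : open) and of one colour on the lower side (`lw`) of `z`, arbitrary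
near `z`. `blk_prim` : an open half circuit of the room round `z` gives a set `I` of corners whose only exits
are the corner `bp` (if the upper side is closed) and the corner `bq` (if the lower side is closed).
-/

namespace Pool.Agent.H70.W

open Pool.Agent.H75.Perc Pool.Agent.H75.TwoArm Pool.Agent.H75.Four Pool.Agent.H60.Q1
open Pool.Agent.H99.NC (BR inR inR_iff)
open Pool.Agent.H13.W (TJ SG eW eE eS eN)
open Pool.Agent.H99.W (SyF FC VC TJ_prim TJ_dual ucol_stair_sy ucol_stair_dual_sy)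

/-- `c` is a side of the tile `e` -/
def IsSd (e c : ℤ × ℤ) : Prop := c = eW e ∨ c = eE e ∨ c = eS e ∨ c = eN e

/-- vertex and face of a corner -/
def Cor (v f : ℤ × ℤ) : Prop := (f.1 = v.1 ∨ f.1 = v.1 + 1) ∧ (f.2 = v.2 ∨ f.2 = v.2 + 1)

lemma cor_c (c : ℤ × ℤ) : Cor (vx c) (fi c) := by
  unfold Cor vx fi; simp only; omega

lemma corner_eq (c : ℤ × ℤ) : c = vx c + fi c := by
  unfold vx fi
  refine Prod.ext ?_ ?_ <;> simp only [Prod.fst_add, Prod.snd_add] <;> omega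

/-- symmetries which respect corners and boxes -/
structure SyC extends SyF where
  hc : ∀ v f, Cor v f → Cor (g v) (h f)
  hb : ∀ (z e : ℤ × ℤ) (B : ℤ), e ∈ BR z B ↔ G e ∈ BR (g z) B
  hh : ∀ f, ∃ f', h f' = f
  hu : ∀ f f', IsUnit4 (h f' - h f) → IsUnit4 (f' - f)

lemma mem_BR {z e : ℤ × ℤ} {B : ℤ} : e ∈ BR z B ↔
    (2 * (z.1 - B) ≤ e.1 ∧ e.1 ≤ 2 * (z.1 + B)) ∧ (2 * (z.2 - B) ≤ e.2 ∧ e.2 ≤ 2 * (z.2 + B)) ∧
      (e.1 + e.2) % 2 = 1 := mem_Bx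

/-- identity -/
def cId : SyC where
  toSyF := Pool.Agent.H99.W.syId
  hc v f h := by
    unfold Cor at *
    simp only [Pool.Agent.H99.W.syId, syT, Prod.fst_add, Prod.snd_add]
    omega
  hb z e B := by
    rw [mem_BR, mem_BR]
    simp [Pool.Agent.H99.W.syId, syT]
  hh f := ⟨f, rfl⟩
  hu _ _ h := h

/-- reflection `x ↦ - x` -/
def cX : SyC where
  toSyF := Pool.Agent.H99.W.syFX
  hc v f h := by
    unfold Cor at *
    simp only [Pool.Agent.H99.W.syFX, syX]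
    omega
  hb z e B := by
    have e1 : Pool.Agent.H99.W.syFX.G e = (2 * 0 - e.1, e.2) := rfl
    have e2 : Pool.Agent.H99.W.syFX.g z = (0 - z.1, z.2) := rfl
    rw [e1, e2, mem_BR, mem_BR]
    simp only
    omega
  hh f := ⟨(1 - f.1, f.2), by
    change ((1 - (1 - f.1), f.2) : ℤ × ℤ) = f
    exact Prod.ext (by simp only; ring) rfl⟩
  hu f f' h := by
    change IsUnit4 (((1 - f'.1, f'.2) : ℤ × ℤ) - (1 - f.1, f.2)) at h
    unfold IsUnit4 at *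
    simp only [Prod.ext_iff, Prod.fst_sub, Prod.snd_sub] at *
    omega

/-- transposition -/
def cD : SyC where
  toSyF := Pool.Agent.H99.W.syFD
  hc v f h := by
    unfold Cor at *
    simp only [Pool.Agent.H99.W.syFD, syD]
    omega
  hb z e B := by
    have e1 : Pool.Agent.H99.W.syFD.G e = (e.2, e.1) := rfl
    have e2 : Pool.Agent.H99.W.syFD.g z = (z.2, z.1) := rfl
    rw [e1, e2, mem_BR, mem_BR]
    simp only
    omega
  hh f := ⟨(f.2, f.1), rfl⟩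
  hu f f' h := by
    change IsUnit4 (((f'.2, f'.1) : ℤ × ℤ) - (f.2, f.1)) at h
    unfold IsUnit4 at *
    simp only [Prod.ext_iff, Prod.fst_sub, Prod.snd_sub] at *
    omega

/-- `(x, y) ↦ (-y, x)` -/
def cXD : SyC where
  toSyF := Pool.Agent.H99.W.syFX.comp Pool.Agent.H99.W.syFD
  hc _ _ h := cX.hc _ _ (cD.hc _ _ h)
  hb z e B := (cD.hb z e B).trans (cX.hb _ _ B)
  hh f := by
    obtain ⟨f1, h1⟩ := cX.hh f
    obtain ⟨f2, h2⟩ := cD.hh f1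
    exact ⟨f2, by rw [← h1, ← h2]; rfl⟩
  hu _ _ h := cD.hu _ _ (cX.hu _ _ h)

variable {Φ : SyC} {E Λ' w : Finset (ℤ × ℤ)} {Λ D : Set (ℤ × ℤ)} {z e e' c d v f : ℤ × ℤ}
  {ρ B N τ : ℤ}

/-- the two labels at a corner -/
lemma side_coord (ho : (e.1 + e.2) % 2 = 1) (hs : IsSd e c) :
    e = (2 * (fi c).1 - 1, 2 * (vx c).2) ∨ e = (2 * (vx c).1, 2 * (fi c).2 - 1) := by
  obtain ⟨x, y⟩ := e
  simp only at ho
  unfold IsSd eW eE eS eN at hs
  simp only at hs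
  rcases hs with rfl | rfl | rfl | rfl <;> unfold fi vx <;> simp only [Prod.mk.injEq] <;>
    rcases Int.emod_two_eq_zero_or_one x with h1 | h1 <;> omega

/-- the two labels at a corner, in the coordinates of `Φ` -/
lemma side_sy (Φ : SyC) (ho : (e.1 + e.2) % 2 = 1) (hs : IsSd e c) :
    Φ.G e = (2 * (Φ.h (fi c)).1 - 1, 2 * (Φ.g (vx c)).2) ∨
    Φ.G e = (2 * (Φ.g (vx c)).1, 2 * (Φ.h (fi c)).2 - 1) := by
  have h0 := side_coord ho hs
  have hcor := cor_c c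
  have h1 : IsUnit4 ((e - vx c) - vx c) := by
    unfold Cor at hcor
    unfold IsUnit4
    rcases h0 with h | h <;> rw [h] <;>
      simp only [Prod.ext_iff, Prod.fst_sub, Prod.snd_sub] <;> omega
  have h2 : IsUnit4 ((e + (1, 1) - fi c) - fi c) := by
    unfold Cor at hcor
    unfold IsUnit4
    rcases h0 with h | h <;> rw [h] <;>
      simp only [Prod.ext_iff, Prod.fst_sub, Prod.snd_sub, Prod.fst_add, Prod.snd_add] <;> omega
  have k1 := unit_cases ((Φ.unit _ _).1 h1)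
  have k2 := unit_cases (Φ.hunit _ _ h2)
  have a1 := Φ.add (vx c) (e - vx c)
  have a2 := Φ.hadd (fi c) (e + (1, 1) - fi c)
  rw [show vx c + (e - vx c) = e by abel] at a1
  rw [show fi c + (e + (1, 1) - fi c) - (1, 1) = e by abel] at a2
  have hcor2 := Φ.hc _ _ hcor
  unfold Cor at hcor2
  have b1 := congrArg Prod.fst a1
  have b2 := congrArg Prod.snd a1
  have b3 := congrArg Prod.fst a2
  have b4 := congrArg Prod.snd a2
  simp only [Prod.fst_add, Prod.snd_add, Prod.fst_sub, Prod.snd_sub] at b1 b2 b3 b4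
  simp only [Prod.ext_iff]
  omega

lemma h_inj (Φ : SyC) {f f' : ℤ × ℤ} (h : Φ.h f = Φ.h f') : f = f' := by
  have a1 := Φ.hadd f f
  have a2 := Φ.hadd f' f'
  rw [h, a2] at a1
  have := Φ.G.injective a1
  have b1 := congrArg Prod.fst this
  have b2 := congrArg Prod.snd this
  simp only [Prod.fst_add, Prod.snd_add, Prod.fst_sub, Prod.snd_sub] at b1 b2
  exact Prod.ext (by omega) (by omega)

lemma g_inj (Φ : SyC) {f f' : ℤ × ℤ} (h : Φ.g f = Φ.g f') : f = f' := by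
  rw [← Φ.g'g f, h, Φ.g'g]

lemma G_odd (Φ : SyC) : (e.1 + e.2) % 2 = 1 ↔ ((Φ.G e).1 + (Φ.G e).2) % 2 = 1 := by
  set B : ℤ := |e.1| + |e.2| + |(Φ.G e).1| + |(Φ.G e).2| + |(Φ.g (0, 0)).1| + |(Φ.g (0, 0)).2| with hB
  have h := Φ.hb (0, 0) e B
  rw [mem_BR, mem_BR] at h
  have a1 := abs_nonneg e.1
  have a2 := abs_nonneg e.2
  have a3 := abs_nonneg (Φ.G e).1
  have a4 := abs_nonneg (Φ.G e).2
  have a5 := abs_nonneg (Φ.g (0, 0)).1
  have a6 := abs_nonneg (Φ.g (0, 0)).2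
  have b1 := abs_le.1 (le_refl |e.1|)
  have b2 := abs_le.1 (le_refl |e.2|)
  have b3 := abs_le.1 (le_refl |(Φ.G e).1|)
  have b4 := abs_le.1 (le_refl |(Φ.G e).2|)
  have b5 := abs_le.1 (le_refl |(Φ.g (0, 0)).1|)
  have b6 := abs_le.1 (le_refl |(Φ.g (0, 0)).2|)
  simp only at h
  constructor
  · intro ho
    exact (h.1 ⟨by omega, by omega, ho⟩).2.2
  · intro ho
    exact (h.2 ⟨by omega, by omega, ho⟩).2.2

/-- the room, open to the right in the coordinates of `Φ`, in the box of radius `B` around `z` -/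
structure RoomW (Φ : SyC) (E : Finset (ℤ × ℤ)) (z : ℤ × ℤ) (B N : ℤ) : Prop where
  odd : ∀ l ∈ E, (l.1 + l.2) % 2 = 1
  cl : ∀ l ∈ E, ∀ l' ∈ BR z B, l ∈ BR z B → |(Φ.G l').2 - (Φ.G l).2| ≤ (Φ.G l').1 - (Φ.G l).1 →
    l' ∈ E
  rt : ∀ l ∈ E, l ∈ BR z B → -|(Φ.G l).2 - 2 * (Φ.g z).2| ≤ (Φ.G l).1 - 2 * (Φ.g z).1
  up : ∀ l ∈ BR z B, |(Φ.G l).2 - 2 * (Φ.g z).2| + 2 * N ≤ (Φ.G l).1 - 2 * (Φ.g z).1 → l ∈ E

/-- the other tiles of the world near the wall -/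
structure LayW (Φ : SyC) (E : Finset (ℤ × ℤ)) (Λ D : Set (ℤ × ℤ)) (w : Finset (ℤ × ℤ))
    (z : ℤ × ℤ) (ρ B τ : ℤ) (uw lw : Prop) : Prop where
  odd : ∀ e ∈ Λ, (e.1 + e.2) % 2 = 1
  inE : ∀ e ∈ Λ, e ∈ E → e ∈ BR z B → e ∉ BR z (ρ - 1) → e ∉ D
  lay : ∀ e ∈ Λ, e ∉ E → e ∈ BR z B →
    -|(Φ.G e).2 - 2 * (Φ.g z).2| - 2 * τ ≤ (Φ.G e).1 - 2 * (Φ.g z).1
  upc : ∀ e ∈ Λ, e ∉ E → e ∈ BR z B → 2 * ρ ≤ (Φ.G e).2 - 2 * (Φ.g z).2 → e ∉ D ∧ (e ∈ w ↔ uw)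
  loc : ∀ e ∈ Λ, e ∉ E → e ∈ BR z B → (Φ.G e).2 - 2 * (Φ.g z).2 ≤ -(2 * ρ) → e ∉ D ∧ (e ∈ w ↔ lw)

/-- no room label to the left of the vertex `v` -/
def KL (Φ : SyC) (E : Finset (ℤ × ℤ)) (z : ℤ × ℤ) (B : ℤ) (v : ℤ × ℤ) : Prop :=
  ∀ l ∈ E, l ∈ BR z B → Φ.G l ≠ (2 * (Φ.g v).1 - 1, 2 * (Φ.g v).2)

/-- a label with given coordinates -/
lemma exG (Φ : SyC) (x : ℤ × ℤ) : ∃ l, Φ.G l = x := ⟨Φ.G' x, Φ.GG' x⟩

/-- **the face colouring of a half circuit** -/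
lemma blk_S {A : Finset (ℤ × ℤ)} (R : RoomW Φ E z B N) {M : ℤ} (hB : M + 1 ≤ B)
    (hA : A ⊆ E ∩ BR z B) {p q : ℤ × ℤ} (hp : KL Φ E z B p) (hq : KL Φ E z B q)
    (hPQ : (Φ.g q).2 < (Φ.g p).2) (hpM : inR (Φ.g z) M (Φ.g p)) (hqM : inR (Φ.g z) M (Φ.g q))
    (hco : Co A p q) :
    ∃ S : ℤ × ℤ → ZMod 2,
      (∀ l ∈ E, l ∈ BR z B → l ∉ A → FC S l) ∧
      (∀ f : ℤ × ℤ, (Φ.g z).1 - B ≤ (Φ.h f).1 → (Φ.g z).2 - B ≤ (Φ.h f).2 →
        (∀ t : ℕ, ∀ l ∈ E, l ∈ BR z B → Φ.G l ≠ (2 * (Φ.h f).1 - 2 - 2 * (t : ℤ),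
          2 * (Φ.h f).2 - 1)) →
        S f = if (Φ.g q).2 < (Φ.h f).2 ∧ (Φ.h f).2 ≤ (Φ.g p).2 then 1 else 0) ∧
      (∀ f : ℤ × ℤ, ((Φ.g z).1 + B < (Φ.h f).1 ∨ (Φ.h f).2 ≤ (Φ.g z).2 - B ∨
        (Φ.g z).2 + B < (Φ.h f).2) → S f = 0) := by
  rw [inR_iff] at hpM hqM
  set E' := E ∩ BR z B with hE'
  have hray : ∀ p : ℤ × ℤ, KL Φ E z B p →
      ((Φ.g z).1 - M ≤ (Φ.g p).1 ∧ (Φ.g p).1 ≤ (Φ.g z).1 + M) ∧
        ((Φ.g z).2 - M ≤ (Φ.g p).2 ∧ (Φ.g p).2 ≤ (Φ.g z).2 + M) → ∀ t : ℕ, ∀ l ∈ E',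
      Φ.G l ≠ (2 * (Φ.g p).1 - 1 - 2 * (t : ℤ), 2 * (Φ.g p).2) := by
    intro p hp hpM t l hl he
    rw [hE', mem_inter] at hl
    obtain ⟨l', hl'⟩ := exG Φ (2 * (Φ.g p).1 - 1, 2 * (Φ.g p).2)
    have h1 := (Φ.hb z l B).1 hl.2
    rw [he, mem_BR] at h1
    simp only at h1
    have h2 : l' ∈ BR z B := by
      rw [Φ.hb, hl', mem_BR]
      simp only
      omega
    refine hp l' (R.cl l hl.1 l' h2 hl.2 ?_) h2 hl'
    rw [he, hl']
    simp only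
    rw [abs_le]
    omega
  obtain ⟨S, s1, s2, s3, s4⟩ := ucol_stair_sy Φ.toSyF (a := (Φ.g z).1 - 3 * B - 1)
    (b := (Φ.g z).1 + B) (c := (Φ.g z).2 - B) (d := (Φ.g z).2 + B)
    (k := (Φ.g z).1 + (Φ.g z).2 - 2 * B - 1) (E := E') (A := A) (p := p) (q := q)
    (by
      intro l hl
      rw [hE', mem_inter] at hl
      have h1 := (Φ.hb z l B).1 hl.2
      rw [mem_BR] at h1
      rw [mem_DX, mem_Bx]
      omega)
    hA (fun t _ => hray p hp hpM t) (fun t _ => hray q hq hqM t) (by omega) (by omega) hPQ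
    (by omega) (by omega) (by omega) (by omega) (by omega) (by omega) hco
  refine ⟨S, fun l h1 h2 h3 => s1 l (mem_inter.2 ⟨h1, h2⟩) h3, ?_, ?_⟩
  · intro f h1 h2 h3
    exact s2 f (by omega) fun t _ l hl => h3 t l (mem_inter.1 (hA hl)).1 (mem_inter.1 (hA hl)).2
  · intro f hf
    apply s4
    unfold Out
    omega

/-- the face of a wall corner has no room labels on its left -/
lemma wall_face (R : RoomW Φ E z B N) (h1 : e' ∉ E) (h2 : e' ∈ BR z B) (hs : IsSd e' c) :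
    ∀ t : ℕ, ∀ l ∈ E, l ∈ BR z B → Φ.G l ≠ (2 * (Φ.h (fi c)).1 - 2 - 2 * (t : ℤ),
      2 * (Φ.h (fi c)).2 - 1) := by
  intro t l hl hlB he
  apply h1
  refine R.cl l hl e' h2 hlB ?_
  have h3 := side_sy Φ (mem_BR.1 h2).2.2 hs
  have h4 := Φ.hc _ _ (cor_c c)
  unfold Cor at h4
  rw [he]
  rcases h3 with h3 | h3 <;> rw [h3] <;> simp only <;> rw [abs_le] <;> omega

/-- the wall corner at the height of a foot is at the foot -/
lemma foot {p r : ℤ × ℤ} {M : ℤ} (hB : M + 1 ≤ B) (R : RoomW Φ E z B N) (hp : KL Φ E z B p)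
    (hr : r ∈ E) (hrB : r ∈ BR z B) (hr1 : Φ.G r = (2 * (Φ.g p).1 + 1, 2 * (Φ.g p).2))
    (hpM : inR (Φ.g z) M (Φ.g p)) (he : e ∈ E) (heB : e ∈ BR z B) (hs : IsSd e c)
    (he' : e' ∉ E) (heB' : e' ∈ BR z B) (hs' : IsSd e' c)
    (hV : (Φ.g (vx c)).2 = (Φ.g p).2) : vx c = p := by
  rw [inR_iff] at hpM
  have h3 := side_sy Φ (mem_BR.1 heB).2.2 hs
  have h3' := side_sy Φ (mem_BR.1 heB').2.2 hs'
  have h4 := Φ.hc _ _ (cor_c c)
  unfold Cor at h4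
  rcases lt_trichotomy (Φ.g (vx c)).1 (Φ.g p).1 with h5 | h5 | h5
  · exfalso
    obtain ⟨l', hl'⟩ := exG Φ (2 * (Φ.g p).1 - 1, 2 * (Φ.g p).2)
    have h6 := mem_BR.1 ((Φ.hb z e B).1 heB)
    have h2 : l' ∈ BR z B := by
      rw [Φ.hb, hl', mem_BR]
      simp only
      rcases h3 with h3 | h3 <;> rw [h3] at h6 <;> simp only at h6 <;> omega
    refine hp l' (R.cl e he l' h2 heB ?_) h2 hl'
    rw [hl']
    rcases h3 with h3 | h3 <;> rw [h3] <;> simp only <;> rw [abs_le] <;> omega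
  · exact g_inj Φ (Prod.ext h5 hV)
  · exfalso
    refine he' (R.cl r hr e' heB' hrB ?_)
    rw [hr1]
    rcases h3' with h3' | h3' <;> rw [h3'] <;> simp only <;> rw [abs_le] <;> omega

/-- one wall corner above the foot -/
lemma foot_up (R : RoomW Φ E z B N) {p c1 c2 e1 e2 e1' e2' : ℤ × ℤ} (hp : KL Φ E z B p)
    (h1 : e1 ∈ E) (h1B : e1 ∈ BR z B) (s1 : IsSd e1 c1)
    (h1' : e1' ∉ E) (h1B' : e1' ∈ BR z B) (s1' : IsSd e1' c1)
    (h2 : e2 ∈ E) (h2B : e2 ∈ BR z B) (s2 : IsSd e2 c2)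
    (h2' : e2' ∉ E) (h2B' : e2' ∈ BR z B) (s2' : IsSd e2' c2)
    (v1 : vx c1 = p) (v2 : vx c2 = p) (f1 : (Φ.h (fi c1)).2 = (Φ.g p).2 + 1)
    (f2 : (Φ.h (fi c2)).2 = (Φ.g p).2 + 1) : c1 = c2 := by
  have k1 := side_sy Φ (mem_BR.1 h1B).2.2 s1
  have k1' := side_sy Φ (mem_BR.1 h1B').2.2 s1'
  have k2 := side_sy Φ (mem_BR.1 h2B).2.2 s2
  have k2' := side_sy Φ (mem_BR.1 h2B').2.2 s2'
  have q1 := Φ.hc _ _ (cor_c c1)
  have q2 := Φ.hc _ _ (cor_c c2)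
  unfold Cor at q1 q2
  have hp1 := hp e1 h1 h1B
  have hp2 := hp e2 h2 h2B
  rw [v1, f1] at k1 k1'
  rw [v2, f2] at k2 k2'
  rw [v1] at q1
  rw [v2] at q2
  have hx : (Φ.h (fi c1)).1 = (Φ.h (fi c2)).1 := by
    by_contra hne
    rcases q1.1 with q | q <;> rcases q2.1 with q' | q'
    · exact hne (q.trans q'.symm)
    · -- `c1` on the left, `c2` on the right
      rw [q] at k1
      have g1 : Φ.G e1 = (2 * (Φ.g p).1, 2 * ((Φ.g p).2 + 1) - 1) := by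
        rcases k1 with k1 | k1
        · exact absurd k1 hp1
        · exact k1
      rw [q'] at k2'
      refine h2' (R.cl e1 h1 e2' h2B' h1B ?_)
      rw [g1]
      rcases k2' with k2' | k2' <;> rw [k2'] <;> simp only <;> rw [abs_le] <;> omega
    · rw [q'] at k2
      have g1 : Φ.G e2 = (2 * (Φ.g p).1, 2 * ((Φ.g p).2 + 1) - 1) := by
        rcases k2 with k2 | k2
        · exact absurd k2 hp2
        · exact k2
      rw [q] at k1'
      refine h1' (R.cl e2 h2 e1' h1B' h2B ?_)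
      rw [g1]
      rcases k1' with k1' | k1' <;> rw [k1'] <;> simp only <;> rw [abs_le] <;> omega
    · exact hne (q.trans q'.symm)
  have hf : fi c1 = fi c2 := h_inj Φ (Prod.ext hx (f1.trans f2.symm))
  rw [corner_eq c1, corner_eq c2, v1, v2, hf]

/-- one wall corner below the foot -/
lemma foot_dn (R : RoomW Φ E z B N) {p c1 c2 e1 e2 e1' e2' : ℤ × ℤ} (hp : KL Φ E z B p)
    (h1 : e1 ∈ E) (h1B : e1 ∈ BR z B) (s1 : IsSd e1 c1)
    (h1' : e1' ∉ E) (h1B' : e1' ∈ BR z B) (s1' : IsSd e1' c1)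
    (h2 : e2 ∈ E) (h2B : e2 ∈ BR z B) (s2 : IsSd e2 c2)
    (h2' : e2' ∉ E) (h2B' : e2' ∈ BR z B) (s2' : IsSd e2' c2)
    (v1 : vx c1 = p) (v2 : vx c2 = p) (f1 : (Φ.h (fi c1)).2 = (Φ.g p).2)
    (f2 : (Φ.h (fi c2)).2 = (Φ.g p).2) : c1 = c2 := by
  have k1 := side_sy Φ (mem_BR.1 h1B).2.2 s1
  have k1' := side_sy Φ (mem_BR.1 h1B').2.2 s1'
  have k2 := side_sy Φ (mem_BR.1 h2B).2.2 s2
  have k2' := side_sy Φ (mem_BR.1 h2B').2.2 s2'
  have q1 := Φ.hc _ _ (cor_c c1)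
  have q2 := Φ.hc _ _ (cor_c c2)
  unfold Cor at q1 q2
  have hp1 := hp e1 h1 h1B
  have hp2 := hp e2 h2 h2B
  rw [v1, f1] at k1 k1'
  rw [v2, f2] at k2 k2'
  rw [v1] at q1
  rw [v2] at q2
  have hx : (Φ.h (fi c1)).1 = (Φ.h (fi c2)).1 := by
    by_contra hne
    rcases q1.1 with q | q <;> rcases q2.1 with q' | q'
    · exact hne (q.trans q'.symm)
    · rw [q] at k1
      have g1 : Φ.G e1 = (2 * (Φ.g p).1, 2 * (Φ.g p).2 - 1) := by
        rcases k1 with k1 | k1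
        · exact absurd k1 hp1
        · exact k1
      rw [q'] at k2'
      refine h2' (R.cl e1 h1 e2' h2B' h1B ?_)
      rw [g1]
      rcases k2' with k2' | k2' <;> rw [k2'] <;> simp only <;> rw [abs_le] <;> omega
    · rw [q'] at k2
      have g1 : Φ.G e2 = (2 * (Φ.g p).1, 2 * (Φ.g p).2 - 1) := by
        rcases k2 with k2 | k2
        · exact absurd k2 hp2
        · exact k2
      rw [q] at k1'
      refine h1' (R.cl e2 h2 e1' h1B' h2B ?_)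
      rw [g1]
      rcases k1' with k1' | k1' <;> rw [k1'] <;> simp only <;> rw [abs_le] <;> omega
    · exact hne (q.trans q'.symm)
  have hf : fi c1 = fi c2 := h_inj Φ (Prod.ext hx (f1.trans f2.symm))
  rw [corner_eq c1, corner_eq c2, v1, v2, hf]

/-- the faces of the inner box are enclosed -/
lemma inner_face (R : RoomW Φ E z B N) {M : ℤ} {A : Finset (ℤ × ℤ)} {S : ℤ × ℤ → ZMod 2} {P Q : ℤ}
    (hB : ρ + 1 ≤ B) (hA : ∀ l ∈ A, l ∈ An z ρ M)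
    (s1 : ∀ l ∈ E, l ∈ BR z B → l ∉ A → FC S l)
    (s2 : ∀ f : ℤ × ℤ, (Φ.g z).1 - B ≤ (Φ.h f).1 → (Φ.g z).2 - B ≤ (Φ.h f).2 →
        (∀ t : ℕ, ∀ l ∈ E, l ∈ BR z B → Φ.G l ≠ (2 * (Φ.h f).1 - 2 - 2 * (t : ℤ),
          2 * (Φ.h f).2 - 1)) →
        S f = if Q < (Φ.h f).2 ∧ (Φ.h f).2 ≤ P then 1 else 0)
    (hP : (Φ.g z).2 + ρ < P) (hQ : Q < (Φ.g z).2 - ρ) {f : ℤ × ℤ}
    (h1 : (Φ.g z).1 - B ≤ (Φ.h f).1) (h2 : (Φ.h f).1 ≤ (Φ.g z).1 + ρ)
    (h3 : (Φ.g z).2 - ρ + 1 ≤ (Φ.h f).2) (h4 : (Φ.h f).2 ≤ (Φ.g z).2 + ρ) : S f = 1 := by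
  have key : ∀ (n : ℕ) (f : ℤ × ℤ), (Φ.h f).1 = (Φ.g z).1 - B + n → (Φ.h f).1 ≤ (Φ.g z).1 + ρ →
      (Φ.g z).2 - ρ + 1 ≤ (Φ.h f).2 → (Φ.h f).2 ≤ (Φ.g z).2 + ρ → S f = 1 := by
    intro n
    induction n with
    | zero =>
      intro f h1 h2 h3 h4
      rw [s2 f (by omega) (by omega), if_pos (by omega)]
      intro t l _ hlB he
      have h5 := mem_BR.1 ((Φ.hb z l B).1 hlB)
      rw [he] at h5
      simp only at h5
      push_cast at h1
      omega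
    | succ n ih =>
      intro f h1 h2 h3 h4
      push_cast at h1
      obtain ⟨f', hf'⟩ := Φ.hh ((Φ.h f).1 - 1, (Φ.h f).2)
      have i1 := ih f' (by rw [hf']; simp only; omega) (by rw [hf']; simp only; omega)
        (by rw [hf']; exact h3) (by rw [hf']; exact h4)
      set l := f + f' - (1, 1) with hl
      have hGl : Φ.G l = (2 * (Φ.h f).1 - 2, 2 * (Φ.h f).2 - 1) := by
        rw [hl, ← Φ.hadd, hf']
        refine Prod.ext ?_ ?_ <;> simp only [Prod.fst_add, Prod.snd_add, Prod.fst_sub,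
          Prod.snd_sub] <;> ring
      have hlB : l ∈ BR z B := by
        rw [Φ.hb, hGl, mem_BR]
        simp only
        omega
      have hunit : IsUnit4 (f' - f) := by
        apply Φ.hu
        rw [hf']
        unfold IsUnit4
        simp only [Prod.ext_iff, Prod.fst_sub, Prod.snd_sub]
        omega
      by_cases hlE : l ∈ E
      · -- cross the label
        have hlA : l ∉ A := by
          intro h5
          have h6 := (mem_An.1 (hA l h5)).2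
          apply h6
          have h7 := R.rt l hlE hlB
          have h8 : l ∈ BR z ρ := by
            rw [Φ.hb, hGl, mem_BR]
            rw [hGl] at h7
            simp only at h7 ⊢
            rcases abs_cases (2 * (Φ.h f).2 - 1 - 2 * (Φ.g z).2) with h9 | h9 <;> omega
          exact mem_BR.1 h8
        rw [s1 l hlE hlB hlA f f' hunit rfl]
        exact i1
      · rw [s2 f (by omega) (by omega), if_pos (by omega)]
        intro t l1 hl1 hl1B he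
        apply hlE
        refine R.cl l1 hl1 l hlB hl1B ?_
        rw [he, hGl]
        simp only
        rw [abs_le]
        omega
  exact key ((Φ.h f).1 - ((Φ.g z).1 - B)).toNat f (by rw [Int.toNat_of_nonneg (by omega)]; ring)
    h2 h3 h4

lemma thr {u a b : Prop} (ha : a) (hb : b) : (u ∧ a) ∨ (¬ u ∧ b) := by
  by_cases h : u
  · exact Or.inl ⟨h, ha⟩
  · exact Or.inr ⟨h, hb⟩

/-- the step `u`, `v` crosses a tile `e` of the wall layer, at height `≥ ρ` above (`σ = 1`) resp. below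
(`σ = -1`) the point `z`, and `v` is a side of a room tile -/
def ExS (Φ : SyC) (E : Finset (ℤ × ℤ)) (Λ : Set (ℤ × ℤ)) (z : ℤ × ℤ) (ρ B σ : ℤ) (u v : ℤ × ℤ) : Prop :=
  ∃ e ∈ Λ, e ∉ E ∧ e ∈ BR z B ∧ 2 * ρ ≤ σ * ((Φ.G e).2 - 2 * (Φ.g z).2) ∧ IsSd e u ∧ IsSd e v ∧
    ∃ e0 ∈ E, e0 ∈ BR z B ∧ IsSd e0 v

/-- **the block event with its exits**: a set `I` of corners with at most the exits `bp` (above, if the upper
side of the wall is closed) and `bq` (below, if the lower side is closed) -/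
def BlkE (Φ : SyC) (E : Finset (ℤ × ℤ)) (Λ D : Set (ℤ × ℤ)) (w : Finset (ℤ × ℤ)) (z : ℤ × ℤ) (ρ B : ℤ)
    (uw lw : Prop) : Prop :=
  ∃ (I : Set (ℤ × ℤ)) (bp bq : ℤ × ℤ),
    (∀ u v, u ∈ I → v ∉ I → (SG Λ D w).Adj u v → (¬ uw ∧ v = bp ∧ ExS Φ E Λ z ρ B 1 u v) ∨
      (¬ lw ∧ v = bq ∧ ExS Φ E Λ z ρ B (-1) u v)) ∧
    (∀ e ∈ Λ, e ∈ BR z (ρ - 1) → ∀ c, IsSd e c → c ∈ I) ∧
    (∀ c ∈ I, ∃ e ∈ BR z B, IsSd e c)

open Classical in
/-- **The block of an open half circuit**, with information on the exits. -/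
theorem blk_primE (R : RoomW Φ E z B N) {uw lw : Prop} (Y : LayW Φ E Λ D w z ρ B τ uw lw) {M : ℤ}
    (hρ : 1 ≤ ρ) (hB1 : M + N + 2 ≤ B) (hB2 : M + τ + 2 ≤ B) (hN : 0 ≤ N)
    (hτ : 0 ≤ τ) {p q : ℤ × ℤ} (hp : KL Φ E z B p) (hq : KL Φ E z B q)
    (hP : (Φ.g z).2 + ρ < (Φ.g p).2) (hQ : (Φ.g q).2 < (Φ.g z).2 - ρ)
    (hco : Co (w ∩ (E ∩ An z ρ M)) p q) : BlkE Φ E Λ D w z ρ B uw lw := by
  set A := w ∩ (E ∩ An z ρ M) with hA
  set P := (Φ.g p).2 with hPdef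
  set Q := (Φ.g q).2 with hQdef
  have hAAn : ∀ l ∈ A, l ∈ An z ρ M := fun l hl => (mem_inter.1 (mem_inter.1 hl).2).2
  have hAE : A ⊆ E ∩ BR z B := by
    intro l hl
    refine mem_inter.2 ⟨(mem_inter.1 (mem_inter.1 hl).2).1, ?_⟩
    have h1 := (mem_An.1 (hAAn l hl)).1
    rw [mem_BR]
    omega
  -- the feet
  have foots : ∀ {p q : ℤ × ℤ}, (Φ.g p).2 ≠ (Φ.g q).2 → Co A p q →
      inR (Φ.g z) M (Φ.g p) ∧ ∃ r ∈ E, r ∈ BR z B ∧
        Φ.G r = (2 * (Φ.g p).1 + 1, 2 * (Φ.g p).2) := by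
    intro p q hne h
    rcases Relation.ReflTransGen.cases_head h with h1 | ⟨b, h1, -⟩
    · exact absurd (by rw [h1]) hne
    · have h2 := (Φ.unit _ _).1 h1.1
      have h3 := unit_cases h2
      have h4 := Φ.add p b
      have h5 := mem_inter.1 (hAE h1.2)
      have h6 : p + b ∈ BR z M := mem_BR.2 (mem_An.1 (hAAn _ h1.2)).1
      rw [Φ.hb, ← h4, mem_BR] at h6
      simp only [Prod.fst_add, Prod.snd_add] at h6
      have h7 : inR (Φ.g z) M (Φ.g p) := by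
        rw [inR_iff]
        omega
      refine ⟨h7, ?_⟩
      rw [inR_iff] at h7
      obtain ⟨r, hr⟩ := exG Φ (2 * (Φ.g p).1 + 1, 2 * (Φ.g p).2)
      have h8 : r ∈ BR z B := by
        rw [Φ.hb, hr, mem_BR]
        simp only
        omega
      refine ⟨r, R.cl _ h5.1 r h8 h5.2 ?_, h8, hr⟩
      rw [hr, ← h4]
      simp only [Prod.fst_add, Prod.snd_add]
      rw [abs_le]
      omega
  obtain ⟨hpM, rp, hrp, hrpB, hrp1⟩ := foots (by omega) hco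
  obtain ⟨hqM, rq, hrq, hrqB, hrq1⟩ := foots (by omega) hco.symm
  obtain ⟨S, s1, s2, s3⟩ := blk_S R (M := M) (by omega) hAE hp hq (by omega) hpM hqM hco
  rw [inR_iff] at hpM hqM
  -- the sets of corners
  set VE : Set (ℤ × ℤ) := {c | ∃ e ∈ E, e ∈ BR z B ∧ IsSd e c} with hVE
  set VL : Set (ℤ × ℤ) := {c | ∃ e ∈ Λ, e ∉ E ∧ e ∈ BR z B ∧ IsSd e c} with hVL
  set T : ℤ × ℤ → Prop := fun c =>
    ((uw ∧ (Φ.h (fi c)).2 ≤ P) ∨ (¬ uw ∧ (Φ.g (vx c)).2 ≤ P)) ∧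
    ((lw ∧ Q < (Φ.h (fi c)).2) ∨ (¬ lw ∧ Q ≤ (Φ.g (vx c)).2)) with hT
  set I : Set (ℤ × ℤ) := {c | (c ∈ VE ∧ S (fi c) = 1) ∨ (c ∉ VE ∧ c ∈ VL ∧ T c)} with hI
  have hcor : ∀ c, Cor (Φ.g (vx c)) (Φ.h (fi c)) := fun c => Φ.hc _ _ (cor_c c)
  -- coordinates of a side
  have hco1 : ∀ {e c : ℤ × ℤ}, (e.1 + e.2) % 2 = 1 → IsSd e c →
      (2 * (Φ.h (fi c)).2 - 2 ≤ (Φ.G e).2 ∧ (Φ.G e).2 ≤ 2 * (Φ.h (fi c)).2) ∧
      (2 * (Φ.g (vx c)).2 - 1 ≤ (Φ.G e).2 ∧ (Φ.G e).2 ≤ 2 * (Φ.g (vx c)).2 + 1) ∧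
      (2 * (Φ.h (fi c)).1 - 2 ≤ (Φ.G e).1 ∧ (Φ.G e).1 ≤ 2 * (Φ.h (fi c)).1) := by
    intro e c ho hs
    have h1 := side_sy Φ ho hs
    have h2 := hcor c
    unfold Cor at h2
    rcases h1 with h1 | h1 <;> rw [h1] <;> simp only <;> omega
  -- wall corners
  have wall : ∀ {e e' c : ℤ × ℤ}, e ∈ E → e ∈ BR z B → IsSd e c → e' ∉ E → e' ∈ BR z B →
      IsSd e' c → (S (fi c) = 1 ↔ Q < (Φ.h (fi c)).2 ∧ (Φ.h (fi c)).2 ≤ P) := by
    intro e e' c h1 h2 h3 h4 h5 h6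
    have h7 := hco1 (mem_BR.1 h2).2.2 h3
    have h8 := mem_BR.1 ((Φ.hb z e B).1 h2)
    rw [s2 (fi c) (by omega) (by omega) (wall_face R h4 h5 h6)]
    split_ifs with h9
    · exact iff_of_true rfl h9
    · exact iff_of_false (by decide) h9
  -- membership for the sides of a layer tile
  have memL : ∀ {e c : ℤ × ℤ}, e ∈ Λ → e ∉ E → e ∈ BR z B → IsSd e c →
      (c ∈ I ↔ (c ∈ VE ∧ (Q < (Φ.h (fi c)).2 ∧ (Φ.h (fi c)).2 ≤ P)) ∨ (c ∉ VE ∧ T c)) := by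
    intro e c h1 h2 h3 h4
    rw [hI]
    constructor
    · rintro (⟨h5, h6⟩ | ⟨h5, -, h6⟩)
      · obtain ⟨e0, g1, g2, g3⟩ := h5
        exact Or.inl ⟨⟨e0, g1, g2, g3⟩, (wall g1 g2 g3 h2 h3 h4).1 h6⟩
      · exact Or.inr ⟨h5, h6⟩
    · rintro (⟨h5, h6⟩ | ⟨h5, h6⟩)
      · obtain ⟨e0, g1, g2, g3⟩ := h5
        exact Or.inl ⟨⟨e0, g1, g2, g3⟩, (wall g1 g2 g3 h2 h3 h4).2 h6⟩
      · exact Or.inr ⟨h5, ⟨e, h1, h2, h3, h4⟩, h6⟩
  -- far tiles
  have far : ∀ {e c : ℤ × ℤ}, e ∈ Λ → e ∉ BR z B → IsSd e c → c ∉ I := by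
    intro e c h1 h2 h3 hc
    have ho := Y.odd e h1
    have h4 := hco1 ho h3
    have h5 : ¬ Φ.G e ∈ BR (Φ.g z) B := fun h => h2 ((Φ.hb z e B).2 h)
    have ho' := (G_odd Φ).1 ho
    rw [mem_BR] at h5
    rcases hc with ⟨⟨e0, g1, g2, g3⟩, g4⟩ | ⟨g0, ⟨e1, g1, g2, g3, g5⟩, g4⟩
    · have k1 := hco1 (mem_BR.1 g2).2.2 g3
      have k2 := mem_BR.1 ((Φ.hb z e0 B).1 g2)
      have hlow : (Φ.G e).1 < 2 * ((Φ.g z).1 - B) ∨ ((Φ.g z).1 + B < (Φ.h (fi c)).1 ∨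
          (Φ.h (fi c)).2 ≤ (Φ.g z).2 - B ∨ (Φ.g z).2 + B < (Φ.h (fi c)).2) := by
        omega
      rcases hlow with h6 | h6
      · -- on the left
        have h7 : ∀ t : ℕ, ∀ l ∈ E, l ∈ BR z B → Φ.G l ≠ (2 * (Φ.h (fi c)).1 - 2 - 2 * (t : ℤ),
            2 * (Φ.h (fi c)).2 - 1) := by
          intro t l _ hlB he
          have h8 := mem_BR.1 ((Φ.hb z l B).1 hlB)
          rw [he] at h8
          simp only at h8
          omega
        rw [s2 (fi c) (by omega) (by omega) h7] at g4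
        have h9 := R.rt e0 g1 g2
        split_ifs at g4 with h10
        · rcases abs_cases ((Φ.G e0).2 - 2 * (Φ.g z).2) with h11 | h11 <;> omega
        · exact absurd g4 (by decide)
      · rw [s3 (fi c) h6] at g4
        exact absurd g4 (by decide)
    · have k1 := hco1 (mem_BR.1 g3).2.2 g5
      have k2 := mem_BR.1 ((Φ.hb z e1 B).1 g3)
      have k3 := hcor c
      unfold Cor at k3
      have k4 : Q ≤ (Φ.h (fi c)).2 ∧ (Φ.h (fi c)).2 ≤ P + 1 := by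
        obtain ⟨t1, t2⟩ := g4
        omega
      have hlr : (Φ.G e).1 < 2 * ((Φ.g z).1 - B) ∨ 2 * ((Φ.g z).1 + B) < (Φ.G e).1 := by
        omega
      have k5 := Y.lay e1 g1 g2 g3
      have k6 : ¬ (|(Φ.G e1).2 - 2 * (Φ.g z).2| + 2 * N ≤ (Φ.G e1).1 - 2 * (Φ.g z).1) :=
        fun h => g2 (R.up e1 g3 h)
      have c1 := side_sy Φ ho h3
      have c2 := side_sy Φ (mem_BR.1 g3).2.2 g5
      have k7 : (Φ.G e).1 - 1 ≤ (Φ.G e1).1 ∧ (Φ.G e1).1 ≤ (Φ.G e).1 + 1 := by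
        rcases c1 with c1 | c1 <;> rcases c2 with c2 | c2 <;> rw [c1, c2] <;> simp only <;> omega
      rcases abs_cases ((Φ.G e1).2 - 2 * (Φ.g z).2) with h11 | h11 <;> omega
  -- the inner box
  have inn : ∀ {e c : ℤ × ℤ}, e ∈ Λ → e ∈ BR z (ρ - 1) → IsSd e c → c ∈ I := by
    intro e c h1 h2 h3
    have ho := Y.odd e h1
    have h4 := hco1 ho h3
    have h5 := mem_BR.1 ((Φ.hb z e (ρ - 1)).1 h2)
    by_cases h6 : c ∈ VE
    · refine Or.inl ⟨h6, ?_⟩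
      exact inner_face R (by omega) hAAn s1 s2 hP hQ (by omega) (by omega) (by omega) (by omega)
    · have h2B : e ∈ BR z B := by
        have := mem_BR.1 h2
        rw [mem_BR]
        omega
      refine Or.inr ⟨h6, ⟨e, h1, fun h7 => h6 ⟨e, h7, h2B, h3⟩, h2B, h3⟩, ?_⟩
      have a1 : (Φ.h (fi c)).2 ≤ P := by omega
      have a2 : (Φ.g (vx c)).2 ≤ P := by omega
      have a3 : Q < (Φ.h (fi c)).2 := by omega
      have a4 : Q ≤ (Φ.g (vx c)).2 := by omega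
      exact ⟨thr a1 a2, thr a3 a4⟩
  -- the exits
  set bp : ℤ × ℤ := if h : ∃ c, (∃ e ∈ E, e ∈ BR z B ∧ IsSd e c) ∧
    (∃ e, e ∉ E ∧ e ∈ BR z B ∧ IsSd e c) ∧ vx c = p ∧ (Φ.h (fi c)).2 = P + 1 then h.choose else p
    with hbp
  set bq : ℤ × ℤ := if h : ∃ c, (∃ e ∈ E, e ∈ BR z B ∧ IsSd e c) ∧
    (∃ e, e ∉ E ∧ e ∈ BR z B ∧ IsSd e c) ∧ vx c = q ∧ (Φ.h (fi c)).2 = Q then h.choose else q
    with hbq
  have hbp' : ∀ c, (∃ e ∈ E, e ∈ BR z B ∧ IsSd e c) → (∃ e, e ∉ E ∧ e ∈ BR z B ∧ IsSd e c) →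
      (Φ.g (vx c)).2 = P → (Φ.h (fi c)).2 = P + 1 → c = bp := by
    rintro c ⟨e1, a1, a2, a3⟩ ⟨e2, b1, b2, b3⟩ h1 h2
    have hv := foot (M := M) (by omega) R hp hrp hrpB hrp1 (inR_iff.2 hpM) a1 a2 a3 b1 b2 b3 h1
    have hex : ∃ c, (∃ e ∈ E, e ∈ BR z B ∧ IsSd e c) ∧
        (∃ e, e ∉ E ∧ e ∈ BR z B ∧ IsSd e c) ∧ vx c = p ∧ (Φ.h (fi c)).2 = P + 1 :=
      ⟨c, ⟨e1, a1, a2, a3⟩, ⟨e2, b1, b2, b3⟩, hv, h2⟩
    rw [hbp, dif_pos hex]
    obtain ⟨⟨e3, a4, a5, a6⟩, ⟨e4, b4, b5, b6⟩, h3, h4⟩ := hex.choose_spec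
    exact foot_up R hp a1 a2 a3 b1 b2 b3 a4 a5 a6 b4 b5 b6 hv h3 h2 h4
  have hbq' : ∀ c, (∃ e ∈ E, e ∈ BR z B ∧ IsSd e c) → (∃ e, e ∉ E ∧ e ∈ BR z B ∧ IsSd e c) →
      (Φ.g (vx c)).2 = Q → (Φ.h (fi c)).2 = Q → c = bq := by
    rintro c ⟨e1, a1, a2, a3⟩ ⟨e2, b1, b2, b3⟩ h1 h2
    have hv := foot (M := M) (by omega) R hq hrq hrqB hrq1 (inR_iff.2 hqM) a1 a2 a3 b1 b2 b3 h1
    have hex : ∃ c, (∃ e ∈ E, e ∈ BR z B ∧ IsSd e c) ∧
        (∃ e, e ∉ E ∧ e ∈ BR z B ∧ IsSd e c) ∧ vx c = q ∧ (Φ.h (fi c)).2 = Q :=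
      ⟨c, ⟨e1, a1, a2, a3⟩, ⟨e2, b1, b2, b3⟩, hv, h2⟩
    rw [hbq, dif_pos hex]
    obtain ⟨⟨e3, a4, a5, a6⟩, ⟨e4, b4, b5, b6⟩, h3, h4⟩ := hex.choose_spec
    exact foot_dn R hq a1 a2 a3 b1 b2 b3 a4 a5 a6 b4 b5 b6 hv h3 h2 h4
  refine ⟨I, bp, bq, ?_, fun e h1 h2 c h3 => inn h1 h2 h3, ?_⟩
  · rintro u v hu hv ⟨e, heΛ, hTJ⟩
    have hTJ' : TJ D w e u v := hTJ
    have hsu : IsSd e u := Pool.Agent.H13.W.side_cases u hTJ'.label
    have hsv : IsSd e v := Pool.Agent.H13.W.side_cases v hTJ'.label'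
    by_cases heB : e ∈ BR z B
    swap
    · exact absurd hu (far heΛ heB hsu)
    by_cases hei : e ∈ BR z (ρ - 1)
    · exact absurd (inn heΛ hei hsv) hv
    by_cases heE : e ∈ E
    · -- room tile
      exfalso
      have huV : u ∈ VE := ⟨e, heE, heB, hsu⟩
      have hvV : v ∈ VE := ⟨e, heE, heB, hsv⟩
      have h1 : S (fi u) = 1 := by
        rcases hu with h | h
        · exact h.2
        · exact absurd huV h.1
      have h2 : S (fi u) = S (fi v) := by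
        refine TJ_prim (Y.inE e heΛ heE heB hei) (fun h => s1 e heE heB fun h3 => ?_) hTJ
        exact h (mem_inter.1 h3).1
      exact hv (Or.inl ⟨hvV, by rw [← h2]; exact h1⟩)
    · -- layer tile
      rw [memL heΛ heE heB hsu] at hu
      rw [memL heΛ heE heB hsv] at hv
      have ho := Y.odd e heΛ
      have cu := hco1 ho hsu
      have cv := hco1 ho hsv
      have ku := hcor u
      have kv := hcor v
      unfold Cor at ku kv
      rcases lt_or_ge ((Φ.G e).2 - 2 * (Φ.g z).2) (2 * ρ) with h1 | h1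
      · rcases lt_or_ge (-(2 * ρ)) ((Φ.G e).2 - 2 * (Φ.g z).2) with h2 | h2
        · -- middle
          exfalso
          apply hv
          have a1 : (Φ.h (fi v)).2 ≤ P := by omega
          have a2 : (Φ.g (vx v)).2 ≤ P := by omega
          have a3 : Q < (Φ.h (fi v)).2 := by omega
          have a4 : Q ≤ (Φ.g (vx v)).2 := by omega
          by_cases h3 : v ∈ VE
          · exact Or.inl ⟨h3, a3, a1⟩
          · refine Or.inr ⟨h3, ?_⟩
            exact ⟨thr a1 a2, thr a3 a4⟩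
        · -- lower side
          obtain ⟨hD, hcol⟩ := Y.loc e heΛ heE heB h2
          have a1 : (Φ.h (fi v)).2 ≤ P := by omega
          have a2 : (Φ.g (vx v)).2 ≤ P := by omega
          by_cases hl : lw
          · exfalso
            have hew := hcol.2 hl
            have hf : fi u = fi v := by
              rcases hTJ with ⟨h, -⟩ | ⟨-, ⟨g1, g2⟩ | ⟨g1, g2⟩⟩
              · exact absurd h hD
              · rw [← g2]; unfold nx; rw [g1, if_pos hew, StrandAux.fi_nxO]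
              · rw [← g2]; unfold nx; rw [g1, if_pos hew, StrandAux.fi_nxO]
            have hfu : Q < (Φ.h (fi u)).2 := by
              rcases hu with ⟨-, h⟩ | ⟨-, h⟩
              · exact h.1
              · exact (h.2.resolve_right fun h => h.1 hl).2
            rw [hf] at hfu
            apply hv
            by_cases h3 : v ∈ VE
            · exact Or.inl ⟨h3, hfu, a1⟩
            · refine Or.inr ⟨h3, ?_⟩
              exact ⟨thr a1 a2, Or.inl ⟨hl, hfu⟩⟩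
          · right
            refine ⟨hl, ?_⟩
            have hew : e ∉ w := fun h => hl (hcol.1 h)
            have hf : vx u = vx v := by
              rcases hTJ with ⟨h, -⟩ | ⟨-, ⟨g1, g2⟩ | ⟨g1, g2⟩⟩
              · exact absurd h hD
              · rw [← g2]; unfold nx; rw [g1, if_neg hew, StrandAux.vx_nxC]
              · rw [← g2]; unfold nx; rw [g1, if_neg hew, StrandAux.vx_nxC]
            have hfu : Q ≤ (Φ.g (vx u)).2 := by
              rcases hu with ⟨-, h⟩ | ⟨-, h⟩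
              · omega
              · exact (h.2.resolve_left fun h => hl h.1).2
            rw [hf] at hfu
            by_cases h3 : v ∈ VE
            · have h4 : ¬ (Q < (Φ.h (fi v)).2) := fun h4 => hv (Or.inl ⟨h3, h4, a1⟩)
              exact ⟨hbq' v h3 ⟨e, heE, heB, hsv⟩ (by omega) (by omega), e, heΛ, heE, heB,
                by omega, hsu, hsv, h3⟩
            · exfalso
              apply hv
              refine Or.inr ⟨h3, ?_⟩
              exact ⟨thr a1 a2, Or.inr ⟨hl, hfu⟩⟩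
      · -- upper side
        obtain ⟨hD, hcol⟩ := Y.upc e heΛ heE heB h1
        have a1 : Q < (Φ.h (fi v)).2 := by omega
        have a2 : Q ≤ (Φ.g (vx v)).2 := by omega
        by_cases hl : uw
        · exfalso
          have hew := hcol.2 hl
          have hf : fi u = fi v := by
            rcases hTJ with ⟨h, -⟩ | ⟨-, ⟨g1, g2⟩ | ⟨g1, g2⟩⟩
            · exact absurd h hD
            · rw [← g2]; unfold nx; rw [g1, if_pos hew, StrandAux.fi_nxO]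
            · rw [← g2]; unfold nx; rw [g1, if_pos hew, StrandAux.fi_nxO]
          have hfu : (Φ.h (fi u)).2 ≤ P := by
            rcases hu with ⟨-, h⟩ | ⟨-, h⟩
            · exact h.2
            · exact (h.1.resolve_right fun h => h.1 hl).2
          rw [hf] at hfu
          apply hv
          by_cases h3 : v ∈ VE
          · exact Or.inl ⟨h3, a1, hfu⟩
          · refine Or.inr ⟨h3, ?_⟩
            exact ⟨Or.inl ⟨hl, hfu⟩, thr a1 a2⟩
        · left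
          refine ⟨hl, ?_⟩
          have hew : e ∉ w := fun h => hl (hcol.1 h)
          have hf : vx u = vx v := by
            rcases hTJ with ⟨h, -⟩ | ⟨-, ⟨g1, g2⟩ | ⟨g1, g2⟩⟩
            · exact absurd h hD
            · rw [← g2]; unfold nx; rw [g1, if_neg hew, StrandAux.vx_nxC]
            · rw [← g2]; unfold nx; rw [g1, if_neg hew, StrandAux.vx_nxC]
          have hfu : (Φ.g (vx u)).2 ≤ P := by
            rcases hu with ⟨-, h⟩ | ⟨-, h⟩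
            · omega
            · exact (h.1.resolve_left fun h => hl h.1).2
          rw [hf] at hfu
          by_cases h3 : v ∈ VE
          · have h4 : ¬ ((Φ.h (fi v)).2 ≤ P) := fun h4 => hv (Or.inl ⟨h3, a1, h4⟩)
            exact ⟨hbp' v h3 ⟨e, heE, heB, hsv⟩ (by omega) (by omega), e, heΛ, heE, heB,
              by omega, hsu, hsv, h3⟩
          · exfalso
            apply hv
            refine Or.inr ⟨h3, ?_⟩
            exact ⟨Or.inr ⟨hl, hfu⟩, thr a1 a2⟩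
  · rintro c (⟨⟨e, -, h2, h3⟩, -⟩ | ⟨-, ⟨e, -, -, h2, h3⟩, -⟩)
    · exact ⟨e, h2, h3⟩
    · exact ⟨e, h2, h3⟩

/-- **The block of an open half circuit.** -/
theorem blk_prim (R : RoomW Φ E z B N) {uw lw : Prop} (Y : LayW Φ E Λ D w z ρ B τ uw lw) {M : ℤ}
    (hρ : 1 ≤ ρ) (hB1 : M + N + 2 ≤ B) (hB2 : M + τ + 2 ≤ B) (hN : 0 ≤ N)
    (hτ : 0 ≤ τ) {p q : ℤ × ℤ} (hp : KL Φ E z B p) (hq : KL Φ E z B q)
    (hP : (Φ.g z).2 + ρ < (Φ.g p).2) (hQ : (Φ.g q).2 < (Φ.g z).2 - ρ)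
    (hco : Co (w ∩ (E ∩ An z ρ M)) p q) :
    ∃ (I : Set (ℤ × ℤ)) (bp bq : ℤ × ℤ),
      (∀ u v, u ∈ I → v ∉ I → (SG Λ D w).Adj u v → (¬ uw ∧ v = bp) ∨ (¬ lw ∧ v = bq)) ∧
      (∀ e ∈ Λ, e ∈ BR z (ρ - 1) → ∀ c, IsSd e c → c ∈ I) ∧
      (∀ c ∈ I, ∃ e ∈ BR z B, IsSd e c) := by
  obtain ⟨I, bp, bq, h1, h2, h3⟩ := blk_primE R Y hρ hB1 hB2 hN hτ hp hq hP hQ hco
  refine ⟨I, bp, bq, fun u v hu hv ha => ?_, h2, h3⟩
  rcases h1 u v hu hv ha with ⟨a, b, -⟩ | ⟨a, b, -⟩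
  · exact Or.inl ⟨a, b⟩
  · exact Or.inr ⟨a, b⟩

/-! ### Probability of the block -/

/-- **the block event**: a set `I` of corners with at most the exits `bp`, `bq` -/
def Blk (Λ D : Set (ℤ × ℤ)) (w : Finset (ℤ × ℤ)) (z : ℤ × ℤ) (ρ B : ℤ) (uw lw : Prop) : Prop :=
  ∃ (I : Set (ℤ × ℤ)) (bp bq : ℤ × ℤ),
    (∀ u v, u ∈ I → v ∉ I → (SG Λ D w).Adj u v → (¬ uw ∧ v = bp) ∨ (¬ lw ∧ v = bq)) ∧
    (∀ e ∈ Λ, e ∈ BR z (ρ - 1) → ∀ c, IsSd e c → c ∈ I) ∧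
    (∀ c ∈ I, ∃ e ∈ BR z B, IsSd e c)

lemma RoomW.nbh (R : RoomW Φ E z B N) {M : ℤ} (hM : M ≤ B) : Nbh E (KL Φ E z B) z M := by
  intro u v h1 h2 h3 h4
  unfold KL at h2
  push Not at h2
  obtain ⟨l, hl, hlB, he⟩ := h2
  have h5 : u + v ∈ BR z B := by
    have h6 := add_mem_Bx h1 h3 h4
    rw [mem_Bx] at h6
    rw [mem_BR]
    omega
  refine R.cl l hl _ h5 hlB ?_
  have h7 := unit_cases ((Φ.unit _ _).1 h1)
  rw [he, ← Φ.add]
  simp only [Prod.fst_add, Prod.snd_add]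
  rw [abs_le]
  omega

/-- flat walls: inner normal `(s, t)` -/
structure FlatRm (E : Finset (ℤ × ℤ)) (z : ℤ × ℤ) (s t B N : ℤ) : Prop where
  odd : ∀ l ∈ E, (l.1 + l.2) % 2 = 1
  lo : ∀ l ∈ E, l ∈ BR z B → 1 ≤ s * (l.1 - 2 * z.1) + t * (l.2 - 2 * z.2)
  up : ∀ l ∈ BR z B, 2 * N + 1 ≤ s * (l.1 - 2 * z.1) + t * (l.2 - 2 * z.2) → l ∈ E
  cl : ∀ l ∈ E, ∀ l' ∈ BR z B, l ∈ BR z B → |l'.2 - l.2| ≤ s * (l'.1 - l.1) → l' ∈ E

/-- the chart of a horizontal orientation -/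
def chH (s : ℤ) : SyC := if s = 1 then cId else cX

lemma chH_g {s : ℤ} (hs : s = 1 ∨ s = -1) (v : ℤ × ℤ) :
    ((chH s).g v).1 = s * v.1 ∧ ((chH s).g v).2 = v.2 := by
  rcases hs with rfl | rfl
  · have h1 : chH 1 = cId := if_pos rfl
    rw [h1]
    have h2 : cId.g v = v + (0, 0) := rfl
    rw [h2]
    simp
  · have h1 : chH (-1) = cX := if_neg (by norm_num)
    rw [h1]
    have h2 : cX.g v = (0 - v.1, v.2) := rfl
    rw [h2]
    simp

lemma chH_G {s : ℤ} (hs : s = 1 ∨ s = -1) (e : ℤ × ℤ) :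
    ((chH s).G e).1 = s * e.1 ∧ ((chH s).G e).2 = e.2 := by
  rcases hs with rfl | rfl
  · have h1 : chH 1 = cId := if_pos rfl
    rw [h1]
    have h2 : cId.G e = (e.1 + 2 * 0, e.2 + 2 * 0) := rfl
    rw [h2]
    simp
  · have h1 : chH (-1) = cX := if_neg (by norm_num)
    rw [h1]
    have h2 : cX.G e = (2 * 0 - e.1, e.2) := rfl
    rw [h2]
    simp

/-- the chart of a vertical orientation -/
def chV (s : ℤ) : SyC := if s = 1 then cD else cXD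

lemma chV_g {s : ℤ} (hs : s = 1 ∨ s = -1) (v : ℤ × ℤ) :
    ((chV s).g v).1 = s * v.2 ∧ ((chV s).g v).2 = v.1 := by
  rcases hs with rfl | rfl
  · have h1 : chV 1 = cD := if_pos rfl
    rw [h1]
    have h2 : cD.g v = (v.2, v.1) := rfl
    rw [h2]
    simp
  · have h1 : chV (-1) = cXD := if_neg (by norm_num)
    rw [h1]
    have h2 : cXD.g v = (0 - v.2, v.1) := rfl
    rw [h2]
    simp

lemma chV_G {s : ℤ} (hs : s = 1 ∨ s = -1) (e : ℤ × ℤ) :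
    ((chV s).G e).1 = s * e.2 ∧ ((chV s).G e).2 = e.1 := by
  rcases hs with rfl | rfl
  · have h1 : chV 1 = cD := if_pos rfl
    rw [h1]
    have h2 : cD.G e = (e.2, e.1) := rfl
    rw [h2]
    simp
  · have h1 : chV (-1) = cXD := if_neg (by norm_num)
    rw [h1]
    have h2 : cXD.G e = (2 * 0 - e.2, e.1) := rfl
    rw [h2]
    simp

lemma FlatRm.roomW {s t : ℤ} (hs : s = 1 ∨ s = -1) (ht : t = 1 ∨ t = -1)
    (F : FlatRm E z s t B N) : RoomW (chH s) E z B (N + 1) := by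
  refine ⟨F.odd, fun l h1 l' h2 h3 h4 => F.cl l h1 l' h2 h3 ?_, fun l h1 h2 => ?_,
    fun l h1 h2 => F.up l h1 ?_⟩
  · rw [(chH_G hs l).1, (chH_G hs l).2, (chH_G hs l').1, (chH_G hs l').2] at h4
    rw [mul_sub]
    exact h4
  · have h3 := F.lo l h1 h2
    rw [(chH_G hs l).1, (chH_G hs l).2, (chH_g hs z).1, (chH_g hs z).2]
    rcases hs with rfl | rfl <;> rcases ht with rfl | rfl <;>
      rcases abs_cases (l.2 - 2 * z.2) with h5 | h5 <;> omega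
  · rw [(chH_G hs l).1, (chH_G hs l).2, (chH_g hs z).1, (chH_g hs z).2] at h2
    rcases hs with rfl | rfl <;> rcases ht with rfl | rfl <;>
      rcases abs_cases (l.2 - 2 * z.2) with h5 | h5 <;> omega

lemma FlatRm.shape {s t : ℤ} (hs : s = 1 ∨ s = -1) (ht : t = 1 ∨ t = -1)
    (F : FlatRm E z s t B N) {M : ℤ} (hM : M + 1 ≤ B) :
    Shape (KL (chH s) E z B) z N M (-s) t s (-t) := by
  refine Or.inl ⟨hs, ht, rfl, rfl, fun u hu h => ?_, fun u hu hK => ?_⟩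
  · intro l h1 h2 h3
    have h4 := F.lo l h1 h2
    have g1 := congrArg Prod.fst h3
    have g2 := congrArg Prod.snd h3
    rw [(chH_G hs l).1, (chH_g hs u).1] at g1
    rw [(chH_G hs l).2, (chH_g hs u).2] at g2
    rcases hs with rfl | rfl <;> rcases ht with rfl | rfl <;> omega
  · by_contra h
    push Not at h
    obtain ⟨l, hl⟩ := exG (chH s) (2 * ((chH s).g u).1 - 1, 2 * ((chH s).g u).2)
    rw [inR_iff] at hu
    have g1 := congrArg Prod.fst hl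
    have g2 := congrArg Prod.snd hl
    rw [(chH_G hs l).1, (chH_g hs u).1] at g1
    rw [(chH_G hs l).2, (chH_g hs u).2] at g2
    have h2 : l ∈ BR z B := by
      rw [mem_BR]
      rcases hs with rfl | rfl <;> omega
    refine hK l (F.up l h2 ?_) h2 hl
    rcases hs with rfl | rfl <;> rcases ht with rfl | rfl <;> omega

/-- **block at a flat wall**, all four orientations; `w ω` are the open labels of the world, `uw`, `lw` the
colours of the wall above and below `z` -/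
theorem flat_blk : ∃ C α : ℝ, 0 < C ∧ 0 < α ∧
    ∀ (E : Finset (ℤ × ℤ)) (z : ℤ × ℤ) (s t N τ ρ M B : ℤ), (s = 1 ∨ s = -1) → (t = 1 ∨ t = -1) →
    1 ≤ ρ → 0 ≤ N → N ≤ ρ + 1 → 0 ≤ τ → ρ ≤ M → M + N + 3 ≤ B → M + τ + 2 ≤ B →
    FlatRm E z s t B N →
    ∀ (F : Finset (ℤ × ℤ)), E ∩ An z ρ M ⊆ F → ∀ (Λ D : Set (ℤ × ℤ)) (uw lw : Prop)
    (w : Finset (ℤ × ℤ) → Finset (ℤ × ℤ)),
    (∀ ω ⊆ F, ω ∩ (E ∩ An z ρ M) ⊆ w ω) → (∀ ω ⊆ F, LayW (chH s) E Λ D (w ω) z ρ B τ uw lw) →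
    Pr F (fun ω => ¬ Blk Λ D (w ω) z ρ B uw lw) ≤ C * ((ρ : ℝ) / M) ^ α := by
  obtain ⟨C, α, hC, hα, h⟩ := half_circuit_open
  refine ⟨C, α, hC, hα, fun E z s t N τ ρ M B hs ht hρ hN hNρ hτ hρM hB1 hB2 R F hF Λ D uw lw w
    hw Y => ?_⟩
  have RW := R.roomW hs ht
  refine le_trans ?_ (h E (KL (chH s) E z B) z N ρ M (-s) t s (-t) hρ hNρ hρM
    (RW.nbh (by omega)) (R.shape hs ht (by omega)) F hF)
  apply Pr_mono
  intro ω hω hn hHR
  apply hn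
  obtain ⟨p, p', h1, h2, h3, h4, h5⟩ := hHR
  have h6 : Co (w ω ∩ (E ∩ An z ρ M)) p p' := h5.mono fun l hl =>
    mem_inter.2 ⟨hw ω hω hl, (mem_inter.1 hl).2⟩
  unfold Sd at h2 h4
  rcases ht with rfl | rfl
  · exact blk_prim RW (Y ω hω) hρ (by omega) hB2 (by omega) hτ h1 h3
      (by rw [(chH_g hs z).2, (chH_g hs p).2]; omega)
      (by rw [(chH_g hs z).2, (chH_g hs p').2]; omega) h6
  · exact blk_prim RW (Y ω hω) hρ (by omega) hB2 (by omega) hτ h3 h1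
      (by rw [(chH_g hs z).2, (chH_g hs p').2]; omega)
      (by rw [(chH_g hs z).2, (chH_g hs p).2]; omega) h6.symm

end Pool.Agent.H70.W
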