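import Mathlib
import Pool.Agent.H58.W.Coin
import Pool.Agent.H70.W.WallBlk

set_option autoImplicit false
open Finset

/-!
# Blocks at flat walls and at corners, all orientations, coin measures

`PRm Φ E z κu κd B N` : room near the wall point `z`; in the coordinates of the chart `Φ` (`chH s` or `chV s`)
the wall has slope `κu` above `z` and slope `κd` below `z` : flat walls `(-1, 1)`, `(1, -1)`, convex corner
`(1, 1)`, concave corner `(-1, -1)`; `N` = height of steps, notches.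
`HC Φ E z B ρ M ω` : open half circuit in the annulus. `prm_half` : its probability, `HC.blk` : the block.
-/

namespace Pool.Agent.H70.W

open Pool.Agent.H75.Perc Pool.Agent.H75.TwoArm Pool.Agent.H75.Four Pool.Agent.H60.Q1
open Pool.Agent.H99.NC (BR inR inR_iff)
open Pool.Agent.H13.W (TJ SG eW eE eS eN)
open Pool.Agent.H58.W (up mem_up PB_mono PB_restrict PB_inj)

universe u

/-- the room near a wall point, in chart coordinates: slope `κu` above, `κd` below -/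
structure PRm (Φ : SyC) (E : Finset (ℤ × ℤ)) (z : ℤ × ℤ) (κu κd B N : ℤ) : Prop where
  odd : ∀ l ∈ E, (l.1 + l.2) % 2 = 1
  loU : ∀ l ∈ E, l ∈ BR z B → 0 ≤ (Φ.G l).2 - 2 * (Φ.g z).2 →
    κu * ((Φ.G l).2 - 2 * (Φ.g z).2) + 1 ≤ (Φ.G l).1 - 2 * (Φ.g z).1
  loD : ∀ l ∈ E, l ∈ BR z B → (Φ.G l).2 - 2 * (Φ.g z).2 ≤ 0 →
    -(κd * ((Φ.G l).2 - 2 * (Φ.g z).2)) + 1 ≤ (Φ.G l).1 - 2 * (Φ.g z).1
  up : ∀ l ∈ BR z B, (0 ≤ (Φ.G l).2 - 2 * (Φ.g z).2 →
      κu * ((Φ.G l).2 - 2 * (Φ.g z).2) + (2 * N + 1) ≤ (Φ.G l).1 - 2 * (Φ.g z).1) →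
    ((Φ.G l).2 - 2 * (Φ.g z).2 ≤ 0 →
      -(κd * ((Φ.G l).2 - 2 * (Φ.g z).2)) + (2 * N + 1) ≤ (Φ.G l).1 - 2 * (Φ.g z).1) → l ∈ E
  cl : ∀ l ∈ E, ∀ l' ∈ BR z B, l ∈ BR z B → |(Φ.G l').2 - (Φ.G l).2| ≤ (Φ.G l').1 - (Φ.G l).1 →
    l' ∈ E

/-- **open half circuit** in the annulus between the radii `ρ` and `M` -/
def HC (Φ : SyC) (E : Finset (ℤ × ℤ)) (z : ℤ × ℤ) (B ρ M : ℤ) (ω : Finset (ℤ × ℤ)) : Prop :=
  ∃ p q, KL Φ E z B p ∧ KL Φ E z B q ∧ (Φ.g z).2 + ρ < (Φ.g p).2 ∧ (Φ.g q).2 < (Φ.g z).2 - ρ ∧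
    Co (ω ∩ (E ∩ An z ρ M)) p q

variable {Φ : SyC} {E Λ' w : Finset (ℤ × ℤ)} {Λ D : Set (ℤ × ℤ)} {z e e' c d v f : ℤ × ℤ}
  {ρ B N τ κu κd M s : ℤ}

lemma HC.mono {ω ω' : Finset (ℤ × ℤ)} (h : HC Φ E z B ρ M ω) (h' : ω ∩ (E ∩ An z ρ M) ⊆ ω') :
    HC Φ E z B ρ M ω' := by
  obtain ⟨p, q, h1, h2, h3, h4, h5⟩ := h
  exact ⟨p, q, h1, h2, h3, h4, h5.mono fun l hl => mem_inter.2 ⟨h' hl, (mem_inter.1 hl).2⟩⟩

lemma HC.iff_inter {ω : Finset (ℤ × ℤ)} :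
    HC Φ E z B ρ M (ω ∩ (E ∩ An z ρ M)) ↔ HC Φ E z B ρ M ω := by
  constructor
  · exact fun h => h.mono fun l hl => (mem_inter.1 (mem_inter.1 hl).1).1
  · exact fun h => h.mono fun l hl => hl

lemma PRm.roomW (hu : κu = 1 ∨ κu = -1) (hd : κd = 1 ∨ κd = -1) (R : PRm Φ E z κu κd B N) :
    RoomW Φ E z B (N + 1) := by
  refine ⟨R.odd, R.cl, fun l h1 h2 => ?_, fun l h1 h2 => R.up l h1 (fun h3 => ?_) fun h3 => ?_⟩
  · have a1 := R.loU l h1 h2
    have a2 := R.loD l h1 h2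
    rcases abs_cases ((Φ.G l).2 - 2 * (Φ.g z).2) with ⟨h5, h6⟩ | ⟨h5, h6⟩
    · have a3 := a1 h6
      rcases hu with rfl | rfl <;> omega
    · have a3 := a2 h6.le
      rcases hd with rfl | rfl <;> omega
  · rw [abs_of_nonneg h3] at h2
    rcases hu with rfl | rfl <;> omega
  · rw [abs_of_nonpos h3] at h2
    rcases hd with rfl | rfl <;> omega

/-- **The block of a half circuit** -/
theorem HC.blk {uw lw : Prop} (h : HC Φ E z B ρ M w) (R : RoomW Φ E z B N)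
    (Y : LayW Φ E Λ D w z ρ B τ uw lw) (hρ : 1 ≤ ρ) (hB1 : M + N + 2 ≤ B) (hB2 : M + τ + 2 ≤ B)
    (hN : 0 ≤ N) (hτ : 0 ≤ τ) : BlkE Φ E Λ D w z ρ B uw lw := by
  obtain ⟨p, q, h1, h2, h3, h4, h5⟩ := h
  exact blk_primE R Y hρ hB1 hB2 hN hτ h1 h2 h3 h4 h5

lemma PRm.K1 (R : PRm Φ E z κu κd B N) {u : ℤ × ℤ}
    (h1 : 0 ≤ (Φ.g u).2 - (Φ.g z).2 → (Φ.g u).1 - (Φ.g z).1 ≤ κu * ((Φ.g u).2 - (Φ.g z).2))
    (h2 : (Φ.g u).2 - (Φ.g z).2 ≤ 0 → (Φ.g u).1 - (Φ.g z).1 ≤ -(κd * ((Φ.g u).2 - (Φ.g z).2))) :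
    KL Φ E z B u := by
  intro l hl hlB he
  have a1 := R.loU l hl hlB
  have a2 := R.loD l hl hlB
  rw [he] at a1 a2
  simp only at a1 a2
  rcases le_total 0 ((Φ.g u).2 - (Φ.g z).2) with h | h
  · have b1 := h1 h
    have b2 := a1 (by omega)
    have b3 : κu * (2 * (Φ.g u).2 - 2 * (Φ.g z).2) = 2 * (κu * ((Φ.g u).2 - (Φ.g z).2)) := by ring
    rw [b3] at b2
    omega
  · have b1 := h2 h
    have b2 := a2 (by omega)
    have b3 : κd * (2 * (Φ.g u).2 - 2 * (Φ.g z).2) = 2 * (κd * ((Φ.g u).2 - (Φ.g z).2)) := by ring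
    rw [b3] at b2
    omega

/-- label to the left of `u` -/
lemma PRm.K2 (R : PRm Φ E z κu κd B N) {u : ℤ × ℤ} (hK : KL Φ E z B u)
    (hB : inR (Φ.g z) (B - 1) (Φ.g u))
    (h1 : 0 ≤ (Φ.g u).2 - (Φ.g z).2 →
      κu * ((Φ.g u).2 - (Φ.g z).2) + (N + 1) ≤ (Φ.g u).1 - (Φ.g z).1)
    (h2 : (Φ.g u).2 - (Φ.g z).2 ≤ 0 →
      -(κd * ((Φ.g u).2 - (Φ.g z).2)) + (N + 1) ≤ (Φ.g u).1 - (Φ.g z).1) : False := by
  obtain ⟨l, hl⟩ := exG Φ (2 * (Φ.g u).1 - 1, 2 * (Φ.g u).2)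
  rw [inR_iff] at hB
  have h3 : l ∈ BR z B := by
    rw [Φ.hb, hl, mem_BR]
    simp only
    omega
  refine hK l (R.up l h3 (fun h => ?_) fun h => ?_) h3 hl
  · rw [hl] at h ⊢
    simp only at h ⊢
    have b1 := h1 (by omega)
    have b3 : κu * (2 * (Φ.g u).2 - 2 * (Φ.g z).2) = 2 * (κu * ((Φ.g u).2 - (Φ.g z).2)) := by ring
    rw [b3]
    omega
  · rw [hl] at h ⊢
    simp only at h ⊢
    have b1 := h2 (by omega)
    have b3 : κd * (2 * (Φ.g u).2 - 2 * (Φ.g z).2) = 2 * (κd * ((Φ.g u).2 - (Φ.g z).2)) := by ring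
    rw [b3]
    omega

lemma chH_inR (hs : s = 1 ∨ s = -1) {u : ℤ × ℤ} (h : inR z M u) :
    inR ((chH s).g z) M ((chH s).g u) := by
  rw [inR_iff] at h ⊢
  rw [(chH_g hs z).1, (chH_g hs z).2, (chH_g hs u).1, (chH_g hs u).2]
  rcases hs with rfl | rfl <;> omega

lemma chV_inR (hs : s = 1 ∨ s = -1) {u : ℤ × ℤ} (h : inR z M u) :
    inR ((chV s).g z) M ((chV s).g u) := by
  rw [inR_iff] at h ⊢
  rw [(chV_g hs z).1, (chV_g hs z).2, (chV_g hs u).1, (chV_g hs u).2]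
  rcases hs with rfl | rfl <;> omega

/-- horizontal charts: the shape of the wall -/
lemma PRm.shapeH (hs : s = 1 ∨ s = -1) (hu : κu = 1 ∨ κu = -1) (hd : κd = 1 ∨ κd = -1)
    (R : PRm (chH s) E z κu κd B N) (hM : M + 1 ≤ B) :
    Shape (KL (chH s) E z B) z N M (κu * s) 1 (κd * s) (-1) ∨
      Shape (KL (chH s) E z B) z N M (κd * s) (-1) (κu * s) 1 := by
  have k1 : ∀ u : ℤ × ℤ, (0 ≤ u.2 - z.2 → s * (u.1 - z.1) ≤ κu * (u.2 - z.2)) →
      (u.2 - z.2 ≤ 0 → s * (u.1 - z.1) ≤ -(κd * (u.2 - z.2))) → KL (chH s) E z B u := by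
    intro u h1 h2
    apply R.K1
    · rw [(chH_g hs z).1, (chH_g hs z).2, (chH_g hs u).1, (chH_g hs u).2, ← mul_sub]
      exact h1
    · rw [(chH_g hs z).1, (chH_g hs z).2, (chH_g hs u).1, (chH_g hs u).2, ← mul_sub]
      exact h2
  have k2 : ∀ u : ℤ × ℤ, inR z M u → KL (chH s) E z B u →
      (0 ≤ u.2 - z.2 → κu * (u.2 - z.2) + (N + 1) ≤ s * (u.1 - z.1)) →
      (u.2 - z.2 ≤ 0 → -(κd * (u.2 - z.2)) + (N + 1) ≤ s * (u.1 - z.1)) → False := by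
    intro u hu hK h1 h2
    refine R.K2 hK ?_ ?_ ?_
    · exact inR_mono (by omega) (chH_inR hs hu)
    · rw [(chH_g hs z).1, (chH_g hs z).2, (chH_g hs u).1, (chH_g hs u).2, ← mul_sub]
      exact h1
    · rw [(chH_g hs z).1, (chH_g hs z).2, (chH_g hs u).1, (chH_g hs u).2, ← mul_sub]
      exact h2
  rcases hu with rfl | rfl <;> rcases hd with rfl | rfl
  · -- convex
    right
    refine Or.inr (Or.inl ⟨by omega, by omega, rfl, rfl, fun u hu h => k1 u ?_ ?_, fun u hu hK => ?_⟩)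
    · intro h0
      rw [abs_of_nonneg h0] at h
      rcases hs with rfl | rfl <;> omega
    · intro h0
      rw [abs_of_nonpos h0] at h
      rcases hs with rfl | rfl <;> omega
    · by_contra hc
      refine k2 u hu hK (fun h0 => ?_) fun h0 => ?_
      · rw [abs_of_nonneg h0] at hc
        rcases hs with rfl | rfl <;> omega
      · rw [abs_of_nonpos h0] at hc
        rcases hs with rfl | rfl <;> omega
  · -- flat, `x ≤ y`
    right
    refine Or.inl ⟨by omega, by omega, by omega, by omega, fun u hu h => k1 u ?_ ?_, fun u hu hK => ?_⟩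
    · intro h0
      rcases hs with rfl | rfl <;> omega
    · intro h0
      rcases hs with rfl | rfl <;> omega
    · by_contra hc
      refine k2 u hu hK (fun h0 => ?_) fun h0 => ?_ <;> rcases hs with rfl | rfl <;> omega
  · -- flat, `x ≤ -y`
    left
    refine Or.inl ⟨by omega, by omega, by omega, by omega, fun u hu h => k1 u ?_ ?_, fun u hu hK => ?_⟩
    · intro h0
      rcases hs with rfl | rfl <;> omega
    · intro h0
      rcases hs with rfl | rfl <;> omega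
    · by_contra hc
      refine k2 u hu hK (fun h0 => ?_) fun h0 => ?_ <;> rcases hs with rfl | rfl <;> omega
  · -- concave
    right
    refine Or.inr (Or.inr (Or.inr (Or.inl ⟨by omega, by omega, rfl, rfl, fun u hu h => k1 u ?_ ?_,
      fun u hu hK => ?_⟩)))
    · intro h0
      rw [abs_of_nonneg h0] at h
      rcases hs with rfl | rfl <;> omega
    · intro h0
      rw [abs_of_nonpos h0] at h
      rcases hs with rfl | rfl <;> omega
    · by_contra hc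
      refine k2 u hu hK (fun h0 => ?_) fun h0 => ?_
      · rw [abs_of_nonneg h0] at hc
        rcases hs with rfl | rfl <;> omega
      · rw [abs_of_nonpos h0] at hc
        rcases hs with rfl | rfl <;> omega

/-- vertical charts: the shape of the wall -/
lemma PRm.shapeV (hs : s = 1 ∨ s = -1) (hu : κu = 1 ∨ κu = -1) (hd : κd = 1 ∨ κd = -1)
    (R : PRm (chV s) E z κu κd B N) (hM : M + 1 ≤ B) :
    Shape (KL (chV s) E z B) z N M 1 (κu * s) (-1) (κd * s) ∨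
      Shape (KL (chV s) E z B) z N M (-1) (κd * s) 1 (κu * s) := by
  have k1 : ∀ u : ℤ × ℤ, (0 ≤ u.1 - z.1 → s * (u.2 - z.2) ≤ κu * (u.1 - z.1)) →
      (u.1 - z.1 ≤ 0 → s * (u.2 - z.2) ≤ -(κd * (u.1 - z.1))) → KL (chV s) E z B u := by
    intro u h1 h2
    apply R.K1
    · rw [(chV_g hs z).1, (chV_g hs z).2, (chV_g hs u).1, (chV_g hs u).2, ← mul_sub]
      exact h1
    · rw [(chV_g hs z).1, (chV_g hs z).2, (chV_g hs u).1, (chV_g hs u).2, ← mul_sub]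
      exact h2
  have k2 : ∀ u : ℤ × ℤ, inR z M u → KL (chV s) E z B u →
      (0 ≤ u.1 - z.1 → κu * (u.1 - z.1) + (N + 1) ≤ s * (u.2 - z.2)) →
      (u.1 - z.1 ≤ 0 → -(κd * (u.1 - z.1)) + (N + 1) ≤ s * (u.2 - z.2)) → False := by
    intro u hu hK h1 h2
    refine R.K2 hK ?_ ?_ ?_
    · exact inR_mono (by omega) (chV_inR hs hu)
    · rw [(chV_g hs z).1, (chV_g hs z).2, (chV_g hs u).1, (chV_g hs u).2, ← mul_sub]
      exact h1
    · rw [(chV_g hs z).1, (chV_g hs z).2, (chV_g hs u).1, (chV_g hs u).2, ← mul_sub]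
      exact h2
  rcases hu with rfl | rfl <;> rcases hd with rfl | rfl
  · -- convex
    right
    refine Or.inr (Or.inr (Or.inl ⟨by omega, by omega, rfl, rfl, fun u hu h => k1 u ?_ ?_,
      fun u hu hK => ?_⟩))
    · intro h0
      rw [abs_of_nonneg h0] at h
      rcases hs with rfl | rfl <;> omega
    · intro h0
      rw [abs_of_nonpos h0] at h
      rcases hs with rfl | rfl <;> omega
    · by_contra hc
      refine k2 u hu hK (fun h0 => ?_) fun h0 => ?_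
      · rw [abs_of_nonneg h0] at hc
        rcases hs with rfl | rfl <;> omega
      · rw [abs_of_nonpos h0] at hc
        rcases hs with rfl | rfl <;> omega
  · -- flat, `x ≤ y`
    left
    refine Or.inl ⟨by omega, by omega, by omega, by omega, fun u hu h => k1 u ?_ ?_, fun u hu hK => ?_⟩
    · intro h0
      rcases hs with rfl | rfl <;> omega
    · intro h0
      rcases hs with rfl | rfl <;> omega
    · by_contra hc
      refine k2 u hu hK (fun h0 => ?_) fun h0 => ?_ <;> rcases hs with rfl | rfl <;> omega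
  · -- flat, `x ≤ -y`
    right
    refine Or.inl ⟨by omega, by omega, by omega, by omega, fun u hu h => k1 u ?_ ?_, fun u hu hK => ?_⟩
    · intro h0
      rcases hs with rfl | rfl <;> omega
    · intro h0
      rcases hs with rfl | rfl <;> omega
    · by_contra hc
      refine k2 u hu hK (fun h0 => ?_) fun h0 => ?_ <;> rcases hs with rfl | rfl <;> omega
  · -- concave
    right
    refine Or.inr (Or.inr (Or.inr (Or.inr ⟨by omega, by omega, rfl, rfl, fun u hu h => k1 u ?_ ?_,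
      fun u hu hK => ?_⟩)))
    · intro h0
      rw [abs_of_nonneg h0] at h
      rcases hs with rfl | rfl <;> omega
    · intro h0
      rw [abs_of_nonpos h0] at h
      rcases hs with rfl | rfl <;> omega
    · by_contra hc
      refine k2 u hu hK (fun h0 => ?_) fun h0 => ?_
      · rw [abs_of_nonneg h0] at hc
        rcases hs with rfl | rfl <;> omega
      · rw [abs_of_nonpos h0] at hc
        rcases hs with rfl | rfl <;> omega

/-- **The half circuit exists with high probability**, all kinds of wall points and all orientations -/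
theorem prm_half : ∃ C α : ℝ, 0 < C ∧ 0 < α ∧
    ∀ (Φ : SyC) (E : Finset (ℤ × ℤ)) (z : ℤ × ℤ) (s κu κd N ρ M B : ℤ), (s = 1 ∨ s = -1) →
    (Φ = chH s ∨ Φ = chV s) → (κu = 1 ∨ κu = -1) → (κd = 1 ∨ κd = -1) → 1 ≤ ρ → 0 ≤ N → N ≤ ρ + 1 →
    ρ ≤ M → M + 1 ≤ B → PRm Φ E z κu κd B N → ∀ F : Finset (ℤ × ℤ), E ∩ An z ρ M ⊆ F →
    Pr F (fun ω => ¬ HC Φ E z B ρ M ω) ≤ C * ((ρ : ℝ) / M) ^ α := by
  obtain ⟨C, α, hC, hα, h⟩ := half_circuit_open
  refine ⟨C, α, hC, hα, fun Φ E z s κu κd N ρ M B hs hΦ hu hd hρ hN hNρ hρM hMB R F hF => ?_⟩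
  have hnb := (R.roomW hu hd).nbh (M := M) (by omega)
  -- every half circuit of the shape is one
  have key : ∀ s1 t1 s2 t2 : ℤ, Shape (KL Φ E z B) z N M s1 t1 s2 t2 →
      ((∀ p, Sd z ρ s1 t1 p → (Φ.g z).2 + ρ < (Φ.g p).2) ∧
        (∀ p, Sd z ρ s2 t2 p → (Φ.g p).2 < (Φ.g z).2 - ρ)) ∨
      ((∀ p, Sd z ρ s1 t1 p → (Φ.g p).2 < (Φ.g z).2 - ρ) ∧
        (∀ p, Sd z ρ s2 t2 p → (Φ.g z).2 + ρ < (Φ.g p).2)) →
      Pr F (fun ω => ¬ HC Φ E z B ρ M ω) ≤ C * ((ρ : ℝ) / M) ^ α := by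
    intro s1 t1 s2 t2 hS hLR
    refine le_trans ?_ (h E (KL Φ E z B) z N ρ M s1 t1 s2 t2 hρ hNρ hρM hnb hS F hF)
    apply Pr_mono
    intro ω _ hn hHR
    apply hn
    obtain ⟨p, p', h1, h2, h3, h4, h5⟩ := hHR
    rcases hLR with ⟨a, b⟩ | ⟨a, b⟩
    · exact ⟨p, p', h1, h3, a p h2, b p' h4, h5⟩
    · exact ⟨p', p, h3, h1, b p' h4, a p h2, h5.symm⟩
  rcases hΦ with rfl | rfl
  · have up : ∀ (t : ℤ) (p : ℤ × ℤ), Sd z ρ t 1 p → ((chH s).g z).2 + ρ < ((chH s).g p).2 := by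
      intro t p h
      unfold Sd at h
      rw [(chH_g hs z).2, (chH_g hs p).2]
      omega
    have dn : ∀ (t : ℤ) (p : ℤ × ℤ), Sd z ρ t (-1) p → ((chH s).g p).2 < ((chH s).g z).2 - ρ := by
      intro t p h
      unfold Sd at h
      rw [(chH_g hs z).2, (chH_g hs p).2]
      omega
    rcases R.shapeH hs hu hd (M := M) hMB with h | h
    · exact key _ _ _ _ h (Or.inl ⟨up _, dn _⟩)
    · exact key _ _ _ _ h (Or.inr ⟨dn _, up _⟩)
  · have up : ∀ (t : ℤ) (p : ℤ × ℤ), Sd z ρ 1 t p → ((chV s).g z).2 + ρ < ((chV s).g p).2 := by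
      intro t p h
      unfold Sd at h
      rw [(chV_g hs z).2, (chV_g hs p).2]
      omega
    have dn : ∀ (t : ℤ) (p : ℤ × ℤ), Sd z ρ (-1) t p → ((chV s).g p).2 < ((chV s).g z).2 - ρ := by
      intro t p h
      unfold Sd at h
      rw [(chV_g hs z).2, (chV_g hs p).2]
      omega
    rcases R.shapeV hs hu hd (M := M) hMB with h | h
    · exact key _ _ _ _ h (Or.inl ⟨up _, dn _⟩)
    · exact key _ _ _ _ h (Or.inr ⟨dn _, up _⟩)

/-- the same for coin measures which are natural in the annulus -/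
theorem prm_halfB : ∃ C α : ℝ, 0 < C ∧ 0 < α ∧
    ∀ (Φ : SyC) (E : Finset (ℤ × ℤ)) (z : ℤ × ℤ) (s κu κd N ρ M B : ℤ), (s = 1 ∨ s = -1) →
    (Φ = chH s ∨ Φ = chV s) → (κu = 1 ∨ κu = -1) → (κd = 1 ∨ κd = -1) → 1 ≤ ρ → 0 ≤ N → N ≤ ρ + 1 →
    ρ ≤ M → M + 1 ≤ B → PRm Φ E z κu κd B N → ∀ F : Finset (ℤ × ℤ), E ∩ An z ρ M ⊆ F →
    ∀ (β : Type u) [DecidableEq β] (b : ℤ × ℤ → β), (∀ l ∈ E ∩ An z ρ M, ∀ l' ∈ E ∩ An z ρ M, b l = b l' →
      l = l') →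
    Pool.Agent.H58.W.PB F b (fun ω => ¬ HC Φ E z B ρ M ω) ≤ C * ((ρ : ℝ) / M) ^ α := by
  obtain ⟨C, α, hC, hα, h⟩ := prm_half
  refine ⟨C, α, hC, hα, fun Φ E z s κu κd N ρ M B hs hΦ hu hd hρ hN hNρ hρM hMB R F hF β _ b hb => ?_⟩
  refine le_trans (le_of_eq ?_) (h Φ E z s κu κd N ρ M B hs hΦ hu hd hρ hN hNρ hρM hMB R
    (E ∩ An z ρ M) subset_rfl)
  rw [← PB_inj hb, ← PB_restrict hF b (fun ω => ¬ HC Φ E z B ρ M ω)]
  exact Pool.Agent.H58.W.PB_congr fun ω _ => not_congr HC.iff_inter.symm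

end Pool.Agent.H70.W
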