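import Mathlib
import Pool.Agent.H45.W.Sym
import Pool.Agent.H70.W.WallCor

set_option autoImplicit false
open Finset

/-!
# The block of a closed half circuit

`HCc` : closed half circuit (an open half circuit of the dual labels, i.e. of the labels moved by `(1, 1)`).
`HCc.blk` : the block, no exit at the closed parts of the wall. `prm_halfc`, `prm_halfcB` : probability.
-/

namespace Pool.Agent.H70.W

open Pool.Agent.H75.Perc Pool.Agent.H75.TwoArm Pool.Agent.H75.Four Pool.Agent.H60.Q1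
open Pool.Agent.H99.NC (BR inR inR_iff)
open Pool.Agent.H13.W (TJ SG eW eE eS eN)
open Pool.Agent.H58.W (up mem_up PB_mono PB_restrict PB_inj PB_congr)

universe u

/-- the dual centre `z'` -/
structure DCt (Φ : SyC) (s : ℤ) (z z' : ℤ × ℤ) : Prop where
  hs : s = 1 ∨ s = -1
  g1 : 2 * (Φ.g z').1 = 2 * (Φ.g z).1 - (1 - s)
  g2 : (Φ.g z').2 = (Φ.g z).2
  G1 : ∀ e : ℤ × ℤ, (Φ.G (e.1 + 1, e.2 + 1)).1 = (Φ.G e).1 + s
  G2 : ∀ e : ℤ × ℤ, (Φ.G (e.1 + 1, e.2 + 1)).2 = (Φ.G e).2 + 1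
  n1 : z.1 ≤ z'.1 ∧ z'.1 ≤ z.1 + 1
  n2 : z.2 ≤ z'.2 ∧ z'.2 ≤ z.2 + 1

/-- the dual centre of the horizontal charts -/
def dzH (s : ℤ) (z : ℤ × ℤ) : ℤ × ℤ := (z.1 + (1 - s) / 2, z.2)

/-- the dual centre of the vertical charts -/
def dzV (s : ℤ) (z : ℤ × ℤ) : ℤ × ℤ := (z.1, z.2 + (1 - s) / 2)

lemma dctH {s : ℤ} (hs : s = 1 ∨ s = -1) (z : ℤ × ℤ) : DCt (chH s) s z (dzH s z) := by
  refine ⟨hs, ?_, ?_, fun e => ?_, fun e => ?_, ?_, ?_⟩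
  · rw [(chH_g hs _).1, (chH_g hs _).1]
    unfold dzH
    rcases hs with rfl | rfl <;> omega
  · rw [(chH_g hs _).2, (chH_g hs _).2]
    rfl
  · rw [(chH_G hs _).1, (chH_G hs _).1]
    simp only
    ring
  · rw [(chH_G hs _).2, (chH_G hs _).2]
  · unfold dzH
    rcases hs with rfl | rfl <;> omega
  · unfold dzH
    simp

lemma dctV {s : ℤ} (hs : s = 1 ∨ s = -1) (z : ℤ × ℤ) : DCt (chV s) s z (dzV s z) := by
  refine ⟨hs, ?_, ?_, fun e => ?_, fun e => ?_, ?_, ?_⟩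
  · rw [(chV_g hs _).1, (chV_g hs _).1]
    unfold dzV
    rcases hs with rfl | rfl <;> omega
  · rw [(chV_g hs _).2, (chV_g hs _).2]
    rfl
  · rw [(chV_G hs _).1, (chV_G hs _).1]
    simp only
    ring
  · rw [(chV_G hs _).2, (chV_G hs _).2]
  · unfold dzV
    simp
  · unfold dzV
    rcases hs with rfl | rfl <;> omega

variable {Φ : SyC} {E Λ' w : Finset (ℤ × ℤ)} {Λ D : Set (ℤ × ℤ)} {z z' e e' c d v f : ℤ × ℤ}
  {ρ B N τ κu κd M s R : ℤ}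

lemma mem_sh1 {A : Finset (ℤ × ℤ)} {l : ℤ × ℤ} : (l.1 + 1, l.2 + 1) ∈ A.map sh1 ↔ l ∈ A := by
  rw [mem_map]
  constructor
  · rintro ⟨a, ha, h⟩
    have h1 := congrArg Prod.fst h
    have h2 := congrArg Prod.snd h
    change a.1 + 1 = l.1 + 1 at h1
    change a.2 + 1 = l.2 + 1 at h2
    have : a = l := Prod.ext (by omega) (by omega)
    exact this ▸ ha
  · exact fun h => ⟨l, h, rfl⟩

lemma mem_sh1' {A : Finset (ℤ × ℤ)} {l : ℤ × ℤ} : l ∈ A.map sh1 ↔ (l.1 - 1, l.2 - 1) ∈ A := by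
  rw [← mem_sh1 (A := A) (l := (l.1 - 1, l.2 - 1))]
  simp

lemma DCt.br (C : DCt Φ s z z') (h : e ∈ BR z R) : (e.1 + 1, e.2 + 1) ∈ BR z' (R + 1) := by
  rw [mem_BR] at h ⊢
  have h1 := C.n1
  have h2 := C.n2
  simp only
  omega

lemma DCt.br' (C : DCt Φ s z z') (h : (e.1 + 1, e.2 + 1) ∈ BR z' R) : e ∈ BR z (R + 1) := by
  rw [mem_BR] at h ⊢
  have h1 := C.n1
  have h2 := C.n2
  simp only at h
  omega

lemma ex_shift (l : ℤ × ℤ) : ∃ e : ℤ × ℤ, l = (e.1 + 1, e.2 + 1) :=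
  ⟨(l.1 - 1, l.2 - 1), Prod.ext (by simp) (by simp)⟩

/-- the dual room -/
lemma PRm.dual (C : DCt Φ s z z') (hu : κu = 1 ∨ κu = -1) (hd : κd = 1 ∨ κd = -1)
    (P : PRm Φ E z κu κd B N) : PRm Φ (E.map sh1) z' κu κd (B - 1) (N + 1) := by
  have hs := C.hs
  have g1 := C.g1
  have g2 := C.g2
  refine ⟨fun l hl => ?_, fun l hl hB h => ?_, fun l hl hB h => ?_, fun l hB h1 h2 => ?_,
    fun l hl l' hB' hB h => ?_⟩
  · obtain ⟨e, rfl⟩ := ex_shift l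
    have := P.odd e (mem_sh1.1 hl)
    simp only
    omega
  · obtain ⟨e, rfl⟩ := ex_shift l
    have he := mem_sh1.1 hl
    have heB : e ∈ BR z B := by have := C.br' hB; rwa [show B - 1 + 1 = B by ring] at this
    rw [C.G1 e, C.G2 e] at *
    have k1 := P.loU e he heB
    have k2 := P.loD e he heB
    rcases le_or_gt 0 ((Φ.G e).2 - 2 * (Φ.g z).2) with h3 | h3
    · have := k1 h3
      rcases hu with rfl | rfl <;> omega
    · have := k2 h3.le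
      rcases hu with rfl | rfl <;> rcases hd with rfl | rfl <;> omega
  · obtain ⟨e, rfl⟩ := ex_shift l
    have he := mem_sh1.1 hl
    have heB : e ∈ BR z B := by have := C.br' hB; rwa [show B - 1 + 1 = B by ring] at this
    rw [C.G1 e, C.G2 e] at *
    have k2 := P.loD e he heB
    have := k2 (by omega)
    rcases hd with rfl | rfl <;> omega
  · obtain ⟨e, rfl⟩ := ex_shift l
    rw [mem_sh1]
    have heB : e ∈ BR z B := by have := C.br' hB; rwa [show B - 1 + 1 = B by ring] at this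
    rw [C.G1 e, C.G2 e] at *
    refine P.up e heB (fun h3 => ?_) fun h3 => ?_
    · have := h1 (by omega)
      rcases hu with rfl | rfl <;> omega
    · rcases le_or_gt ((Φ.G e).2 + 1 - 2 * (Φ.g z').2) 0 with h4 | h4
      · have := h2 h4
        rcases hd with rfl | rfl <;> omega
      · have := h1 h4.le
        rcases hu with rfl | rfl <;> rcases hd with rfl | rfl <;> omega
  · obtain ⟨e, rfl⟩ := ex_shift l
    obtain ⟨e', rfl⟩ := ex_shift l'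
    rw [mem_sh1] at hl ⊢
    have heB : e ∈ BR z B := by have := C.br' hB; rwa [show B - 1 + 1 = B by ring] at this
    have heB' : e' ∈ BR z B := by have := C.br' hB'; rwa [show B - 1 + 1 = B by ring] at this
    refine P.cl e hl e' heB' heB ?_
    rw [C.G1 e, C.G2 e, C.G1 e', C.G2 e'] at h
    rw [show (Φ.G e').2 - (Φ.G e).2 = (Φ.G e').2 + 1 - ((Φ.G e).2 + 1) by ring]
    refine h.trans (le_of_eq ?_)
    ring

/-- **closed half circuit** in the annulus -/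
def HCc (Φ : SyC) (E : Finset (ℤ × ℤ)) (z' : ℤ × ℤ) (B ρ M : ℤ) (w : Finset (ℤ × ℤ)) : Prop :=
  HC Φ (E.map sh1) z' (B - 1) (ρ + 1) (M - 1) (du E w)

lemma HCc.mono {w w' : Finset (ℤ × ℤ)} (C : DCt Φ s z z') (h : HCc Φ E z' B ρ M w)
    (h' : ∀ l ∈ E ∩ An z ρ M, l ∈ w' → l ∈ w) : HCc Φ E z' B ρ M w' := by
  refine HC.mono h fun l hl => ?_
  obtain ⟨e, rfl⟩ := ex_shift l
  rw [mem_inter, mem_inter, mem_sh1, mem_An] at hl
  obtain ⟨h1, h2, h3, h4⟩ := hl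
  unfold du at h1 ⊢
  rw [mem_sh1, mem_sdiff] at h1 ⊢
  refine ⟨h1.1, fun h5 => h1.2 (h' e (mem_inter.2 ⟨h2, mem_An.2 ⟨?_, fun h6 => h4 ?_⟩⟩) h5)⟩
  · exact mem_BR.1 (by have := C.br' (mem_BR.2 h3); rwa [show M - 1 + 1 = M by ring] at this)
  · exact mem_BR.1 (C.br (mem_BR.2 h6))

lemma isSd_shift {e c : ℤ × ℤ} : IsSd (e.1 + 1, e.2 + 1) (c.1 + 1, c.2 + 1) ↔ IsSd e c := by
  unfold IsSd eW eE eS eN
  simp only [Prod.ext_iff]
  omega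

open Classical in
/-- **The block of a closed half circuit** -/
theorem HCc.blk {uw lw : Prop} (C : DCt Φ s z z') (hu : κu = 1 ∨ κu = -1) (hd : κd = 1 ∨ κd = -1)
    (h : HCc Φ E z' B ρ M w) (P : PRm Φ E z κu κd B N)
    (Y : LayW Φ E Λ D w z ρ B τ uw lw) (hρ : 1 ≤ ρ) (hB1 : M + N + 4 ≤ B) (hB2 : M + τ + 2 ≤ B)
    (hN : 0 ≤ N) (hτ : 0 ≤ τ) : BlkE Φ E Λ D w z ρ B (¬ uw) (¬ lw) := by
  have hs := C.hs
  have g1 := C.g1
  have g2 := C.g2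
  set Λ1 : Set (ℤ × ℤ) := {l | (l.1 - 1, l.2 - 1) ∈ Λ} with hΛ1
  set D1 : Set (ℤ × ℤ) := {l | (l.1 - 1, l.2 - 1) ∈ D} with hD1
  set w1 : Finset (ℤ × ℤ) := ((BR z (B + 2)).filter (fun l => l ∉ w)).map sh1 with hw1
  have mΛ : ∀ e : ℤ × ℤ, (e.1 + 1, e.2 + 1) ∈ Λ1 ↔ e ∈ Λ := by
    intro e
    rw [hΛ1, Set.mem_ofPred_eq]
    simp
  have mD : ∀ e : ℤ × ℤ, (e.1 + 1, e.2 + 1) ∈ D1 ↔ e ∈ D := by
    intro e
    rw [hD1, Set.mem_ofPred_eq]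
    simp
  have mw : ∀ e : ℤ × ℤ, e ∈ BR z (B + 2) → ((e.1 + 1, e.2 + 1) ∈ w1 ↔ e ∉ w) := by
    intro e he
    rw [hw1, mem_sh1, mem_filter]
    exact ⟨fun h => h.2, fun h => ⟨he, h⟩⟩
  have brm : ∀ {R R' : ℤ} {e : ℤ × ℤ}, R ≤ R' → e ∈ BR z R → e ∈ BR z R' := by
    intro R R' e h1 h2
    rw [mem_BR] at h2 ⊢
    omega
  have brB : ∀ {e : ℤ × ℤ}, (e.1 + 1, e.2 + 1) ∈ BR z' (B - 1) → e ∈ BR z B := by
    intro e h
    have := C.br' h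
    rwa [show B - 1 + 1 = B by ring] at this
  have Y1 : LayW Φ (E.map sh1) Λ1 D1 w1 z' (ρ + 1) (B - 1) τ (¬ uw) (¬ lw) := by
    refine ⟨fun l hl => ?_, fun l hl hE hB hi => ?_, fun l hl hE hB => ?_, fun l hl hE hB hh => ?_,
      fun l hl hE hB hh => ?_⟩
    · obtain ⟨e, rfl⟩ := ex_shift l
      have := Y.odd e ((mΛ e).1 hl)
      simp only
      omega
    · obtain ⟨e, rfl⟩ := ex_shift l
      rw [mD]
      refine Y.inE e ((mΛ e).1 hl) (mem_sh1.1 hE) (brB hB) fun h5 => hi ?_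
      have := C.br h5
      rw [mem_BR] at this ⊢
      omega
    · obtain ⟨e, rfl⟩ := ex_shift l
      have k := Y.lay e ((mΛ e).1 hl) (fun h => hE (mem_sh1.2 h)) (brB hB)
      rw [C.G1, C.G2]
      rcases abs_cases ((Φ.G e).2 - 2 * (Φ.g z).2) with k1 | k1 <;>
        rcases abs_cases ((Φ.G e).2 + 1 - 2 * (Φ.g z').2) with k2 | k2 <;> omega
    · obtain ⟨e, rfl⟩ := ex_shift l
      rw [C.G2] at hh
      obtain ⟨k1, k2⟩ := Y.upc e ((mΛ e).1 hl) (fun h => hE (mem_sh1.2 h)) (brB hB) (by omega)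
      rw [mD, mw e (brm (by omega) (brB hB)), k2]
      exact ⟨k1, Iff.rfl⟩
    · obtain ⟨e, rfl⟩ := ex_shift l
      rw [C.G2] at hh
      obtain ⟨k1, k2⟩ := Y.loc e ((mΛ e).1 hl) (fun h => hE (mem_sh1.2 h)) (brB hB) (by omega)
      rw [mD, mw e (brm (by omega) (brB hB)), k2]
      exact ⟨k1, Iff.rfl⟩
  have h1 : HC Φ (E.map sh1) z' (B - 1) (ρ + 1) (M - 1) w1 := by
    refine HC.mono h fun l hl => ?_
    obtain ⟨e, rfl⟩ := ex_shift l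
    rw [mem_inter, mem_inter, mem_sh1, mem_An] at hl
    obtain ⟨k1, k2, k3, k4⟩ := hl
    unfold du at k1
    rw [mem_sh1, mem_sdiff] at k1
    rw [mw e]
    · exact k1.2
    · have := C.br' (mem_BR.2 k3)
      exact brm (by omega) this
  obtain ⟨I, bp, bq, k1, k2, k3⟩ := h1.blk ((P.dual C hu hd).roomW hu hd) Y1 (by omega) (by omega)
    (by omega) (by omega) hτ
  -- a step of the world is a step of the dual world
  have step : ∀ u v : ℤ × ℤ, (u.1 + 1, u.2 + 1) ∈ I → (SG Λ D w).Adj u v →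
      (SG Λ1 D1 w1).Adj (u.1 + 1, u.2 + 1) (v.1 + 1, v.2 + 1) := by
    intro u v hu ha
    obtain ⟨e, he, hT⟩ := ha
    have ho := Y.odd e he
    obtain ⟨e1, h2, h3⟩ := k3 _ hu
    have hsd : IsSd e u := Pool.Agent.H13.W.side_cases u hT.label
    have heB : e ∈ BR z (B + 2) := by
      obtain ⟨e2, rfl⟩ := ex_shift e1
      rw [isSd_shift] at h3
      have h4 := brB h2
      have h5 := side_coord ho hsd
      have h6 := side_coord (mem_BR.1 h4).2.2 h3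
      rw [mem_BR] at h4 ⊢
      rcases h5 with h5 | h5 <;> rcases h6 with h6 | h6 <;> rw [h6] at h4 <;>
        rw [h5] at ho ⊢ <;> simp only at h4 ho ⊢ <;>
        (have h7 := cor_c u; unfold Cor at h7; omega)
    refine ⟨(e.1 + 1, e.2 + 1), (mΛ e).2 he, ?_⟩
    exact Pool.Agent.H45.W.TJ.tr_odd (a := 1) (b := 1) (by norm_num) (by norm_num) (mD e)
      (fun _ => mw e heB) hT
  have exs : ∀ (σ : ℤ) (u v : ℤ × ℤ), (σ = 1 ∨ σ = -1) →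
      ExS Φ (E.map sh1) Λ1 z' (ρ + 1) (B - 1) σ (u.1 + 1, u.2 + 1) (v.1 + 1, v.2 + 1) →
      ExS Φ E Λ z ρ B σ u v := by
    intro σ u v hσ hx
    obtain ⟨l, a1, a2, a3, a4, a5, a6, l0, a7, a8, a9⟩ := hx
    obtain ⟨e, rfl⟩ := ex_shift l
    obtain ⟨e0, rfl⟩ := ex_shift l0
    refine ⟨e, (mΛ e).1 a1, fun h => a2 (mem_sh1.2 h), brB a3, ?_, isSd_shift.1 a5, isSd_shift.1 a6,
      e0, mem_sh1.1 a7, brB a8, isSd_shift.1 a9⟩
    rw [C.G2] at a4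
    rcases hσ with rfl | rfl <;> omega
  refine ⟨{c | (c.1 + 1, c.2 + 1) ∈ I}, (bp.1 - 1, bp.2 - 1), (bq.1 - 1, bq.2 - 1), ?_, ?_, ?_⟩
  · intro u v hu hv ha
    rcases k1 _ _ hu hv (step u v hu ha) with ⟨a, b, c⟩ | ⟨a, b, c⟩
    · refine Or.inl ⟨a, ?_, exs 1 u v (Or.inl rfl) c⟩
      rw [← b]
      exact Prod.ext (by simp) (by simp)
    · refine Or.inr ⟨a, ?_, exs (-1) u v (Or.inr rfl) c⟩
      rw [← b]
      exact Prod.ext (by simp) (by simp)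
  · intro e he hB c hc
    refine k2 _ ((mΛ e).2 he) ?_ _ (isSd_shift.2 hc)
    have := C.br hB
    rwa [show ρ - 1 + 1 = ρ + 1 - 1 by ring] at this
  · intro c hc
    obtain ⟨l, h2, h3⟩ := k3 _ hc
    obtain ⟨e, rfl⟩ := ex_shift l
    exact ⟨e, brB h2, isSd_shift.1 h3⟩

/-- constants -/
lemma rpow_dual {C α : ℝ} (hC : 0 < C) (hα : 0 < α) {ρ M : ℤ} (hρ : 1 ≤ ρ) (h : ρ + 2 ≤ M) :
    C * (((ρ + 1 : ℤ) : ℝ) / ((M - 1 : ℤ) : ℝ)) ^ α ≤ (C + 1) * 4 ^ α * ((ρ : ℝ) / M) ^ α := by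
  have h1 : (1 : ℝ) ≤ ρ := by exact_mod_cast hρ
  have h2 : (ρ : ℝ) + 2 ≤ M := by exact_mod_cast h
  have h3 : (0 : ℝ) < M := by linarith
  have h4 : (0 : ℝ) < M - 1 := by linarith
  have h5 : (((ρ + 1 : ℤ) : ℝ) / ((M - 1 : ℤ) : ℝ)) ≤ 4 * ((ρ : ℝ) / M) := by
    push_cast
    rw [mul_div_assoc', div_le_div_iff₀ h4 h3]
    nlinarith
  have h6 : 0 ≤ (((ρ + 1 : ℤ) : ℝ) / ((M - 1 : ℤ) : ℝ)) := by
    push_cast
    positivity
  have h7 := Real.rpow_le_rpow h6 h5 hα.le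
  rw [Real.mul_rpow (by norm_num) (by positivity)] at h7
  have h8 : (0 : ℝ) ≤ 4 ^ α * ((ρ : ℝ) / M) ^ α := by positivity
  calc C * (((ρ + 1 : ℤ) : ℝ) / ((M - 1 : ℤ) : ℝ)) ^ α ≤ C * (4 ^ α * ((ρ : ℝ) / M) ^ α) :=
        mul_le_mul_of_nonneg_left h7 hC.le
    _ ≤ (C + 1) * 4 ^ α * ((ρ : ℝ) / M) ^ α := by nlinarith

lemma rpow_dual' {C α : ℝ} (hC : 0 < C) (hα : 0 < α) {ρ M : ℤ} (hρ : 1 ≤ ρ) (hM : ρ ≤ M)
    (h : ¬ ρ + 2 ≤ M) : 1 ≤ (C + 1) * 4 ^ α * ((ρ : ℝ) / M) ^ α := by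
  have h1 : (1 : ℝ) ≤ ρ := by exact_mod_cast hρ
  have h2 : (M : ℝ) ≤ ρ + 1 := by
    have : M ≤ ρ + 1 := by omega
    exact_mod_cast this
  have h3 : (0 : ℝ) < M := by
    have : (ρ : ℝ) ≤ M := by exact_mod_cast hM
    linarith
  have h5 : 1 ≤ 4 * ((ρ : ℝ) / M) := by
    rw [mul_div_assoc', le_div_iff₀ h3]
    linarith
  have h7 := Real.one_le_rpow h5 hα.le
  rw [Real.mul_rpow (by norm_num) (by positivity)] at h7
  nlinarith

lemma HCc.iff_du {F ω : Finset (ℤ × ℤ)} (hEF : E ⊆ F) : HCc Φ E z' B ρ M ω ↔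
    HC Φ (E.map sh1) z' (B - 1) (ρ + 1) (M - 1) (du F ω) := by
  unfold HCc
  constructor <;> intro h
  · refine h.mono fun l hl => ?_
    obtain ⟨e, rfl⟩ := ex_shift l
    have h1 := (mem_inter.1 hl).1
    unfold du at h1 ⊢
    rw [mem_sh1, mem_sdiff] at h1 ⊢
    exact ⟨hEF h1.1, h1.2⟩
  · refine h.mono fun l hl => ?_
    obtain ⟨e, rfl⟩ := ex_shift l
    have h1 := (mem_inter.1 hl).1
    have h2 := (mem_inter.1 (mem_inter.1 hl).2).1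
    unfold du at h1 ⊢
    rw [mem_sh1] at h2
    rw [mem_sh1, mem_sdiff] at h1 ⊢
    exact ⟨h2, h1.2⟩

lemma HCc.iff_inter (C : DCt Φ s z z') {ω : Finset (ℤ × ℤ)} :
    HCc Φ E z' B ρ M (ω ∩ (E ∩ An z ρ M)) ↔ HCc Φ E z' B ρ M ω := by
  constructor
  · intro h
    exact h.mono C fun l hl hlω => mem_inter.2 ⟨hlω, hl⟩
  · intro h
    exact h.mono C fun l _ hlω => (mem_inter.1 hlω).1

/-- **The closed half circuit exists with high probability**, natural weights -/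
theorem prm_halfc : ∃ C α : ℝ, 0 < C ∧ 0 < α ∧
    ∀ (Φ : SyC) (E : Finset (ℤ × ℤ)) (z z' : ℤ × ℤ) (s κu κd N ρ M B : ℤ),
    (Φ = chH s ∨ Φ = chV s) → DCt Φ s z z' → (κu = 1 ∨ κu = -1) → (κd = 1 ∨ κd = -1) → 1 ≤ ρ → 0 ≤ N →
    N ≤ ρ + 1 → ρ ≤ M → M + 1 ≤ B → PRm Φ E z κu κd B N → ∀ F : Finset (ℤ × ℤ), E ∩ An z ρ M ⊆ F →
    Pr F (fun ω => ¬ HCc Φ E z' B ρ M ω) ≤ C * ((ρ : ℝ) / M) ^ α := by
  obtain ⟨C, α, hC, hα, h⟩ := prm_half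
  refine ⟨(C + 1) * 4 ^ α, α, by positivity, hα, fun Φ E z z' s κu κd N ρ M B hΦ hD hu hd hρ hN hNρ hρM
    hMB R F hF => ?_⟩
  by_cases hM2 : ρ + 2 ≤ M
  swap
  · exact (Pr_le_one _ _).trans (rpow_dual' hC hα hρ hρM hM2)
  -- from `F` to `E`
  have e1 : Pr F (fun ω => ¬ HCc Φ E z' B ρ M ω) = Pr E (fun ω => ¬ HCc Φ E z' B ρ M ω) := by
    have a1 : ∀ F : Finset (ℤ × ℤ), E ∩ An z ρ M ⊆ F → Pr F (fun ω => ¬ HCc Φ E z' B ρ M ω) =
        Pr (E ∩ An z ρ M) (fun ω => ¬ HCc Φ E z' B ρ M ω) := by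
      intro F hF
      rw [← Pr_restrict hF (fun ω => ¬ HCc Φ E z' B ρ M ω)]
      exact Pr_congr fun ω _ => not_congr (HCc.iff_inter hD).symm
    rw [a1 F hF, a1 E inter_subset_left]
  rw [e1]
  have e2 : Pr E (fun ω => ¬ HCc Φ E z' B ρ M ω) = Pr (E.map sh1)
      (fun ω => ¬ HC Φ (E.map sh1) z' (B - 1) (ρ + 1) (M - 1) ω) :=
    Pr_du E (fun ω => ¬ HC Φ (E.map sh1) z' (B - 1) (ρ + 1) (M - 1) ω)
  rw [e2]
  refine le_trans (h Φ (E.map sh1) z' s κu κd (N + 1) (ρ + 1) (M - 1) (B - 1) hD.hs hΦ hu hd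
    (by omega) (by omega) (by omega) (by omega) (by omega) (R.dual hD hu hd) (E.map sh1)
    inter_subset_left) ?_
  exact rpow_dual hC hα hρ hM2

/-- the same for coin measures which are natural in the annulus -/
theorem prm_halfcB : ∃ C α : ℝ, 0 < C ∧ 0 < α ∧
    ∀ (Φ : SyC) (E : Finset (ℤ × ℤ)) (z z' : ℤ × ℤ) (s κu κd N ρ M B : ℤ),
    (Φ = chH s ∨ Φ = chV s) → DCt Φ s z z' → (κu = 1 ∨ κu = -1) → (κd = 1 ∨ κd = -1) → 1 ≤ ρ → 0 ≤ N →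
    N ≤ ρ + 1 → ρ ≤ M → M + 1 ≤ B → PRm Φ E z κu κd B N → ∀ F : Finset (ℤ × ℤ), E ∩ An z ρ M ⊆ F →
    ∀ (β : Type u) [DecidableEq β] (b : ℤ × ℤ → β), (∀ l ∈ E ∩ An z ρ M, ∀ l' ∈ E ∩ An z ρ M, b l = b l' →
      l = l') →
    Pool.Agent.H58.W.PB F b (fun ω => ¬ HCc Φ E z' B ρ M ω) ≤ C * ((ρ : ℝ) / M) ^ α := by
  obtain ⟨C, α, hC, hα, h⟩ := prm_halfc
  refine ⟨C, α, hC, hα, fun Φ E z z' s κu κd N ρ M B hΦ hD hu hd hρ hN hNρ hρM hMB R F hF β _ b hb => ?_⟩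
  refine le_trans (le_of_eq ?_) (h Φ E z z' s κu κd N ρ M B hΦ hD hu hd hρ hN hNρ hρM hMB R
    (E ∩ An z ρ M) subset_rfl)
  rw [← PB_inj hb, ← PB_restrict hF b (fun ω => ¬ HCc Φ E z' B ρ M ω)]
  exact PB_congr fun ω _ => not_congr (HCc.iff_inter hD).symm

end Pool.Agent.H70.W
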