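import Mathlib
import Pool.Agent.H74.W.World
import Pool.Agent.H70.W.WallCor

set_option autoImplicit false
open Finset

/-!
# StCor, part 1: the right convex corner `m4` of a shape

`Cr S T ν` : `T` = grid vertex of the mark `m4`, `ν = 0` : the side before it is a floor, `ν = 1` : the side
after it is a ceiling. Tile coordinates relative to the vertex: `x' = x - n T.1`, `y' = y - n T.2`.
-/

namespace Pool.Agent.H70.SC

open Pool.Agent.H75.Perc hiding WL CT hh PB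
open Pool.Agent.H75.TwoArm Pool.Agent.H75.Four Pool.Agent.Q1
open Pool.Agent.H99.NC (BR inR inR_iff)
open Pool.Agent.H70.W hiding Shape Sd
open Pool.Agent.Q1.M4 (Cell Good IsSide nextSide tail head PType)
open Pool.Agent.H33.Q1 Pool.Agent.H21.FM
open Pool.Agent.H13.W (SG eW eE eS eN)
open Pool.Agent.H37.W (dg cvx_cells dg_eq)
open Pool.Agent.H33.FM (side_isSide side_inj)
open Pool.Agent.H74.W (Del Ex Aft Cv Lam3 Wp yy GW RgtM)

/-- the right convex corner at the fourth mark -/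
structure Cr (S : Shape) (T : ℤ × ℤ) (ν : ℕ) : Prop where
  hν : ν = 0 ∨ ν = 1
  tl : tail (S.P.side S.m4) = T
  cin : (T.1 - 1, T.2 - (ν : ℤ)) ∈ S.P.Q
  c1 : (T.1, T.2) ∉ S.P.Q
  c2 : (T.1, T.2 - 1) ∉ S.P.Q
  c3 : (T.1 - 1, T.2 - 1 + (ν : ℤ)) ∉ S.P.Q
  sR : (S.P.side (S.m4 - ν)).1 = (T.1 - 1, T.2 - (ν : ℤ))
  kR : (S.P.side (S.m4 - ν)).2 % 4 = 1
  sO : (S.P.side (S.m4 - 1 + ν)).1 = (T.1 - 1, T.2 - (ν : ℤ))
  kO : (S.P.side (S.m4 - 1 + ν)).2 % 4 = 2 * (ν : ℤ)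

theorem cr_of (S : Shape) (hr : RgtM S) : ∃ ν, Cr S (tail (S.P.side S.m4)) ν := by
  obtain ⟨a1, a2, a3, a4⟩ := S.pos
  have hm : S.m4 - 1 + 1 = S.m4 := by omega
  have hc := S.cvx (S.m4 - 1) (Or.inr (Or.inr (Or.inl hm)))
  have hcc := cvx_cells (S := S) (i := S.m4 - 1) hc
  rw [hm] at hc
  obtain ⟨h1, h2⟩ := side_isSide S (S.m4 - 1)
  obtain ⟨C, hC⟩ : ∃ C, C = (S.P.side (S.m4 - 1)).1 := ⟨_, rfl⟩
  obtain ⟨k, hk⟩ : ∃ k, k = (S.P.side (S.m4 - 1)).2 := ⟨_, rfl⟩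
  rw [← hC, ← hk] at hcc h2
  rw [← hC] at h1
  rw [← hC, ← hk] at hc
  have hkm : S.k S.m4 = k + 1 := by unfold Shape.k; rw [hc]
  unfold RgtM at hr
  rw [hkm] at hr
  obtain ⟨X, Y⟩ := C
  rcases hr with hr | hr
  · refine ⟨0, ?_⟩
    have e1 : dir k = (1, 0) := by
      rcases dir_cases k with ⟨h, e⟩ | ⟨h, e⟩ | ⟨h, e⟩ | ⟨h, e⟩ <;> first | exact e | (exfalso; omega)
    have e2 : dir (k - 1) = (0, -1) := by
      rcases dir_cases (k - 1) with ⟨h, e⟩ | ⟨h, e⟩ | ⟨h, e⟩ | ⟨h, e⟩ <;>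
        first | exact e | (exfalso; omega)
    have ht : tail (S.P.side S.m4) = (X + 1, Y) := by
      rw [hc]; unfold tail; simp only
      rw [if_neg (by omega), if_pos hr]
      simp
    rw [e1, e2] at hcc
    rw [e2] at h2
    simp only [Prod.mk_add_mk] at hcc h2
    refine ⟨Or.inl rfl, rfl, ?_, ?_, ?_, ?_, ?_, ?_, ?_, ?_⟩
    · rw [ht]; simpa using h1
    · rw [ht]; simpa using hcc.2
    · rw [ht]; simpa [sub_eq_add_neg] using hcc.1
    · rw [ht]; simpa [sub_eq_add_neg] using h2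
    · rw [ht, Nat.sub_zero, hc]; simp
    · rw [Nat.sub_zero, hc]; exact hr
    · rw [ht, Nat.add_zero, ← hC]; simp
    · rw [Nat.add_zero, ← hk]; push_cast; omega
  · refine ⟨1, ?_⟩
    have e1 : dir k = (0, 1) := by
      rcases dir_cases k with ⟨h, e⟩ | ⟨h, e⟩ | ⟨h, e⟩ | ⟨h, e⟩ <;> first | exact e | (exfalso; omega)
    have e2 : dir (k - 1) = (1, 0) := by
      rcases dir_cases (k - 1) with ⟨h, e⟩ | ⟨h, e⟩ | ⟨h, e⟩ | ⟨h, e⟩ <;>
        first | exact e | (exfalso; omega)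
    have ht : tail (S.P.side S.m4) = (X + 1, Y + 1) := by
      rw [hc]; unfold tail; simp only
      rw [if_neg (by omega), if_neg (by omega), if_pos hr]
      simp
    rw [e1, e2] at hcc
    rw [e2] at h2
    simp only [Prod.mk_add_mk] at hcc h2
    refine ⟨Or.inr rfl, rfl, ?_, ?_, ?_, ?_, ?_, ?_, ?_, ?_⟩
    · rw [ht]; simpa using h1
    · rw [ht]; simpa using hcc.1
    · rw [ht]; simpa using h2
    · rw [ht]; simpa using hcc.2
    · rw [ht, ← hC]; simp
    · rw [← hk]; omega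
    · rw [ht, hm, hc]; simp
    · rw [hm, hc]; simp only; push_cast; omega

variable {S : Shape} {T : ℤ × ℤ} {ν : ℕ} {n : ℤ}

/-- the cell of a tile near the vertex -/
lemma ct_near (hn : 0 < n) {p : ℤ × ℤ} (h1 : -n ≤ p.1 - n * T.1) (h2 : p.1 - n * T.1 < n)
    (h3 : -n ≤ p.2 - n * T.2) (h4 : p.2 - n * T.2 < n) :
    ct n p = (if p.1 - n * T.1 < 0 then T.1 - 1 else T.1,
      if p.2 - n * T.2 < 0 then T.2 - 1 else T.2) := by
  rw [ct_eq hn]
  have e1 : ∀ a : ℤ, (a - 1) * n = n * a - n := by intro a; ring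
  have e2 : ∀ a : ℤ, a * n = n * a := by intro a; ring
  constructor
  · simp only
    split_ifs
    · rw [e1]; omega
    · rw [e2]; omega
  · simp only
    split_ifs
    · rw [e1]; omega
    · rw [e2]; omega

/-- the room near the corner -/
lemma Cr.mem (C : Cr S T ν) (hn : 0 < n) {p : ℤ × ℤ} (h1 : -n ≤ p.1 - n * T.1) (h2 : p.1 - n * T.1 < n)
    (h3 : -n ≤ p.2 - n * T.2) (h4 : p.2 - n * T.2 < n) :
    ct n p ∈ S.P.Q ↔ p.1 - n * T.1 < 0 ∧ (p.2 - n * T.2 < 0 ↔ ν = 1) := by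
  rw [ct_near hn h1 h2 h3 h4]
  rcases C.hν with rfl | rfl
  · have k1 := C.cin; have k2 := C.c1; have k3 := C.c2; have k4 := C.c3
    simp only [Nat.cast_zero, sub_zero, add_zero] at k1 k4
    split_ifs with g1 g2 g2
    · simp [k4, g1, g2]
    · simp [k1, g1, g2]
    · simp [k3, g1]
    · simp [k2, g1]
  · have k1 := C.cin; have k2 := C.c1; have k3 := C.c2; have k4 := C.c3
    simp only [Nat.cast_one, sub_add_cancel] at k1 k4
    split_ifs with g1 g2 g2
    · simp [k1, g1, g2]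
    · simp [k4, g1, g2]
    · simp [k3, g1]
    · simp [k2, g1]

/-- its cell -/
lemma Cr.cell (C : Cr S T ν) (hn : 0 < n) {p : ℤ × ℤ} (h1 : -n ≤ p.1 - n * T.1)
    (h2 : p.1 - n * T.1 < n) (h3 : -n ≤ p.2 - n * T.2) (h4 : p.2 - n * T.2 < n) (h5 : ct n p ∈ S.P.Q) :
    ct n p = (T.1 - 1, T.2 - (ν : ℤ)) := by
  have h6 := (C.mem hn h1 h2 h3 h4).1 h5
  rw [ct_near hn h1 h2 h3 h4, if_pos h6.1]
  rcases C.hν with rfl | rfl
  · rw [if_neg (by omega)]; simp
  · rw [if_pos (by omega)]; simp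

/-- **the layers near the corner**: only the two sides at the corner -/
lemma Cr.layer (C : Cr S T ν) (hn : 0 < n) {p : ℤ × ℤ} (h1 : -n < p.1 - n * T.1)
    (h2 : p.1 - n * T.1 < n - 1) (h3 : -n < p.2 - n * T.2) (h4 : p.2 - n * T.2 < n - 1) {i : ℕ}
    (hi : i < S.N) (he : lt p ∈ LY n (S.P.side i)) :
    (i = S.m4 - ν ∧ p.1 - n * T.1 = 0 ∧ (p.2 - n * T.2 < 0 ↔ ν = 1)) ∨
    (i = S.m4 - 1 + ν ∧ p.1 - n * T.1 < 0 ∧ p.2 - n * T.2 = (ν : ℤ) - 1) := by
  obtain ⟨a1, a2, a3, a4⟩ := S.pos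
  rw [mem_LY hn, tt_lt] at he
  obtain ⟨-, he1, he2⟩ := he
  obtain ⟨hs1, hs2⟩ := side_isSide S i
  have hR := C.sR
  have hkR := C.kR
  have hO := C.sO
  have hkO := C.kO
  have hν := C.hν
  -- the inner tile
  obtain ⟨q, hq⟩ : ∃ q, q = p - dir ((S.P.side i).2 - 1) := ⟨_, rfl⟩
  rw [← hq] at he2
  have hqQ : ct n q ∈ S.P.Q := by rw [he2]; exact hs1
  have hpQ : ct n p ∉ S.P.Q := by rw [he1]; exact hs2
  have hp := fun h => hpQ ((C.mem hn (by omega) (by omega) (by omega) (by omega)).2 h)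
  obtain ⟨k, hk⟩ : ∃ k, k = (S.P.side i).2 := ⟨_, rfl⟩
  rw [← hk] at hq
  have hqc : q = (p.1 - (dir (k - 1)).1, p.2 - (dir (k - 1)).2) := by rw [hq]; rfl
  rcases dir_cases (k - 1) with ⟨g, e⟩ | ⟨g, e⟩ | ⟨g, e⟩ | ⟨g, e⟩ <;> rw [e] at hqc <;>
    simp only at hqc <;>
    (have hq' := (C.mem (p := q) hn (by rw [hqc]; simp only; omega) (by rw [hqc]; simp only; omega)
      (by rw [hqc]; simp only; omega) (by rw [hqc]; simp only; omega)).1 hqQ
     have hcell := C.cell (p := q) hn (by rw [hqc]; simp only; omega) (by rw [hqc]; simp only; omega)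
      (by rw [hqc]; simp only; omega) (by rw [hqc]; simp only; omega) hqQ
     rw [hqc] at hq'
     simp only at hq')
  · -- right wall
    left
    have hi' : i = S.m4 - ν := by
      apply side_inj S hi (by omega)
      · rw [← he2, hcell, hR]
      · rw [← hk]; omega
    refine ⟨hi', ?_, ?_⟩
    · by_contra hne
      exact hp ⟨by omega, by omega⟩
    · omega
  · -- above
    right
    have hν1 : ν = 1 := by
      rcases hν with rfl | rfl
      · exfalso
        exact hp ⟨by omega, by omega⟩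
      · rfl
    subst hν1
    have hi' : i = S.m4 - 1 + 1 := by
      apply side_inj S hi (by omega)
      · rw [← he2, hcell, hO]
      · rw [← hk]; push_cast at hkO; omega
    refine ⟨hi', by omega, ?_⟩
    by_contra hne
    push_cast at hne
    exact hp ⟨by omega, by omega⟩
  · -- left wall: impossible
    exfalso
    exact hp ⟨by omega, by omega⟩
  · -- below
    right
    have hν0 : ν = 0 := by
      rcases hν with rfl | rfl
      · rfl
      · exfalso
        exact hp ⟨by omega, by omega⟩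
    subst hν0
    have hi' : i = S.m4 - 1 + 0 := by
      apply side_inj S hi (by omega)
      · rw [← he2, hcell, hO]
      · rw [← hk]; push_cast at hkO; omega
    refine ⟨hi', by omega, ?_⟩
    by_contra hne
    push_cast at hne
    exact hp ⟨by omega, by omega⟩

/-- tiles of the right wall at the corner -/
lemma Cr.memR (C : Cr S T ν) (hn : 0 < n) {p : ℤ × ℤ} (h1 : p.1 - n * T.1 = 0)
    (h3 : -n ≤ p.2 - n * T.2) (h4 : p.2 - n * T.2 < n) (h5 : p.2 - n * T.2 < 0 ↔ ν = 1) :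
    lt p ∈ LY n (S.P.side (S.m4 - ν)) := by
  rw [mem_LY hn, tt_lt, C.sR]
  have e : dir ((S.P.side (S.m4 - ν)).2 - 1) = (1, 0) := by
    have := C.kR
    rcases dir_cases ((S.P.side (S.m4 - ν)).2 - 1) with ⟨h, e⟩ | ⟨h, e⟩ | ⟨h, e⟩ | ⟨h, e⟩ <;>
      first | exact e | (exfalso; omega)
  rw [e]
  have hν := C.hν
  refine ⟨lt_odd p, ?_, ?_⟩
  · rw [ct_near (T := T) hn (by omega) (by omega) h3 h4]
    rcases hν with rfl | rfl
    · rw [if_neg (by omega), if_neg (by omega)]; simp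
    · rw [if_neg (by omega), if_pos (by omega)]; simp
  · rw [ct_near (T := T) (p := p - (1, 0)) hn (by simp only [Prod.fst_sub]; omega)
      (by simp only [Prod.fst_sub]; omega) (by simp only [Prod.snd_sub]; omega)
      (by simp only [Prod.snd_sub]; omega)]
    simp only [Prod.fst_sub, Prod.snd_sub]
    rcases hν with rfl | rfl
    · rw [if_pos (by omega), if_neg (by omega)]; simp
    · rw [if_pos (by omega), if_pos (by omega)]; simp

/-- tiles of the other wall at the corner -/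
lemma Cr.memO (C : Cr S T ν) (hn : 0 < n) {p : ℤ × ℤ} (h1 : -n ≤ p.1 - n * T.1)
    (h2 : p.1 - n * T.1 < 0) (h3 : p.2 - n * T.2 = (ν : ℤ) - 1) :
    lt p ∈ LY n (S.P.side (S.m4 - 1 + ν)) := by
  rw [mem_LY hn, tt_lt, C.sO]
  have hν := C.hν
  have hk := C.kO
  rcases hν with rfl | rfl
  · have e : dir ((S.P.side (S.m4 - 1 + 0)).2 - 1) = (0, -1) := by
      push_cast at hk
      rcases dir_cases ((S.P.side (S.m4 - 1 + 0)).2 - 1) with ⟨h, e⟩ | ⟨h, e⟩ | ⟨h, e⟩ | ⟨h, e⟩ <;>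
        first | exact e | (exfalso; omega)
    rw [e]
    refine ⟨lt_odd p, ?_, ?_⟩
    · rw [ct_near (T := T) hn h1 (by omega) (by push_cast at h3; omega) (by push_cast at h3; omega),
        if_pos h2, if_pos (by push_cast at h3; omega)]
      simp [sub_eq_add_neg]
    · rw [ct_near (T := T) (p := p - (0, -1)) hn (by simp only [Prod.fst_sub]; omega)
        (by simp only [Prod.fst_sub]; omega) (by simp only [Prod.snd_sub]; push_cast at h3; omega)
        (by simp only [Prod.snd_sub]; push_cast at h3; omega)]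
      simp only [Prod.fst_sub, Prod.snd_sub]
      rw [if_pos (by omega), if_neg (by push_cast at h3; omega)]; simp
  · have e : dir ((S.P.side (S.m4 - 1 + 1)).2 - 1) = (0, 1) := by
      push_cast at hk
      rcases dir_cases ((S.P.side (S.m4 - 1 + 1)).2 - 1) with ⟨h, e⟩ | ⟨h, e⟩ | ⟨h, e⟩ | ⟨h, e⟩ <;>
        first | exact e | (exfalso; omega)
    rw [e]
    refine ⟨lt_odd p, ?_, ?_⟩
    · rw [ct_near (T := T) hn h1 (by omega) (by push_cast at h3; omega) (by push_cast at h3; omega),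
        if_pos h2, if_neg (by push_cast at h3; omega)]
      simp
    · rw [ct_near (T := T) (p := p - (0, 1)) hn (by simp only [Prod.fst_sub]; omega)
        (by simp only [Prod.fst_sub]; omega) (by simp only [Prod.snd_sub]; push_cast at h3; omega)
        (by simp only [Prod.snd_sub]; push_cast at h3; omega)]
      simp only [Prod.fst_sub, Prod.snd_sub]
      rw [if_pos (by omega), if_pos (by push_cast at h3; omega)]; simp

/-- the diagonal tile at the vertex -/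
lemma Cr.diag (C : Cr S T ν) {h : ℕ} : dg S h (S.m4 - 1) =
    lt (2 * (h : ℤ) * T.1, 2 * (h : ℤ) * T.2 + ((ν : ℤ) - 1)) := by
  obtain ⟨a1, a2, a3, a4⟩ := S.pos
  rw [dg_eq]
  congr 1
  have hν := C.hν
  have hm : S.m4 - 1 + 1 = S.m4 := by omega
  unfold ot it wp
  rw [tail_io]
  rcases hν with rfl | rfl
  · have h1 := C.sO
    have h2 := C.kO
    rw [Nat.add_zero] at h1 h2
    push_cast at h1 h2
    rcases io_dir (S.P.side (S.m4 - 1)).2 with ⟨a, b, c, d⟩ | ⟨a, b, c, d⟩ | ⟨a, b, c, d⟩ | ⟨a, b, c, d⟩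
    · rw [b, c, d, h1]
      refine Prod.ext ?_ ?_ <;> simp only [Prod.fst_add, Prod.snd_add, Prod.fst_sub, Prod.snd_sub] <;>
        push_cast <;> ring
    all_goals (exfalso; omega)
  · have h1 := C.sR
    have h2 := C.kR
    push_cast at h1 h2
    rcases io_dir (S.P.side (S.m4 - 1)).2 with ⟨a, b, c, d⟩ | ⟨a, b, c, d⟩ | ⟨a, b, c, d⟩ | ⟨a, b, c, d⟩
    · exfalso; omega
    · rw [b, c, d, h1]
      refine Prod.ext ?_ ?_ <;> simp only [Prod.fst_add, Prod.snd_add, Prod.fst_sub, Prod.snd_sub] <;>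
        push_cast <;> ring
    all_goals (exfalso; omega)

/-- a diagonal tile near the vertex is the one at the vertex -/
lemma Cr.dg_near (C : Cr S T ν) {h : ℕ} (hh : 0 < h) {i : ℕ} (hi : i < S.N) (hc : Cv S i) {p : ℤ × ℤ}
    (h1 : -(2 * (h : ℤ)) < p.1 - 2 * (h : ℤ) * T.1) (h2 : p.1 - 2 * (h : ℤ) * T.1 < 2 * (h : ℤ) - 1)
    (h3 : -(2 * (h : ℤ)) < p.2 - 2 * (h : ℤ) * T.2) (h4 : p.2 - 2 * (h : ℤ) * T.2 < 2 * (h : ℤ) - 1)
    (he : dg S h i = lt p) : p.1 - 2 * (h : ℤ) * T.1 = 0 ∧ p.2 - 2 * (h : ℤ) * T.2 = (ν : ℤ) - 1 := by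
  have hn : (0 : ℤ) < 2 * (h : ℤ) := by omega
  rw [dg_eq] at he
  have hp := lt_inj he
  -- the three cells at the vertex
  have hcc := cvx_cells (S := S) (i := i) hc.1
  obtain ⟨hs1, hs2⟩ := side_isSide S i
  obtain ⟨c, hcd⟩ : ∃ c, c = (S.P.side i).1 := ⟨_, rfl⟩
  obtain ⟨k, hkd⟩ : ∃ k, k = (S.P.side i).2 := ⟨_, rfl⟩
  rw [← hcd] at hs1
  -- the inner tile at the end of the side
  obtain ⟨q, hq⟩ : ∃ q : ℤ × ℤ, q = p - dir k - dir (k - 1) := ⟨_, rfl⟩
  have hqc : ct (2 * (h : ℤ)) q = c := by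
    rw [ct_eq hn, hq, ← hp]
    unfold ot it wp
    rw [tail_io, ← hkd, ← hcd]
    rcases io_dir k with ⟨-, b, c', d⟩ | ⟨-, b, c', d⟩ | ⟨-, b, c', d⟩ | ⟨-, b, c', d⟩ <;>
      rw [b, c', d] <;>
      simp only [Prod.fst_add, Prod.snd_add, Prod.fst_sub, Prod.snd_sub] <;>
      refine ⟨⟨?_, ?_⟩, ?_, ?_⟩ <;> nlinarith
  have hqQ : ct (2 * (h : ℤ)) q ∈ S.P.Q := by rw [hqc]; exact hs1
  -- the cell of `p`
  have hpc : ct (2 * (h : ℤ)) p = c + dir k + dir (k - 1) := by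
    rw [ct_eq hn, ← hp]
    unfold ot it wp
    rw [tail_io, ← hkd, ← hcd]
    rcases io_dir k with ⟨-, b, c', d⟩ | ⟨-, b, c', d⟩ | ⟨-, b, c', d⟩ | ⟨-, b, c', d⟩ <;>
      rw [b, c', d] <;>
      simp only [Prod.fst_add, Prod.snd_add, Prod.fst_sub, Prod.snd_sub] <;>
      refine ⟨⟨?_, ?_⟩, ?_, ?_⟩ <;> nlinarith
  have hcell : ct (2 * (h : ℤ)) p = (if p.1 - 2 * (h : ℤ) * T.1 < 0 then T.1 - 1 else T.1,
      if p.2 - 2 * (h : ℤ) * T.2 < 0 then T.2 - 1 else T.2) :=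
    ct_near hn (by omega) (by omega) (by omega) (by omega)
  have hν := C.hν
  have hd : dir k + dir (k - 1) = (1, 1) ∨ dir k + dir (k - 1) = (1, -1) ∨
      dir k + dir (k - 1) = (-1, 1) ∨ dir k + dir (k - 1) = (-1, -1) := by
    rcases io_dir k with ⟨-, -, c', d⟩ | ⟨-, -, c', d⟩ | ⟨-, -, c', d⟩ | ⟨-, -, c', d⟩ <;>
      rw [c', d] <;> simp
  have hq1 : q = (p.1 - (dir k + dir (k - 1)).1, p.2 - (dir k + dir (k - 1)).2) := by
    rw [hq]
    refine Prod.ext ?_ ?_ <;> simp only [Prod.fst_add, Prod.snd_add, Prod.fst_sub, Prod.snd_sub] <;> ring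
  rcases hd with hd | hd | hd | hd <;> rw [hd] at hq1 <;> simp only at hq1 <;>
    (have hq' := (C.mem (p := q) hn (by rw [hq1]; simp only; omega) (by rw [hq1]; simp only; omega)
      (by rw [hq1]; simp only; omega) (by rw [hq1]; simp only; omega)).1 hqQ
     have hcl := C.cell (p := q) hn (by rw [hq1]; simp only; omega) (by rw [hq1]; simp only; omega)
      (by rw [hq1]; simp only; omega) (by rw [hq1]; simp only; omega) hqQ
     rw [hqc] at hcl
     rw [add_assoc, hd, hcl, hcell] at hpc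
     simp only [Prod.mk_add_mk, Prod.mk.injEq] at hpc
     obtain ⟨g1, g2⟩ := hpc
     rw [hq1] at hq'
     simp only at hq'
     rcases hν with rfl | rfl <;> push_cast at g1 g2 ⊢ <;> split_ifs at g1 g2 <;> omega)

end Pool.Agent.H70.SC
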