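import Mathlib
import Pool.Agent.H70.W.Cor1

set_option autoImplicit false
open Finset

/-!
# StCor, part 2: the world of an end near the right convex corner `m4`, block, four mark world
-/

namespace Pool.Agent.H70.SC

open Pool.Agent.H75.Perc hiding WL CT hh PB
open Pool.Agent.H75.TwoArm Pool.Agent.H75.Four Pool.Agent.Q1
open Pool.Agent.H99.NC (BR inR inR_iff)
open Pool.Agent.H70.W hiding Shape Sd
open Pool.Agent.Q1.M4 (Cell Good IsSide nextSide tail head PType)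
open Pool.Agent.H33.Q1 Pool.Agent.H21.FM
open Pool.Agent.H13.W (SG eW eE eS eN TJ TJ_congr)
open Pool.Agent.H37.W (dg cvx_cells dg_eq LamOK LamS mem_LamS FF Mk dg_inj dg_not_EE dg_not_LY x1 x2 x3 x4
  Conf mk1 mk2 mk3 mk4 plab_x1 lab_x2 plab_x3 lab_x4)
open Pool.Agent.H33.FM (side_isSide side_inj)
open Pool.Agent.H74.W (Del Ex Aft Cv Lam3 Wp yy GW RgtM)

variable {S : Shape} {T : ℤ × ℤ} {ν h : ℕ} {p0 p q : ℤ × ℤ} {a ρ B M : ℤ} {ω : Finset (ℤ × ℤ)}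

/-- the lattice vertex of a grid vertex -/
def zT (h : ℕ) (T : ℤ × ℤ) : ℤ × ℤ := ((h : ℤ) * (T.1 - T.2), (h : ℤ) * (T.1 + T.2))

lemma wv_zero (s : Cell × ℤ) : wv h s 0 = zT h (tail s) := by
  unfold wv zT
  simp

lemma zT1 (h : ℕ) (T : ℤ × ℤ) : 2 * (zT h T).1 = 2 * (h : ℤ) * T.1 - 2 * (h : ℤ) * T.2 := by
  unfold zT; ring

lemma zT2 (h : ℕ) (T : ℤ × ℤ) : 2 * (zT h T).2 = 2 * (h : ℤ) * T.1 + 2 * (h : ℤ) * T.2 := by
  unfold zT; ring

lemma mem_lt : lt p ∈ BR (zT h T) B ↔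
    (-(2 * B) ≤ (p.1 - 2 * (h : ℤ) * T.1) - (p.2 - 2 * (h : ℤ) * T.2) ∧
      (p.1 - 2 * (h : ℤ) * T.1) - (p.2 - 2 * (h : ℤ) * T.2) ≤ 2 * B) ∧
    (-(2 * B) ≤ (p.1 - 2 * (h : ℤ) * T.1) + (p.2 - 2 * (h : ℤ) * T.2) + 1 ∧
      (p.1 - 2 * (h : ℤ) * T.1) + (p.2 - 2 * (h : ℤ) * T.2) + 1 ≤ 2 * B) := by
  have h1 := zT1 h T
  have h2 := zT2 h T
  rw [mem_BR]
  have h3 := lt_odd p
  unfold lt at h3 ⊢
  simp only at h3 ⊢
  constructor
  · rintro ⟨⟨a, b⟩, ⟨c, d⟩, -⟩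
    refine ⟨⟨by linarith, by linarith⟩, by linarith, by linarith⟩
  · rintro ⟨⟨a, b⟩, c, d⟩
    exact ⟨⟨by linarith, by linarith⟩, ⟨by linarith, by linarith⟩, h3⟩

lemma near_of (hB : B < h) (hp : lt p ∈ BR (zT h T) B) :
    (-(2 * (h : ℤ)) < p.1 - 2 * (h : ℤ) * T.1 ∧ p.1 - 2 * (h : ℤ) * T.1 < 2 * (h : ℤ) - 1) ∧
    (-(2 * (h : ℤ)) < p.2 - 2 * (h : ℤ) * T.2 ∧ p.2 - 2 * (h : ℤ) * T.2 < 2 * (h : ℤ) - 1) := by
  rw [mem_lt] at hp
  omega

lemma ex_lt {l : ℤ × ℤ} (ho : (l.1 + l.2) % 2 = 1) : ∃ p, l = lt p := ⟨tt l, (lt_tt ho).symm⟩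

/-- the chart at the corner -/
def Fc (ν : ℕ) : SyC := if ν = 0 then chH (-1) else chV (-1)

/-- chart coordinates of a tile relative to the vertex -/
lemma coo (hν : ν = 0 ∨ ν = 1) (p : ℤ × ℤ) :
    (ν = 0 → ((Fc ν).G (lt p)).1 - 2 * ((Fc ν).g (zT h T)).1 =
        (p.2 - 2 * (h : ℤ) * T.2) - (p.1 - 2 * (h : ℤ) * T.1) ∧
      ((Fc ν).G (lt p)).2 - 2 * ((Fc ν).g (zT h T)).2 =
        (p.1 - 2 * (h : ℤ) * T.1) + (p.2 - 2 * (h : ℤ) * T.2) + 1) ∧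
    (ν = 1 → ((Fc ν).G (lt p)).1 - 2 * ((Fc ν).g (zT h T)).1 =
        -((p.1 - 2 * (h : ℤ) * T.1) + (p.2 - 2 * (h : ℤ) * T.2)) - 1 ∧
      ((Fc ν).G (lt p)).2 - 2 * ((Fc ν).g (zT h T)).2 =
        (p.1 - 2 * (h : ℤ) * T.1) - (p.2 - 2 * (h : ℤ) * T.2)) := by
  have h1 := zT1 h T
  have h2 := zT2 h T
  have hs : (-1 : ℤ) = 1 ∨ (-1 : ℤ) = -1 := Or.inr rfl
  rcases hν with rfl | rfl
  · refine ⟨fun _ => ?_, fun h => by omega⟩
    have e : Fc 0 = chH (-1) := if_pos rfl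
    rw [e, (chH_G hs _).1, (chH_G hs _).2, (chH_g hs _).1, (chH_g hs _).2]
    unfold lt
    simp only
    constructor <;> linarith
  · refine ⟨fun h => by omega, fun _ => ?_⟩
    have e : Fc 1 = chV (-1) := if_neg (by omega)
    rw [e, (chV_G hs _).1, (chV_G hs _).2, (chV_g hs _).1, (chV_g hs _).2]
    unfold lt
    simp only
    constructor <;> linarith

lemma EE_iff (C : Cr S T ν) (hh : 0 < h) (hB : B < h) (hp : lt p ∈ BR (zT h T) B) :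
    lt p ∈ EE S h ↔ p.1 - 2 * (h : ℤ) * T.1 < 0 ∧ (p.2 - 2 * (h : ℤ) * T.2 < 0 ↔ ν = 1) := by
  have hn : (0 : ℤ) < 2 * (h : ℤ) := by omega
  have h1 := near_of hB hp
  unfold Pool.Agent.H21.FM.EE
  rw [lt_mem_TL hn]
  exact C.mem hn (by omega) (by omega) (by omega) (by omega)

lemma EE_odd (hh : 0 < h) {l : ℤ × ℤ} (hl : l ∈ EE S h) : (l.1 + l.2) % 2 = 1 := by
  have hn : (0 : ℤ) < 2 * (h : ℤ) := by omega
  unfold Pool.Agent.H21.FM.EE at hl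
  exact ((mem_TL hn).1 hl).1

/-- **the room at the corner** -/
theorem prm_cor (C : Cr S T ν) (hh : 0 < h) (hB : B < h) : PRm (Fc ν) (EE S h) (zT h T) 1 1 B 0 := by
  have hν := C.hν
  refine ⟨fun l hl => EE_odd hh hl, fun l hl hlB h1 => ?_, fun l hl hlB h1 => ?_, fun l hlB h1 h2 => ?_,
    fun l hl l' hB' hlB h1 => ?_⟩
  · obtain ⟨p, rfl⟩ := ex_lt (EE_odd hh hl)
    have k := (EE_iff C hh hB hlB).1 hl
    have c := coo (h := h) (T := T) hν p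
    rcases hν with rfl | rfl
    · obtain ⟨c1, c2⟩ := c.1 rfl
      rw [c1, c2]; omega
    · obtain ⟨c1, c2⟩ := c.2 rfl
      rw [c1, c2]; omega
  · obtain ⟨p, rfl⟩ := ex_lt (EE_odd hh hl)
    have k := (EE_iff C hh hB hlB).1 hl
    have c := coo (h := h) (T := T) hν p
    rcases hν with rfl | rfl
    · obtain ⟨c1, c2⟩ := c.1 rfl
      rw [c1, c2]; omega
    · obtain ⟨c1, c2⟩ := c.2 rfl
      rw [c1, c2]; omega
  · obtain ⟨p, rfl⟩ := ex_lt (mem_BR.1 hlB).2.2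
    rw [EE_iff C hh hB hlB]
    have c := coo (h := h) (T := T) hν p
    rcases hν with rfl | rfl
    · obtain ⟨c1, c2⟩ := c.1 rfl
      rw [c1, c2] at h1 h2; omega
    · obtain ⟨c1, c2⟩ := c.2 rfl
      rw [c1, c2] at h1 h2; omega
  · obtain ⟨p, rfl⟩ := ex_lt (EE_odd hh hl)
    obtain ⟨p', rfl⟩ := ex_lt (mem_BR.1 hB').2.2
    have k := (EE_iff C hh hB hlB).1 hl
    rw [EE_iff C hh hB hB']
    have c := coo (h := h) (T := T) hν p
    have c' := coo (h := h) (T := T) hν p'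
    have h2 := abs_le.1 h1
    rcases hν with rfl | rfl
    · obtain ⟨c1, c2⟩ := c.1 rfl
      obtain ⟨c1', c2'⟩ := c'.1 rfl
      omega
    · obtain ⟨c1, c2⟩ := c.2 rfl
      obtain ⟨c1', c2'⟩ := c'.2 rfl
      omega

/-- the tile `p0` is near the corner -/
structure Pt (T : ℤ × ℤ) (ν h : ℕ) (p0 : ℤ × ℤ) (a : ℤ) : Prop where
  x1 : -a ≤ p0.1 - 2 * (h : ℤ) * T.1
  x2 : p0.1 - 2 * (h : ℤ) * T.1 < 0
  y1 : -a ≤ p0.2 - 2 * (h : ℤ) * T.2
  y2 : p0.2 - 2 * (h : ℤ) * T.2 < a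
  y3 : p0.2 - 2 * (h : ℤ) * T.2 < 0 ↔ ν = 1

/-- the deleted row ends at the right wall -/
lemma del_near (C : Cr S T ν) (hh : 0 < h) (P : Pt T ν h p0 a) (ha : a < h) {q : ℤ × ℤ}
    (hq : lt q ∈ Del S.P.Q (2 * h) p0) : q.2 = p0.2 ∧ p0.1 ≤ q.1 ∧ q.1 - 2 * (h : ℤ) * T.1 ≤ 0 := by
  obtain ⟨-, h1, h2, h3⟩ := hq
  rw [tt_lt] at h1 h2 h3
  refine ⟨h1, h2, ?_⟩
  by_contra hc
  have hn : (0 : ℤ) < 2 * (h : ℤ) := by omega
  have := P.x1; have := P.x2; have := P.y1; have := P.y2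
  have h4 := h3 (2 * (h : ℤ) * T.1) (by omega) (by omega)
  rw [C.mem (p := (2 * (h : ℤ) * T.1, p0.2)) hn (by simp only; omega) (by simp only; omega)
    (by simp only; omega) (by simp only; omega)] at h4
  simp only at h4
  omega

lemma mem_del (C : Cr S T ν) (hh : 0 < h) (P : Pt T ν h p0 a) (ha : a < h) {q : ℤ × ℤ}
    (h1 : q.2 = p0.2) (h2 : p0.1 ≤ q.1) (h3 : q.1 - 2 * (h : ℤ) * T.1 ≤ 0) :
    lt q ∈ Del S.P.Q (2 * h) p0 := by
  have hn : (0 : ℤ) < 2 * (h : ℤ) := by omega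
  have := P.x1; have := P.x2; have := P.y1; have := P.y2; have := P.y3
  refine ⟨lt_odd q, by rw [tt_lt]; exact h1, by rw [tt_lt]; exact h2, fun x hx1 hx2 => ?_⟩
  rw [tt_lt] at hx2
  rw [C.mem (p := (x, p0.2)) hn (by simp only; omega) (by simp only; omega)
    (by simp only; omega) (by simp only; omega)]
  simp only
  omega

/-- **the exit side** -/
lemma ex_iff (C : Cr S T ν) (hh : 0 < h) (P : Pt T ν h p0 a) (ha : a < h) {t : ℕ} :
    Ex S h p0 t ↔ t = S.m4 - ν := by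
  obtain ⟨a1, a2, a3, a4⟩ := S.pos
  have hn : (0 : ℤ) < 2 * (h : ℤ) := by omega
  have hν := C.hν
  have k1 := P.x1; have k2 := P.x2; have k3 := P.y1; have k4 := P.y2; have k5 := P.y3
  constructor
  · rintro ⟨h1, h2, e, h3, h4⟩
    have ho : (e.1 + e.2) % 2 = 1 := h3.1
    obtain ⟨q, rfl⟩ := ex_lt ho
    obtain ⟨g1, g2, g3⟩ := del_near C hh P ha h3
    rcases C.layer hn (by omega) (by omega) (by omega) (by omega) h1 h4 with ⟨g, -⟩ | ⟨g, g4, g5⟩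
    · exact g
    · exfalso
      omega
  · rintro rfl
    refine ⟨by omega, C.kR, lt (2 * (h : ℤ) * T.1, p0.2),
      mem_del C hh P ha rfl (by simp only; omega) (by simp), ?_⟩
    apply C.memR hn <;> simp only <;> omega

lemma aft_iff (C : Cr S T ν) (hh : 0 < h) (P : Pt T ν h p0 a) (ha : a < h) {i : ℕ} {e : ℤ × ℤ} :
    Aft S h p0 i e ↔ (S.m4 - ν < i ∨ (S.m4 - ν = i ∧ p0.2 < (tt e).2)) := by
  unfold Aft
  constructor
  · rintro ⟨t, h1, h2⟩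
    rw [ex_iff C hh P ha] at h1
    rw [← h1]; exact h2
  · intro h1
    exact ⟨_, (ex_iff C hh P ha).2 rfl, h1⟩

/-- the other tiles of the world near the corner -/
lemma lam_near (C : Cr S T ν) (hh : 0 < h) (hB : B < h) (hp : lt p ∈ BR (zT h T) B)
    (hΛ : lt p ∈ Lam3 S h) (hE : lt p ∉ EE S h) :
    (p.1 - 2 * (h : ℤ) * T.1 = 0 ∧ (p.2 - 2 * (h : ℤ) * T.2 < 0 ↔ ν = 1)) ∨
    (p.1 - 2 * (h : ℤ) * T.1 < 0 ∧ p.2 - 2 * (h : ℤ) * T.2 = (ν : ℤ) - 1) ∨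
    (p.1 - 2 * (h : ℤ) * T.1 = 0 ∧ p.2 - 2 * (h : ℤ) * T.2 = (ν : ℤ) - 1) := by
  classical
  have hn : (0 : ℤ) < 2 * (h : ℤ) := by omega
  obtain ⟨⟨n1, n2⟩, n3, n4⟩ := near_of hB hp
  unfold Lam3 at hΛ
  rw [mem_union, mem_union, mem_biUnion, mem_image] at hΛ
  rcases hΛ with (h1 | ⟨i, h1, h2⟩) | ⟨i, h1, h2⟩
  · exact absurd h1 hE
  · rcases C.layer hn n1 n2 n3 n4 (mem_range.1 h1) h2 with ⟨-, g1, g2⟩ | ⟨-, g1, g2⟩
    · exact Or.inl ⟨g1, g2⟩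
    · exact Or.inr (Or.inl ⟨g1, g2⟩)
  · rw [mem_filter, mem_range] at h1
    exact Or.inr (Or.inr (C.dg_near hh h1.1 h1.2 n1 n2 n3 n4 h2))

lemma mem_Wp {e : ℤ × ℤ} : e ∈ Wp S h p0 ↔ ∃ i < S.N, e ∈ LY (2 * h) (S.P.side i) ∧
    ¬ ((S.m2 ≤ i ∧ i < S.m3) ↔ Aft S h p0 i e) := by
  classical
  unfold Wp
  rw [mem_biUnion]
  constructor
  · rintro ⟨i, h1, h2⟩
    rw [mem_filter] at h2
    exact ⟨i, mem_range.1 h1, h2.1, h2.2⟩
  · rintro ⟨i, h1, h2, h3⟩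
    exact ⟨i, mem_range.2 h1, mem_filter.2 ⟨h2, h3⟩⟩

lemma notMem_LY_EE (hh : 0 < h) {i : ℕ} {e : ℤ × ℤ} (he : e ∈ LY (2 * h) (S.P.side i)) : e ∉ EE S h := by
  have hn : (0 : ℤ) < 2 * (h : ℤ) := by omega
  intro h1
  unfold Pool.Agent.H21.FM.EE at h1
  have h2 := ((mem_TL hn).1 h1).2
  rw [((mem_LY hn).1 he).2.1] at h2
  exact (side_isSide S i).2 h2

/-- **the world near the corner** -/
theorem layw_cor (C : Cr S T ν) (hh : 0 < h) (P : Pt T ν h p0 a) (ha : a < h) (ha0 : 0 ≤ a)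
    (haρ : a + 2 ≤ ρ) (hB : B < h) (hω : ω ⊆ EE S h) :
    LayW (Fc ν) (EE S h) (Lam3 S h : Set (ℤ × ℤ)) (Del S.P.Q (2 * h) p0) (ω ∪ Wp S h p0) (zT h T) ρ B 1
      (ν = 0) (ν = 1) := by
  classical
  obtain ⟨a1, a2, a3, a4⟩ := S.pos
  have hn : (0 : ℤ) < 2 * (h : ℤ) := by omega
  have hν := C.hν
  have k1 := P.x1; have k2 := P.x2; have k3 := P.y1; have k4 := P.y2; have k5 := P.y3
  have hodd : ∀ e ∈ (Lam3 S h : Set (ℤ × ℤ)), (e.1 + e.2) % 2 = 1 := by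
    intro e he
    have he' : e ∈ Lam3 S h := he
    unfold Lam3 at he'
    rw [mem_union, mem_union, mem_biUnion, mem_image] at he'
    rcases he' with (h1 | ⟨i, -, h2⟩) | ⟨i, -, h2⟩
    · exact EE_odd hh h1
    · exact ((mem_LY hn).1 h2).1
    · rw [← h2, dg_eq]; exact lt_odd _
  refine ⟨hodd, ?_, ?_, ?_, ?_⟩
  · intro e heΛ heE heB hei heD
    obtain ⟨q, rfl⟩ := ex_lt (hodd e heΛ)
    obtain ⟨g1, g2, g3⟩ := del_near C hh P ha heD
    apply hei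
    rw [mem_lt]
    omega
  · intro e heΛ heE heB
    obtain ⟨q, rfl⟩ := ex_lt (hodd e heΛ)
    have g := lam_near C hh hB heB heΛ heE
    have c := coo (h := h) (T := T) hν q
    rcases hν with rfl | rfl
    · obtain ⟨c1, c2⟩ := c.1 rfl
      rw [c1, c2]
      rcases abs_cases ((q.1 - 2 * (h : ℤ) * T.1) + (q.2 - 2 * (h : ℤ) * T.2) + 1) with k | k <;>
        push_cast at g <;> omega
    · obtain ⟨c1, c2⟩ := c.2 rfl
      rw [c1, c2]
      rcases abs_cases ((q.1 - 2 * (h : ℤ) * T.1) - (q.2 - 2 * (h : ℤ) * T.2)) with k | k <;>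
        push_cast at g <;> omega
  · intro e heΛ heE heB hY
    obtain ⟨q, rfl⟩ := ex_lt (hodd e heΛ)
    obtain ⟨⟨n1, n2⟩, n3, n4⟩ := near_of hB heB
    have g := lam_near C hh hB heB heΛ heE
    have c := coo (h := h) (T := T) hν q
    have hR : q.1 - 2 * (h : ℤ) * T.1 = 0 ∧ (q.2 - 2 * (h : ℤ) * T.2 < 0 ↔ ν = 1) ∧
        (ν = 0 → 2 * ρ ≤ q.2 - 2 * (h : ℤ) * T.2 + 1) ∧ (ν = 1 → q.2 - 2 * (h : ℤ) * T.2 ≤ -(2 * ρ)) := by
      rcases hν with rfl | rfl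
      · obtain ⟨c1, c2⟩ := c.1 rfl
        rw [c2] at hY
        push_cast at g
        omega
      · obtain ⟨c1, c2⟩ := c.2 rfl
        rw [c2] at hY
        push_cast at g
        omega
    obtain ⟨g1, g2, g3, g4⟩ := hR
    refine ⟨fun hD => ?_, ?_⟩
    · have := (del_near C hh P ha hD).1
      rcases hν with rfl | rfl
      · have := g3 rfl; omega
      · have := g4 rfl; omega
    · rw [mem_union, mem_Wp]
      have hmem : lt q ∈ LY (2 * (h : ℤ)) (S.P.side (S.m4 - ν)) :=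
        C.memR hn g1 (by omega) (by omega) g2
      rcases hν with rfl | rfl
      · refine iff_of_true (Or.inr ⟨S.m4 - 0, by omega, hmem, fun hc => ?_⟩) rfl
        have := hc.2 ((aft_iff C hh P ha).2 (Or.inr ⟨rfl, by rw [tt_lt]; have := g3 rfl; omega⟩))
        omega
      · refine iff_of_false ?_ (by omega)
        rintro (h1 | ⟨i, hi, h1, h2⟩)
        · exact heE (hω h1)
        · rcases C.layer hn n1 n2 n3 n4 hi h1 with ⟨j1, -⟩ | ⟨-, j2, -⟩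
          · apply h2
            refine iff_of_false (by omega) fun hA => ?_
            rw [aft_iff C hh P ha, tt_lt] at hA
            have := g4 rfl
            omega
          · omega
  · intro e heΛ heE heB hY
    obtain ⟨q, rfl⟩ := ex_lt (hodd e heΛ)
    obtain ⟨⟨n1, n2⟩, n3, n4⟩ := near_of hB heB
    have g := lam_near C hh hB heB heΛ heE
    have c := coo (h := h) (T := T) hν q
    have hO : q.1 - 2 * (h : ℤ) * T.1 < 0 ∧ q.2 - 2 * (h : ℤ) * T.2 = (ν : ℤ) - 1 := by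
      rcases hν with rfl | rfl
      · obtain ⟨c1, c2⟩ := c.1 rfl
        rw [c2] at hY
        simp only [Nat.cast_zero] at g ⊢
        omega
      · obtain ⟨c1, c2⟩ := c.2 rfl
        rw [c2] at hY
        simp only [Nat.cast_one, iff_true] at g ⊢
        omega
    obtain ⟨g1, g2⟩ := hO
    refine ⟨fun hD => ?_, ?_⟩
    · have := (del_near C hh P ha hD).1
      rcases hν with rfl | rfl <;> push_cast at g2 <;> omega
    · rw [mem_union, mem_Wp]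
      have hmem : lt q ∈ LY (2 * (h : ℤ)) (S.P.side (S.m4 - 1 + ν)) := C.memO hn (by omega) g1 g2
      rcases hν with rfl | rfl
      · refine iff_of_false ?_ (by omega)
        rintro (h1 | ⟨i, hi, h1, h2⟩)
        · exact heE (hω h1)
        · rcases C.layer hn n1 n2 n3 n4 hi h1 with ⟨-, j1, -⟩ | ⟨j1, -, -⟩
          · omega
          · apply h2
            refine iff_of_false (by omega) fun hA => ?_
            rw [aft_iff C hh P ha, tt_lt] at hA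
            omega
      · refine iff_of_true (Or.inr ⟨S.m4 - 1 + 1, by omega, hmem, fun hc => ?_⟩) rfl
        have := hc.2 ((aft_iff C hh P ha).2 (Or.inl (by omega)))
        omega

end Pool.Agent.H70.SC
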