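import Mathlib
import Pool.Agent.H70.W.Cor2

set_option autoImplicit false
open Finset

/-!
# StCor, part 3: the world of an end near the corner `m4` against the world with four marks

`cor_reach` : if there is an open half circuit around the corner, then the end `eW (lt p0)` of the glued world
is joined to the far end `0` if II and IV are not connected, and to the far end `2` if they are.
-/

namespace Pool.Agent.H70.SC

open Pool.Agent.H75.Perc hiding WL CT hh PB EE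
open Pool.Agent.H75.TwoArm Pool.Agent.H75.Four Pool.Agent.Q1
open Pool.Agent.H99.NC (BR inR inR_iff)
open Pool.Agent.H99.W (block IsEnd)
open Pool.Agent.H5.Q1 (oc)
open Pool.Agent.H70.W hiding Shape Sd
open Pool.Agent.Q1.M4 (Cell Good IsSide nextSide tail head PType)
open Pool.Agent.H33.Q1 Pool.Agent.H21.FM
open Pool.Agent.H13.W (SG SG_adj eW eE eS eN TJ TJ_congr side_cases isEnd_of_notMem SG_deg2)
open Pool.Agent.H37.W (dg cvx_cells dg_eq LamOK LamS mem_LamS FF Mk dg_inj dg_not_EE dg_not_LY x1 x2 x3 x4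
  Conf mk1 mk2 mk3 mk4 plab_x1 lab_x2 plab_x3 lab_x4 x_ne)
open Pool.Agent.H33.FM (side_isSide side_inj mem_W0 wd_lt)
open Pool.Agent.H74.W (Del Ex Aft Cv Lam3 Wp yy GW RgtM)

variable {S : Shape} {T : ℤ × ℤ} {ν h : ℕ} {p0 p q : ℤ × ℤ} {a ρ B M : ℤ} {ω : Finset (ℤ × ℤ)}

/-- the cell in front of a side which starts at the vertex -/
lemma Cr.io_eq (C : Cr S T ν) {i : ℕ} (ht : tail (S.P.side i) = T) :
    (S.P.side i).1 = (T.1 - 1, T.2 - (ν : ℤ)) ∧ io (S.P.side i).2 = (-1, -(ν : ℤ)) := by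
  obtain ⟨hs1, -⟩ := side_isSide S i
  rw [tail_io] at ht
  have hc : (S.P.side i).1 = (T.1 + (io (S.P.side i).2).1, T.2 + (io (S.P.side i).2).2) := by
    rw [← ht]
    refine Prod.ext ?_ ?_ <;> simp
  rw [hc] at hs1 ⊢
  have k1 := C.c1; have k2 := C.c2; have k3 := C.c3
  have hν := C.hν
  rcases io_dir (S.P.side i).2 with ⟨-, b, -, -⟩ | ⟨-, b, -, -⟩ | ⟨-, b, -, -⟩ | ⟨-, b, -, -⟩ <;>
    rw [b] at hs1 ⊢ <;> simp only at hs1 ⊢ <;> rcases hν with rfl | rfl <;>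
    simp only [Nat.cast_zero, Nat.cast_one, sub_zero, add_zero, sub_add_cancel, neg_zero,
      ← sub_eq_add_neg] at * <;>
    first
    | exact ⟨trivial, trivial⟩
    | exact absurd hs1 k1
    | exact absurd hs1 k2
    | exact absurd hs1 k3

/-- only the side `m4` starts at the vertex -/
lemma Cr.tail_inj (C : Cr S T ν) {i : ℕ} (hi : i < S.N) (ht : tail (S.P.side i) = T) : i = S.m4 := by
  obtain ⟨a1, a2, a3, a4⟩ := S.pos
  obtain ⟨h1, h2⟩ := C.io_eq ht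
  obtain ⟨h3, h4⟩ := C.io_eq C.tl
  apply side_inj S hi a4 (h1.trans h3.symm)
  have h5 : io (S.P.side i).2 = io (S.P.side S.m4).2 := h2.trans h4.symm
  rcases io_dir (S.P.side i).2 with ⟨g, b, -, -⟩ | ⟨g, b, -, -⟩ | ⟨g, b, -, -⟩ | ⟨g, b, -, -⟩ <;>
    rcases io_dir (S.P.side S.m4).2 with ⟨g', b', -, -⟩ | ⟨g', b', -, -⟩ | ⟨g', b', -, -⟩ | ⟨g', b', -, -⟩ <;>
    rw [b, b'] at h5 <;> first | omega | (exfalso; simp at h5)

/-- labels at another vertex are far -/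
lemma far_ql {T0 : ℤ × ℤ} (hne : T0 ≠ T) (hB : B < h) (k : ℤ) : ql (zT h T0) k ∉ BR (zT h T) B := by
  intro hm
  rw [mem_BR] at hm
  obtain ⟨⟨b1, b2⟩, ⟨b3, b4⟩, -⟩ := hm
  have e1 := zT1 h T
  have e2 := zT2 h T
  have e3 := zT1 h T0
  have e4 := zT2 h T0
  have hd : -1 ≤ (dir k).1 ∧ (dir k).1 ≤ 1 ∧ -1 ≤ (dir k).2 ∧ (dir k).2 ≤ 1 := by
    rcases dir_cases k with ⟨-, e⟩ | ⟨-, e⟩ | ⟨-, e⟩ | ⟨-, e⟩ <;> rw [e] <;> simp
  obtain ⟨d1, d2, d3, d4⟩ := hd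
  unfold ql at b1 b2 b3 b4
  simp only [Prod.fst_add, Prod.snd_add] at b1 b2 b3 b4
  have hh : (0 : ℤ) ≤ h := by positivity
  have key : ∀ t : ℤ, 2 * (h : ℤ) * t ≤ 2 * B + 1 → -(2 * B + 1) ≤ 2 * (h : ℤ) * t → t = 0 := by
    intro t h1 h2
    rcases lt_trichotomy t 0 with h3 | h3 | h3
    · nlinarith
    · exact h3
    · nlinarith
  have k1 := key ((T0.1 - T.1) - (T0.2 - T.2)) (by linarith) (by linarith)
  have k2 := key ((T0.1 - T.1) + (T0.2 - T.2)) (by linarith) (by linarith)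
  apply hne
  refine Prod.ext ?_ ?_ <;> omega

/-- tiles with four marks -/
def Lam4 (S : Shape) (h : ℕ) : Set (ℤ × ℤ) := (Lam3 S h : Set (ℤ × ℤ)) \ {dg S h (S.m4 - 1)}

lemma mem_Lam3 {e : ℤ × ℤ} : e ∈ Lam3 S h ↔ e ∈ EE S h ∨ (∃ i < S.N, e ∈ LY (2 * h) (S.P.side i)) ∨
    ∃ i < S.N, Cv S i ∧ dg S h i = e := by
  classical
  unfold Lam3
  rw [mem_union, mem_union, mem_biUnion, mem_image, or_assoc]
  simp only [mem_range, mem_filter, and_assoc]

lemma cv4 (S : Shape) : Cv S (S.m4 - 1) := by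
  obtain ⟨a1, a2, a3, a4⟩ := S.pos
  have hm : S.m4 - 1 + 1 = S.m4 := by omega
  refine ⟨S.cvx _ (Or.inr (Or.inr (Or.inl hm))), ?_, ?_, ?_⟩ <;> omega

lemma dg4_mem (S : Shape) (h : ℕ) : dg S h (S.m4 - 1) ∈ Lam3 S h := by
  obtain ⟨a1, a2, a3, a4⟩ := S.pos
  exact mem_Lam3.2 (Or.inr (Or.inr ⟨_, by omega, cv4 S, rfl⟩))

/-- a mark other than `m4` is not in the tile set -/
lemma dg_notMem (hh : 1 ≤ h) {i : ℕ} (hm : i + 1 = S.m2 ∨ i + 1 = S.m3 ∨ i + 1 = S.N) :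
    dg S h i ∉ Lam3 S h := by
  obtain ⟨a1, a2, a3, a4⟩ := S.pos
  have hc := S.cvx i (by unfold Shape.N at hm; tauto)
  rw [mem_Lam3]
  rintro (h1 | ⟨j, hj, h1⟩ | ⟨j, hj, h1, h2⟩)
  · exact dg_not_EE hh hc h1
  · exact dg_not_LY hh hc h1
  · have := dg_inj hh hj (by omega) h2
    subst this
    obtain ⟨-, b1, b2, b3⟩ := h1
    tauto

lemma lamOK4 (hh : 1 ≤ h) : LamOK S h (Lam4 S h) := by
  obtain ⟨a1, a2, a3, a4⟩ := S.pos
  have hm : S.m4 - 1 + 1 = S.m4 := by omega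
  have hc := S.cvx _ (Or.inr (Or.inr (Or.inl hm)))
  refine ⟨fun e he => ?_, fun i hi => ?_⟩
  · rcases mem_LamS.1 he with h1 | ⟨j, hj, h1⟩ | ⟨j, hj, h1, h2⟩
    · refine ⟨mem_coe.2 (mem_Lam3.2 (Or.inl h1)), fun h3 => ?_⟩
      rw [Set.mem_singleton_iff.1 h3] at h1
      exact dg_not_EE hh hc h1
    · refine ⟨mem_coe.2 (mem_Lam3.2 (Or.inr (Or.inl ⟨j, hj, h1⟩))), fun h3 => ?_⟩
      rw [Set.mem_singleton_iff.1 h3] at h1
      exact dg_not_LY hh hc h1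
    · have hM : ¬ Mk S j := fun h3 => h3.not_FF h1
      unfold Mk at hM
      refine ⟨mem_coe.2 (mem_Lam3.2 (Or.inr (Or.inr ⟨j, hj, ⟨h1.2.2, ?_, ?_, ?_⟩, h2⟩))), fun h3 => ?_⟩
      · tauto
      · tauto
      · unfold Shape.N; tauto
      · rw [Set.mem_singleton_iff.1 h3] at h2
        have := dg_inj hh hj (by omega) h2
        subst this
        apply hM
        unfold Shape.m4 at hm
        tauto
  · rintro ⟨h1, h2⟩
    unfold Mk at hi
    rcases hi with h3 | h3 | h3 | h3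
    · exact dg_notMem hh (Or.inl h3) (mem_coe.1 h1)
    · exact dg_notMem hh (Or.inr (Or.inl h3)) (mem_coe.1 h1)
    · apply h2
      rw [Set.mem_singleton_iff]
      congr 1
      unfold Shape.m4
      omega
    · exact dg_notMem hh (Or.inr (Or.inr h3)) (mem_coe.1 h1)

/-- tiles of the right wall at the corner -/
lemma Cr.memR_iff (C : Cr S T ν) (hh : 0 < h) {p : ℤ × ℤ}
    (hp : lt p ∈ LY (2 * h) (S.P.side (S.m4 - ν))) : p.1 - 2 * (h : ℤ) * T.1 = 0 ∧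
    (ν = 0 → 0 ≤ p.2 - 2 * (h : ℤ) * T.2) ∧ (ν = 1 → p.2 - 2 * (h : ℤ) * T.2 < 0) := by
  have hn : (0 : ℤ) < 2 * (h : ℤ) := by omega
  rw [mem_LY hn, tt_lt, C.sR] at hp
  have e : dir ((S.P.side (S.m4 - ν)).2 - 1) = (1, 0) := by
    have := C.kR
    rcases dir_cases ((S.P.side (S.m4 - ν)).2 - 1) with ⟨h, e⟩ | ⟨h, e⟩ | ⟨h, e⟩ | ⟨h, e⟩ <;>
      first | exact e | (exfalso; omega)
  rw [e] at hp
  obtain ⟨-, h1, h2⟩ := hp
  rw [ct_eq hn] at h1 h2
  simp only [Prod.mk_add_mk, Prod.fst_sub, Prod.snd_sub] at h1 h2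
  have e1 : (T.1 - 1 + 1) * (2 * (h : ℤ)) = 2 * (h : ℤ) * T.1 := by ring
  have e2 : (T.1 - 1) * (2 * (h : ℤ)) = 2 * (h : ℤ) * T.1 - 2 * (h : ℤ) := by ring
  have hν := C.hν
  rcases hν with rfl | rfl
  · have e3 : (T.2 - ((0 : ℕ) : ℤ) + 0) * (2 * (h : ℤ)) = 2 * (h : ℤ) * T.2 := by push_cast; ring
    rw [e1, e3] at h1
    rw [e2] at h2
    refine ⟨by omega, fun _ => by omega, fun h => by omega⟩
  · have e3 : (T.2 - ((1 : ℕ) : ℤ) + 0) * (2 * (h : ℤ)) = 2 * (h : ℤ) * T.2 - 2 * (h : ℤ) := by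
      push_cast; ring
    rw [e1, e3] at h1
    rw [e2] at h2
    refine ⟨by omega, fun h => by omega, fun _ => by omega⟩

/-- **states off the corner** -/
lemma wp_iff (C : Cr S T ν) (hh : 0 < h) (P : Pt T ν h p0 a) (ha : a < h)
    (haρ : a + 2 ≤ ρ) {e : ℤ × ℤ} (he : e ∉ BR (zT h T) (ρ - 1)) : e ∈ Wp S h p0 ↔ e ∈ W0 S h := by
  obtain ⟨a1, a2, a3, a4⟩ := S.pos
  have hn : (0 : ℤ) < 2 * (h : ℤ) := by omega
  have k1 := P.x1; have k2 := P.x2; have k3 := P.y1; have k4 := P.y2; have k5 := P.y3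
  have hν := C.hν
  have key : ∀ i < S.N, e ∈ LY (2 * h) (S.P.side i) → (Aft S h p0 i e ↔ S.m4 ≤ i) := by
    intro i hi hL
    rw [aft_iff C hh P ha]
    have ho : (e.1 + e.2) % 2 = 1 := ((mem_LY hn).1 hL).1
    obtain ⟨q, rfl⟩ := ex_lt ho
    rw [tt_lt]
    rw [mem_lt] at he
    by_cases hi4 : i = S.m4 - ν
    · subst hi4
      have g := C.memR_iff hh hL
      rcases hν with rfl | rfl
      · have g2 := g.2.1 rfl
        refine iff_of_true (Or.inr ⟨rfl, by omega⟩) (by omega)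
      · have g2 := g.2.2 rfl
        refine iff_of_false ?_ (by omega)
        omega
    · rcases hν with rfl | rfl <;> omega
  rw [mem_Wp]
  unfold W0
  rw [mem_biUnion]
  constructor
  · rintro ⟨i, hi, hL, h1⟩
    rw [key i hi hL] at h1
    refine ⟨i, ?_, hL⟩
    rw [mem_union, mem_Ico, mem_Ico]
    omega
  · rintro ⟨i, hi, hL⟩
    rw [mem_union, mem_Ico, mem_Ico] at hi
    refine ⟨i, by omega, hL, ?_⟩
    rw [key i (by omega) hL]
    omega

lemma yy0 : yy S h p0 0 = x1 S h := by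
  unfold yy x1
  rw [if_pos rfl]

lemma yy1 (C : Cr S T ν) (hh : 0 < h) (P : Pt T ν h p0 a) (ha : a < h) : yy S h p0 1 = x2 S h := by
  obtain ⟨a1, a2, a3, a4⟩ := S.pos
  have hν := C.hν
  unfold yy x2
  rw [if_neg (by decide), if_pos rfl, if_neg, add_zero]
  rintro ⟨t, h1, h2⟩
  rw [ex_iff C hh P ha] at h1
  omega

lemma yy2 (C : Cr S T ν) (hh : 0 < h) (P : Pt T ν h p0 a) (ha : a < h) : yy S h p0 2 = x3 S h := by
  obtain ⟨a1, a2, a3, a4⟩ := S.pos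
  have hν := C.hν
  unfold yy x3 r3 v3
  rw [if_neg (by decide), if_neg (by decide), if_neg]
  rintro ⟨t, h1, h2⟩
  rw [ex_iff C hh P ha] at h1
  omega

/-- the other marks are outside of a block -/
lemma x_notMem (C : Cr S T ν) (hB : B < h) {I : Set (ℤ × ℤ)}
    (hI : ∀ c ∈ I, ∃ e ∈ BR (zT h T) B, IsSd e c) : x1 S h ∉ I ∧ x2 S h ∉ I ∧ x3 S h ∉ I := by
  obtain ⟨a1, a2, a3, a4⟩ := S.pos
  have key : ∀ (i : ℕ) (k : ℤ), i < S.N → i ≠ S.m4 → oc (wv h (S.P.side i) 0) k ∉ I := by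
    intro i k hi hne hm
    obtain ⟨e, he, hs⟩ := hI _ hm
    have ho := (mem_BR.1 he).2.2
    have hT : tail (S.P.side i) ≠ T := fun ht => hne (C.tail_inj hi ht)
    rcases Pool.Agent.H13.W.of_side ho _ hs with h1 | h1
    · rw [lab_oc, wv_zero] at h1
      rw [h1] at he
      exact far_ql hT hB _ he
    · rw [plab_oc, wv_zero] at h1
      rw [h1] at he
      exact far_ql hT hB _ he
  refine ⟨?_, ?_, ?_⟩
  · unfold x1 r1 v1
    exact key _ _ (by omega) (by omega)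
  · unfold x2
    exact key _ _ (by omega) (by omega)
  · unfold x3 r3 v3
    exact key _ _ (by omega) (by omega)

/-- **The end near the corner.** -/
theorem cor_reach (C : Cr S T ν) (hh : 4 ≤ h) (P : Pt T ν h p0 a) (ha : a < h) (ha0 : 0 ≤ a)
    (haρ : a + 2 ≤ ρ) (hρM : ρ ≤ M) (hM : M + 3 ≤ B) (hB : B < h) (hω : ω ⊆ EE S h)
    (hH : HC (Fc ν) (EE S h) (zT h T) B ρ M ω)
    (hfar : ∃ j, (GW S h p0 ω).Reachable (eW (lt p0)) (yy S h p0 j)) :
    ((GW S h p0 ω).Reachable (eW (lt p0)) (yy S h p0 0) ↔ ¬ TT S h ω) ∧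
    ¬ (GW S h p0 ω).Reachable (eW (lt p0)) (yy S h p0 1) ∧
    ((GW S h p0 ω).Reachable (eW (lt p0)) (yy S h p0 2) ↔ TT S h ω) := by
  classical
  obtain ⟨a1, a2, a3, a4⟩ := S.pos
  have hh0 : 0 < h := by omega
  have hn : (0 : ℤ) < 2 * (h : ℤ) := by omega
  have hν := C.hν
  have k1 := P.x1; have k2 := P.x2; have k3 := P.y1; have k4 := P.y2; have k5 := P.y3
  have R := (prm_cor C hh0 hB).roomW (Or.inl rfl) (Or.inl rfl)
  have L := layw_cor C hh0 P ha ha0 haρ hB hω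
  have hH' : HC (Fc ν) (EE S h) (zT h T) B ρ M (ω ∪ Wp S h p0) :=
    hH.mono fun l hl => mem_union_left _ (mem_inter.1 hl).1
  obtain ⟨I, bp, bq, hI1, hI2, hI3⟩ := hH'.blk R L (by omega) (by omega) (by omega) (by omega) (by omega)
  -- the common exit
  obtain ⟨b, hb⟩ : ∃ b, ∀ u v, u ∈ I → v ∉ I → (GW S h p0 ω).Adj u v → v = b := by
    rcases hν with rfl | rfl
    · refine ⟨bq, fun u v hu hv huv => ?_⟩
      rcases hI1 u v hu hv huv with ⟨g, -⟩ | ⟨-, g, -⟩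
      · exact absurd rfl g
      · exact g
    · refine ⟨bp, fun u v hu hv huv => ?_⟩
      rcases hI1 u v hu hv huv with ⟨-, g, -⟩ | ⟨g, -⟩
      · exact g
      · exact absurd rfl g
  have sd : ∀ {D : Set (ℤ × ℤ)} {w : Finset (ℤ × ℤ)} {e u v : ℤ × ℤ}, TJ D w e u v → IsSd e u := by
    intro D w e u v ht
    exact side_cases _ ht.label
  -- off the inner box the two worlds agree
  have hD : ∀ e, e ∉ BR (zT h T) (ρ - 1) → e ∉ Del S.P.Q (2 * h) p0 := by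
    intro e he hd
    obtain ⟨q, rfl⟩ := ex_lt hd.1
    obtain ⟨g1, g2, g3⟩ := del_near C hh0 P ha hd
    apply he
    rw [mem_lt]
    omega
  have hw : ∀ e, e ∉ BR (zT h T) (ρ - 1) → (e ∈ ω ∪ Wp S h p0 ↔ e ∈ ω ∪ W0 S h) := by
    intro e he
    rw [mem_union, mem_union, wp_iff C hh0 P ha haρ he]
  have hdg : dg S h (S.m4 - 1) ∈ BR (zT h T) (ρ - 1) := by
    rw [C.diag, mem_lt]
    simp only
    rcases hν with rfl | rfl <;> push_cast <;> omega
  have htj : ∀ e u v, e ∉ BR (zT h T) (ρ - 1) →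
      (TJ (Del S.P.Q (2 * h) p0) (ω ∪ Wp S h p0) e u v ↔ TJ ∅ (ω ∪ W0 S h) e u v) := by
    intro e u v he
    exact TJ_congr (iff_of_false (hD e he) (Set.notMem_empty e)) fun _ => hw e he
  set G := GW S h p0 ω with hG
  set G' := SG (Lam4 S h) ∅ (ω ∪ W0 S h) with hG'
  have hag : ∀ u v, u ∉ I → v ∉ I → (G.Adj u v ↔ G'.Adj u v) := by
    intro u v hu hv
    constructor
    · rintro ⟨e, he, ht⟩
      have hn : e ∉ BR (zT h T) (ρ - 1) := fun h1 => hu (hI2 e he h1 u (sd ht))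
      refine ⟨e, ⟨he, fun h1 => ?_⟩, (htj e u v hn).1 ht⟩
      rw [Set.mem_singleton_iff.1 h1] at hn
      exact hn hdg
    · rintro ⟨e, he, ht⟩
      have hn : e ∉ BR (zT h T) (ρ - 1) := fun h1 => hu (hI2 e he.1 h1 u (sd ht))
      exact ⟨e, he.1, (htj e u v hn).2 ht⟩
  have hb' : ∀ u v, u ∈ I → v ∉ I → G'.Adj u v → v = b := by
    rintro u v hu hv ⟨e, he, ht⟩
    have hn : e ∉ BR (zT h T) (ρ - 1) := fun h1 => hv (hI2 e he.1 h1 v (sd ht.symm))
    exact hb u v hu hv ⟨e, he.1, (htj e u v hn).2 ht⟩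
  -- the starts
  have hz : eW (lt p0) ∈ I := by
    refine hI2 (lt p0) (mem_coe.2 (mem_Lam3.2 (Or.inl ?_))) ?_ _ (Or.inl rfl)
    · have hp : lt p0 ∈ BR (zT h T) B := by rw [mem_lt]; omega
      rw [EE_iff C hh0 hB hp]
      exact ⟨k2, k5⟩
    · rw [mem_lt]; omega
  have hz' : x4 S h ∈ I := by
    refine hI2 (dg S h (S.m4 - 1)) (mem_coe.2 (dg4_mem S h)) hdg _ ?_
    have h1 := lab_x4 S h
    exact side_cases _ (Or.inl h1.symm)
  obtain ⟨n1, n2, n3⟩ := x_notMem C hB hI3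
  -- ends
  have m1 : S.N - 1 + 1 = S.N := by omega
  have m2 : S.m2 - 1 + 1 = S.m2 := by omega
  have m3 : S.m3 - 1 + 1 = S.m3 := by omega
  have e1 : IsEnd G (x1 S h) := isEnd_of_notMem (Or.inr (by
    rw [plab_x1]; exact fun h1 => dg_notMem (by omega) (Or.inr (Or.inr m1)) (mem_coe.1 h1)))
  have e2 : IsEnd G (x2 S h) := isEnd_of_notMem (Or.inl (by
    rw [lab_x2]; exact fun h1 => dg_notMem (by omega) (Or.inl m2) (mem_coe.1 h1)))
  have e3 : IsEnd G (x3 S h) := isEnd_of_notMem (Or.inr (by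
    rw [plab_x3]; exact fun h1 => dg_notMem (by omega) (Or.inr (Or.inl m3)) (mem_coe.1 h1)))
  have CF : Conf S h ω (Lam4 S h) ∅ (ω ∪ W0 S h) :=
    Conf.of (lamOK4 (by omega)) (fun e _ => Set.notMem_empty e) (fun e _ => Iff.rfl) ω
  obtain ⟨t3, t1, -⟩ := CF.reach_iff hh hω
  obtain ⟨n13, n24, n'⟩ := x_ne (S := S) (h := h) (by omega)
  have n12 : x1 S h ≠ x2 S h := n' _ (Or.inl rfl) _ (Or.inl rfl)
  have n32 : x3 S h ≠ x2 S h := n' _ (Or.inr rfl) _ (Or.inl rfl)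
  have y0 := yy0 (S := S) (h := h) (p0 := p0)
  have y1 := yy1 C hh0 P ha
  have y2 := yy2 C hh0 P ha
  rw [y0, y1, y2]
  -- the common outer end
  have key : ∀ x x', (x = x1 S h ∨ x = x2 S h ∨ x = x3 S h) → (x' = x1 S h ∨ x' = x3 S h) →
      G.Reachable (eW (lt p0)) x → G'.Reachable (x4 S h) x' → x = x' := by
    intro x x' hx hx' hr hr'
    refine block SG_deg2 hag hb hb' hz hz' ?_ ?_ ?_ ?_ hr hr'
    · rcases hx with rfl | rfl | rfl <;> assumption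
    · rcases hx' with rfl | rfl <;> assumption
    · rcases hx with rfl | rfl | rfl <;> assumption
    · rcases hx' with rfl | rfl
      · exact CF.end1
      · exact CF.end3
  obtain ⟨j, hj⟩ := hfar
  have hj' : G.Reachable (eW (lt p0)) (x1 S h) ∨ G.Reachable (eW (lt p0)) (x2 S h) ∨
      G.Reachable (eW (lt p0)) (x3 S h) := by
    fin_cases j
    · left; rw [← y0]; exact hj
    · right; left; rw [← y1]; exact hj
    · right; right; rw [← y2]; exact hj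
  by_cases ht : TT S h ω
  · have r := t3.2 ht
    refine ⟨iff_of_false (fun h1 => n13 (key _ _ (Or.inl rfl) (Or.inr rfl) h1 r)) (not_not.2 ht),
      fun h1 => n32 (key _ _ (Or.inr (Or.inl rfl)) (Or.inr rfl) h1 r).symm, iff_of_true ?_ ht⟩
    rcases hj' with h1 | h1 | h1
    · exact absurd (key _ _ (Or.inl rfl) (Or.inr rfl) h1 r) n13
    · exact absurd (key _ _ (Or.inr (Or.inl rfl)) (Or.inr rfl) h1 r) n32.symm
    · exact h1
  · have r := t1.2 ht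
    refine ⟨iff_of_true ?_ ht,
      fun h1 => n12 (key _ _ (Or.inr (Or.inl rfl)) (Or.inl rfl) h1 r).symm,
      iff_of_false (fun h1 => n13 (key _ _ (Or.inr (Or.inr rfl)) (Or.inl rfl) h1 r).symm) ht⟩
    rcases hj' with h1 | h1 | h1
    · exact h1
    · exact absurd (key _ _ (Or.inr (Or.inl rfl)) (Or.inl rfl) h1 r) n12.symm
    · exact absurd (key _ _ (Or.inr (Or.inr rfl)) (Or.inl rfl) h1 r) n13.symm

end Pool.Agent.H70.SC
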