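import Mathlib
import Pool.Agent.H70.W.Cor3
import Pool.Agent.H74.W.WorldRf
import Pool.Agent.H74.W.TopS4

set_option autoImplicit false
open Finset

/-!
# StCor, part 4: probabilities, limit

`FarEx` : the end `eW (lt p)` of the glued world is joined to one of the far ends (72's `far_exists_V`).
`stCor_of : FarEx → StCor`.
-/

namespace Pool.Agent.H70.SC

open Pool.Agent.H75.Perc hiding WL CT hh PB EE tau
open Pool.Agent.H75.TwoArm Pool.Agent.H75.Four Pool.Agent.Q1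
open Pool.Agent.H99.NC (BR inR inR_iff)
open Pool.Agent.H70.W hiding Shape Sd
open Pool.Agent.Q1.M4 (Cell Good IsSide nextSide tail head PType lat Om pt mem_Om_of_inner)
open Pool.Agent.H33.Q1 Pool.Agent.H21.FM
open Pool.Agent.H13.W (SG eW chG)
open Pool.Agent.H58.W (PB PB_mono PB_congr PB_or_le PB_not PB_nonneg PB_le_one plV)
open Pool.Agent.H50.W (bk bk_none rf qpl EE_rf TT_rf)
open Pool.Agent.H14.FM (ic ic_mono)
open Pool.Agent.H5.C3 (Gen)
open Pool.Agent.H33.FM (side_isSide side_inj)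
open Pool.Agent.H74.W

variable {S : Shape} {T : ℤ × ℤ} {ν h : ℕ} {p0 p q : ℤ × ℤ} {a ρ B M : ℤ} {ω : Finset (ℤ × ℤ)}

/-- the deleted tiles of `p` are in at most one wall layer each -/
def OneL (S : Shape) (h : ℕ) (p : ℤ × ℤ) : Prop := ∀ e ∈ Del S.P.Q (2 * h) p, ∀ i < S.N, ∀ j < S.N,
  e ∈ LY (2 * h) (S.P.side i) → e ∈ LY (2 * h) (S.P.side j) → i = j

/-- the end of the glued world is joined to a far end -/
def FarEx : Prop := ∀ (S : Shape) (h : ℕ) (p : ℤ × ℤ) (ω : Finset (ℤ × ℤ)), 4 ≤ h → lt p ∈ EE S h →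
  (∃ t, Ex S h p t) → OneL S h p → ω ⊆ EE S h →
  ∃ j, (GW S h p ω).Reachable (eW (lt p)) (yy S h p j)

lemma one_cor (C : Cr S T ν) (hh : 0 < h) (P : Pt T ν h p0 a) (ha : a < h) : OneL S h p0 := by
  have hn : (0 : ℤ) < 2 * (h : ℤ) := by omega
  have k1 := P.x1; have k2 := P.x2; have k3 := P.y1; have k4 := P.y2; have k5 := P.y3
  have hν := C.hν
  intro e he i hi j hj h1 h2
  obtain ⟨q, rfl⟩ := ex_lt he.1
  obtain ⟨g1, g2, g3⟩ := del_near C hh P ha he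
  have b : ∀ i < S.N, lt q ∈ LY (2 * (h : ℤ)) (S.P.side i) → i = S.m4 - ν := by
    intro i hi h1
    rcases C.layer hn (by omega) (by omega) (by omega) (by omega) hi h1 with ⟨g, -⟩ | ⟨-, g4, g5⟩
    · exact g
    · exfalso
      rcases hν with rfl | rfl
      · simp only [Nat.cast_zero] at g5
        have := k5.1 (by omega)
        omega
      · simp only [Nat.cast_one] at g5
        have := k5.2 rfl
        omega
  rw [b i hi h1, b j hj h2]

lemma PB_diff {β : Type*} [DecidableEq β] {E : Finset (ℤ × ℤ)} {b : ℤ × ℤ → β}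
    {A A' H : Finset (ℤ × ℤ) → Prop} (h : ∀ ω, ω ⊆ E → H ω → (A ω ↔ A' ω)) :
    |PB E b A - PB E b A'| ≤ PB E b (fun ω => ¬ H ω) := by
  have h1 : PB E b A ≤ PB E b A' + PB E b (fun ω => ¬ H ω) := by
    refine le_trans (PB_mono fun ω hω hA => ?_) (PB_or_le E b A' fun ω => ¬ H ω)
    by_cases hH : H ω
    · exact Or.inl ((h ω hω hH).1 hA)
    · exact Or.inr hH
  have h2 : PB E b A' ≤ PB E b A + PB E b (fun ω => ¬ H ω) := by
    refine le_trans (PB_mono fun ω hω hA => ?_) (PB_or_le E b A fun ω => ¬ H ω)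
    by_cases hH : H ω
    · exact Or.inl ((h ω hω hH).2 hA)
    · exact Or.inr hH
  rw [abs_sub_le_iff]
  constructor <;> linarith

/-- three terms -/
lemma three_norm {x0 x1 x2 q d : ℝ} (h0 : |x0 - q| ≤ d) (h1 : |x1| ≤ d) (h2 : |x2 - (1 - q)| ≤ d) :
    ‖(∑ j : Fin 3, tau ^ (j : ℕ) * ((![x0, x1, x2] j : ℝ) : ℂ)) -
      ((q : ℂ) + (1 - (q : ℂ)) * tau ^ 2)‖ ≤ 3 * d := by
  have e : (∑ j : Fin 3, tau ^ (j : ℕ) * ((![x0, x1, x2] j : ℝ) : ℂ)) -
      ((q : ℂ) + (1 - (q : ℂ)) * tau ^ 2) =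
      tau ^ 0 * ((x0 - q : ℝ) : ℂ) + tau ^ 1 * ((x1 : ℝ) : ℂ) + tau ^ 2 * ((x2 - (1 - q) : ℝ) : ℂ) := by
    rw [Fin.sum_univ_three]
    simp
    ring
  rw [e]
  have b : ∀ (j : ℕ) (x : ℝ), |x| ≤ d → ‖tau ^ j * ((x : ℝ) : ℂ)‖ ≤ d := by
    intro j x hx
    rw [norm_mul, norm_tau_pow, one_mul, Complex.norm_real, Real.norm_eq_abs]
    exact hx
  calc _ ≤ ‖tau ^ 0 * ((x0 - q : ℝ) : ℂ)‖ + ‖tau ^ 1 * ((x1 : ℝ) : ℂ)‖ +
        ‖tau ^ 2 * ((x2 - (1 - q) : ℝ) : ℂ)‖ := norm_add₃_le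
    _ ≤ 3 * d := by
      have := b 0 _ h0
      have := b 1 _ h1
      have := b 2 _ h2
      linarith

/-- **The bound at one scale.** -/
theorem cor_bound (hF : FarEx) : ∃ K α : ℝ, 0 < K ∧ 0 < α ∧ ∀ (S : Shape) (T : ℤ × ℤ) (ν h : ℕ)
    (p0 : ℤ × ℤ) (a ρ M B : ℤ), Cr S T ν → 4 ≤ h → Pt T ν h p0 a → a < h → 0 ≤ a → a + 2 ≤ ρ → ρ ≤ M →
    M + 3 ≤ B → B < h → ∀ (κ : Type) [DecidableEq κ] (b : ℤ × ℤ → κ),
    (∀ l ∈ EE S h ∩ An (zT h T) ρ M, ∀ l' ∈ EE S h ∩ An (zT h T) ρ M, b l = b l' → l = l') →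
    ‖(∑ j : Fin 3, tau ^ (j : ℕ) * ((PB (EE S h) b fun ω =>
        (GW S h p0 ω).Reachable (eW (lt p0)) (yy S h p0 j) : ℝ) : ℂ)) -
      (((PB (EE S h) b (fun ω => ¬ TT S h ω) : ℝ) : ℂ) +
        (1 - ((PB (EE S h) b (fun ω => ¬ TT S h ω) : ℝ) : ℂ)) * tau ^ 2)‖ ≤ K * ((ρ : ℝ) / M) ^ α := by
  obtain ⟨K, α, hK, hα, hprob⟩ := prm_halfB.{0}
  refine ⟨3 * K, α, by positivity, hα, ?_⟩
  intro S T ν h p0 a ρ M B C hh P ha ha0 haρ hρM hM hB κ _ b hb
  have hh0 : 0 < h := by omega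
  have hν := C.hν
  have hΦ : Fc ν = chH (-1) ∨ Fc ν = chV (-1) := by
    unfold Fc
    split_ifs
    · exact Or.inl rfl
    · exact Or.inr rfl
  have hd := hprob (Fc ν) (EE S h) (zT h T) (-1) 1 1 0 ρ M B (Or.inr rfl) hΦ (Or.inl rfl) (Or.inl rfl)
    (by omega) le_rfl (by omega) hρM (by omega) (prm_cor C hh0 hB) (EE S h) inter_subset_left κ b hb
  set d := PB (EE S h) b (fun ω => ¬ HC (Fc ν) (EE S h) (zT h T) B ρ M ω) with hdd
  have hp : lt p0 ∈ EE S h := by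
    have k1 := P.x1; have k2 := P.x2; have k3 := P.y1; have k4 := P.y2
    have hp : lt p0 ∈ BR (zT h T) B := by rw [mem_lt]; omega
    rw [EE_iff C hh0 hB hp]
    exact ⟨k2, P.y3⟩
  have hfar : ∀ ω, ω ⊆ EE S h → ∃ j, (GW S h p0 ω).Reachable (eW (lt p0)) (yy S h p0 j) := fun ω hω =>
    hF S h p0 ω hh hp ⟨_, (ex_iff C hh0 P ha).2 rfl⟩ (one_cor C hh0 P ha) hω
  have key := fun ω (hω : ω ⊆ EE S h) (hH : HC (Fc ν) (EE S h) (zT h T) B ρ M ω) =>
    cor_reach C hh P ha ha0 haρ hρM hM hB hω hH (hfar ω hω)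
  set x : Fin 3 → ℝ := fun j => PB (EE S h) b fun ω =>
    (GW S h p0 ω).Reachable (eW (lt p0)) (yy S h p0 j) with hx
  set qq := PB (EE S h) b (fun ω => ¬ TT S h ω) with hq
  have c0 : |x 0 - qq| ≤ d := PB_diff fun ω hω hH => (key ω hω hH).1
  have c1 : |x 1| ≤ d := by
    have h1 : |x 1 - PB (EE S h) b (fun _ => False)| ≤ d :=
      PB_diff fun ω hω hH => iff_of_false (key ω hω hH).2.1 id
    have h2 : PB (EE S h) b (fun _ => False) = 0 := by
      have : PB (EE S h) b (fun _ => ¬ True) = 0 := by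
        rw [PB_not, Pool.Agent.H58.W.PB_true, sub_self]
      simpa using this
    rwa [h2, sub_zero] at h1
  have c2 : |x 2 - (1 - qq)| ≤ d := by
    have h1 : |x 2 - PB (EE S h) b (fun ω => ¬ ¬ TT S h ω)| ≤ d :=
      PB_diff fun ω hω hH => (key ω hω hH).2.2.trans not_not.symm
    rwa [PB_not] at h1
  have h3 := three_norm c0 c1 c2
  have e : (∑ j : Fin 3, tau ^ (j : ℕ) * ((x j : ℝ) : ℂ)) =
      ∑ j : Fin 3, tau ^ (j : ℕ) * ((![x 0, x 1, x 2] j : ℝ) : ℂ) := by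
    rw [Fin.sum_univ_three, Fin.sum_univ_three]
    simp
  rw [← e] at h3
  refine h3.trans ?_
  rw [mul_assoc]
  exact mul_le_mul_of_nonneg_left hd (by norm_num)

/-! ### No plates at the corner -/

/-- no plate near the corner -/
lemma pl_none (C : Cr S T ν) {b : ℤ} {N M' : ℕ} (hNM : 8 ≤ N * M') {c : Cell}
    (h1 : -((N * M' : ℕ) : ℤ) ≤ 4 * (c.1 - (N * M' : ℕ) * T.1)) (h2 : 4 * (c.1 - (N * M' : ℕ) * T.1) ≤ (N * M' : ℕ))
    (h3 : -((N * M' : ℕ) : ℤ) ≤ 4 * (c.2 - (N * M' : ℕ) * T.2)) (h4 : 4 * (c.2 - (N * M' : ℕ) * T.2) ≤ (N * M' : ℕ)) :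
    plV (chG S.P.Q) b N M' c = none := by
  classical
  have hν := C.hν
  unfold plV
  simp only
  obtain ⟨m, hm⟩ : ∃ m : ℤ, m = ((N * M' : ℕ) : ℤ) := ⟨_, rfl⟩
  have hm8 : 8 ≤ m := by rw [hm]; exact_mod_cast hNM
  rw [← hm] at h1 h2 h3 h4 ⊢
  have hm0 : 0 < m := by omega
  have hY : (c.2 + m / 2) / m = T.2 := by
    rw [Int.ediv_eq_iff_of_pos hm0]
    constructor
    · have : T.2 * m = m * T.2 := mul_comm _ _
      omega
    · have : T.2 * m = m * T.2 := mul_comm _ _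
      omega
  have hX : c.1 / m = T.1 ∨ c.1 / m = T.1 - 1 := by
    rcases le_or_gt 0 (c.1 - m * T.1) with h5 | h5
    · left
      rw [Int.ediv_eq_iff_of_pos hm0]
      constructor
      · have : T.1 * m = m * T.1 := mul_comm _ _
        omega
      · have e : T.1 * m = m * T.1 := mul_comm _ _
        omega
    · right
      rw [Int.ediv_eq_iff_of_pos hm0]
      constructor
      · have e : (T.1 - 1) * m = m * T.1 - m := by ring
        omega
      · have e : (T.1 - 1) * m = m * T.1 - m := by ring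
        omega
  rw [hY]
  rw [if_neg]
  rintro ⟨h5, -⟩
  unfold chG at h5
  rw [mem_filter] at h5
  simp only at h5
  obtain ⟨h5, h6, -⟩ := h5
  have k1 := C.c1; have k3 := C.c3
  rcases hX with hX | hX <;> rw [hX] at h5 h6
  · exact k1 h5
  · rcases hν with rfl | rfl
    · simp only [Nat.cast_zero, add_zero] at k3
      exact k3 h6
    · simp only [Nat.cast_one, sub_add_cancel] at k3
      exact k3 h5

end Pool.Agent.H70.SC
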