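import Mathlib
import Pool.Agent.H70.W.Cor4

set_option autoImplicit false
open Finset Filter Topology

/-!
# StCor, part 5: the limit

`stCor_of : FarEx → StCor`.
-/

namespace Pool.Agent.H70.SC

open Pool.Agent.H75.Perc hiding WL CT hh PB EE tau
open Pool.Agent.H75.TwoArm Pool.Agent.H75.Four Pool.Agent.Q1
open Pool.Agent.H99.NC (BR inR inR_iff)
open Pool.Agent.H70.W hiding Shape Sd
open Pool.Agent.Q1.M4 (Cell Good IsSide nextSide tail head PType lat Om pt mem_Om_of_inner)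
open Pool.Agent.H33.Q1 Pool.Agent.H21.FM
open Pool.Agent.H13.W (SG eW chG)
open Pool.Agent.H58.W (PB PB_mono PB_congr PB_or_le PB_not PB_nonneg PB_le_one plV)
open Pool.Agent.H50.W (bk bk_none rf qpl EE_rf TT_rf)
open Pool.Agent.H14.FM (ic ic_mono)
open Pool.Agent.H5.C3 (Gen)
open Pool.Agent.H33.FM (side_isSide side_inj)
open Pool.Agent.H74.W

variable {S : Shape} {T : ℤ × ℤ} {ν h : ℕ} {p0 p q : ℤ × ℤ} {a ρ B M : ℤ} {ω : Finset (ℤ × ℤ)}

/-- a fine cell near the vertex -/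
lemma cell_near {m D x M : ℤ} {h : ℕ} (hh : 0 < h) (hm : 8 ≤ m) (h1 : D * (2 * (h : ℤ)) ≤ x)
    (h2 : x < (D + 1) * (2 * (h : ℤ))) (h3 : -(2 * M) ≤ x) (h4 : x ≤ 2 * M) (hM : 8 * M ≤ m * h) :
    -m ≤ 4 * D ∧ 4 * D ≤ m := by
  have hh' : (0 : ℤ) < h := by exact_mod_cast hh
  constructor
  · by_contra hc
    have h5 : 4 * D + 1 ≤ -m := by omega
    have h6 := mul_le_mul_of_nonneg_right h5 (by omega : (0 : ℤ) ≤ 2 * (h : ℤ))
    have h7 := mul_le_mul_of_nonneg_right hm hh'.le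
    nlinarith
  · by_contra hc
    have h5 : m + 1 ≤ 4 * D := by omega
    have h6 := mul_le_mul_of_nonneg_right h5 (by omega : (0 : ℤ) ≤ 2 * (h : ℤ))
    have h7 := mul_le_mul_of_nonneg_right hm hh'.le
    nlinarith

/-- the natural labels near the vertex -/
lemma bk_inj (C : Cr S T ν) {b : ℤ} {N M' : ℕ} (hNM : 8 ≤ N * M') (hh : 0 < h)
    (hM : 8 * M ≤ (N * M' : ℕ) * h) {l : ℤ × ℤ} (hl : l ∈ BR (zT (N * M' * h) T) M) :
    bk (2 * (h : ℤ)) (plV (chG S.P.Q) b N M') l = Sum.inl l := by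
  apply bk_none
  obtain ⟨q, rfl⟩ := ex_lt (mem_BR.1 hl).2.2
  rw [tt_lt]
  rw [mem_lt] at hl
  obtain ⟨⟨b1, b2⟩, b3, b4⟩ := hl
  have hn : (0 : ℤ) < 2 * (h : ℤ) := by omega
  obtain ⟨c, hc⟩ : ∃ c, ct (2 * (h : ℤ)) q = c := ⟨_, rfl⟩
  rw [hc]
  rw [ct_eq hn] at hc
  obtain ⟨⟨c1, c2⟩, c3, c4⟩ := hc
  have hm : (8 : ℤ) ≤ ((N * M' : ℕ) : ℤ) := by exact_mod_cast hNM
  have e1 : 2 * (((N * M' * h : ℕ) : ℤ)) * T.1 = ((N * M' : ℕ) : ℤ) * T.1 * (2 * (h : ℤ)) := by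
    push_cast; ring
  have e2 : 2 * (((N * M' * h : ℕ) : ℤ)) * T.2 = ((N * M' : ℕ) : ℤ) * T.2 * (2 * (h : ℤ)) := by
    push_cast; ring
  rw [e1, e2] at b1 b2 b3 b4
  obtain ⟨m, hmd⟩ : ∃ m : ℤ, m = ((N * M' : ℕ) : ℤ) := ⟨_, rfl⟩
  have k1 := cell_near (m := m) (D := c.1 - m * T.1) (x := q.1 - m * T.1 * (2 * (h : ℤ))) (M := M) hh
    (by rw [hmd]; exact hm) (by nlinarith) (by nlinarith) (by rw [hmd]; omega) (by rw [hmd]; omega)
    (by rw [hmd]; exact hM)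
  have k2 := cell_near (m := m) (D := c.2 - m * T.2) (x := q.2 - m * T.2 * (2 * (h : ℤ))) (M := M) hh
    (by rw [hmd]; exact hm) (by nlinarith) (by nlinarith) (by rw [hmd]; omega) (by rw [hmd]; omega)
    (by rw [hmd]; exact hM)
  rw [hmd] at k1 k2
  exact pl_none C hNM k1.1 k1.2 k2.1 k2.2

/-- small powers -/
lemma small_t {K α : ℝ} (hα : 0 < α) {ε δ : ℝ} (hε : 0 < ε) (hδ : 0 < δ) :
    ∃ t : ℝ, 0 < t ∧ t ≤ 1 / 1000 ∧ 2 * t < δ ∧ K * (80 * t) ^ α ≤ ε := by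
  have h1 : Tendsto (fun t : ℝ => K * (80 * t) ^ α) (𝓝[>] 0) (𝓝 (K * (80 * 0) ^ α)) := by
    have hc : Continuous fun t : ℝ => K * (80 * t) ^ α :=
      continuous_const.mul ((continuous_const.mul continuous_id).rpow_const fun _ => Or.inr hα.le)
    exact (hc.tendsto 0).mono_left nhdsWithin_le_nhds
  rw [mul_zero, Real.zero_rpow hα.ne', mul_zero] at h1
  have h2 := h1.eventually (Iio_mem_nhds hε)
  have h3 : ∀ᶠ t : ℝ in 𝓝[>] 0, t < min (1 / 1000) (δ / 2) :=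
    nhdsWithin_le_nhds (Iio_mem_nhds (by positivity))
  have h4 : ∀ᶠ t : ℝ in 𝓝[>] 0, 0 < t := eventually_mem_nhdsWithin
  obtain ⟨t, a, b, c⟩ := (h2.and (h3.and h4)).exists
  refine ⟨t, c, (b.le.trans (min_le_left _ _)), ?_, a.le⟩
  have := b.trans_le (min_le_right _ _)
  linarith

/-- **(P-4)** -/
theorem stCor_of (hF : FarEx) : StCor := by
  intro S _ hr b _ ε hε δ hδ
  obtain ⟨ν, C⟩ := cr_of S hr
  obtain ⟨T, hT⟩ : ∃ T, T = tail (S.P.side S.m4) := ⟨_, rfl⟩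
  rw [← hT] at C
  obtain ⟨K, α, hK, hα, hbd⟩ := cor_bound hF
  obtain ⟨t, ht0, ht1, ht2, ht3⟩ := small_t (K := K) hα hε hδ
  have hν := C.hν
  obtain ⟨σ, hσ⟩ : ∃ σ : ℝ, σ = 1 - 2 * (ν : ℝ) := ⟨_, rfl⟩
  have hσ' : (ν = 0 ∧ σ = 1) ∨ (ν = 1 ∧ σ = -1) := by
    rcases hν with rfl | rfl
    · left; exact ⟨rfl, by rw [hσ]; norm_num⟩
    · right; exact ⟨rfl, by rw [hσ]; norm_num⟩
  have hvert : pt ic ic (S.P.vert S.m4) = ⟨(T.1 : ℝ), (T.2 : ℝ)⟩ := by
    have : S.P.vert S.m4 = T := by rw [hT]; rfl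
    rw [this]; rfl
  refine ⟨⟨(T.1 : ℝ) - t, (T.2 : ℝ) + σ * t⟩, ?_, ?_, ?_, t / 2, by linarith, ?_⟩
  · refine mem_Om_of_inner ic_mono ic_mono C.cin ?_ ?_ ?_ ?_
    · simp only [ic]; push_cast; linarith
    · simp only [ic]; push_cast; linarith
    · simp only [ic]
      rcases hσ' with ⟨rfl, h1⟩ | ⟨rfl, h1⟩ <;> rw [h1] <;> push_cast <;> linarith
    · simp only [ic]
      rcases hσ' with ⟨rfl, h1⟩ | ⟨rfl, h1⟩ <;> rw [h1] <;> push_cast <;> linarith
  · rintro ⟨c, -, h1, -⟩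
    simp only at h1
    rcases hσ' with ⟨-, h2⟩ | ⟨-, h2⟩
    · rw [h2] at h1
      have h3 : t = ((c.2 - T.2 : ℤ) : ℝ) := by push_cast; linarith
      have h4 : (0 : ℝ) < ((c.2 - T.2 : ℤ) : ℝ) := h3 ▸ ht0
      have h5 : ((c.2 - T.2 : ℤ) : ℝ) < ((1 : ℤ) : ℝ) := by rw [← h3]; push_cast; linarith
      have h6 : 0 < c.2 - T.2 := by exact_mod_cast h4
      have h7 : c.2 - T.2 < 1 := by exact_mod_cast h5
      omega
    · rw [h2] at h1
      have h3 : t = ((T.2 - c.2 : ℤ) : ℝ) := by push_cast; linarith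
      have h4 : (0 : ℝ) < ((T.2 - c.2 : ℤ) : ℝ) := h3 ▸ ht0
      have h5 : ((T.2 - c.2 : ℤ) : ℝ) < ((1 : ℤ) : ℝ) := by rw [← h3]; push_cast; linarith
      have h6 : 0 < T.2 - c.2 := by exact_mod_cast h4
      have h7 : T.2 - c.2 < 1 := by exact_mod_cast h5
      omega
  · rw [hvert, dist_eq_norm]
    refine (Complex.norm_le_abs_re_add_abs_im _).trans_lt ?_
    simp only [Complex.sub_re, Complex.sub_im]
    have h1 : |(T.1 : ℝ) - t - T.1| = t := by
      rw [show (T.1 : ℝ) - t - T.1 = -t by ring, abs_neg, abs_of_pos ht0]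
    have h2 : |(T.2 : ℝ) + σ * t - T.2| = t := by
      rw [show (T.2 : ℝ) + σ * t - T.2 = σ * t by ring]
      rcases hσ' with ⟨-, h2⟩ | ⟨-, h2⟩ <;> rw [h2]
      · rw [one_mul, abs_of_pos ht0]
      · rw [neg_one_mul, abs_neg, abs_of_pos ht0]
    rw [h1, h2]; linarith
  · rw [eventually_lK]
    filter_upwards [eventually_ge_atTop 8] with N hN
    filter_upwards [eventually_ge_atTop 1] with M' hM'
    have hNM : 8 ≤ N * M' := le_trans hN (Nat.le_mul_of_pos_right N hM')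
    have hpos : 0 < N * M' := by omega
    obtain ⟨h0, hh0⟩ := exists_nat_ge (100 / t)
    filter_upwards [eventually_ge_atTop (max h0 100)] with h hh
    have hh1 : (100 : ℝ) / t ≤ h := hh0.trans (by exact_mod_cast (le_max_left _ _).trans hh)
    have hh2 : 100 ≤ h := (le_max_right _ _).trans hh
    intro p hp
    obtain ⟨H, hH⟩ : ∃ H : ℕ, H = N * M' * h := ⟨_, rfl⟩
    have hHh : h ≤ H := by rw [hH]; exact Nat.le_mul_of_pos_left h hpos
    have hHr : (h : ℝ) ≤ H := by exact_mod_cast hHh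
    have hH100 : (100 : ℝ) ≤ H := by
      have : (100 : ℝ) ≤ h := by exact_mod_cast hh2
      linarith
    have htH : 100 ≤ t * H := by
      have h1 : 100 ≤ t * h := by
        rw [div_le_iff₀ ht0] at hh1
        linarith
      have h2 : t * h ≤ t * H := mul_le_mul_of_nonneg_left hHr ht0.le
      linarith
    -- the observable at the coarse shape
    have hHF : HF S b (N, M') h p = ∑ j : Fin 3, tau ^ (j : ℕ) *
        ((PB (EE S H) (bk (2 * (h : ℤ)) (plV (chG S.P.Q) b N M')) fun ω =>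
          (GW S H p ω).Reachable (eW (lt p)) (yy S H p j) : ℝ) : ℂ) := by
      unfold HF
      rw [dif_pos hpos, hf_rf S hpos (by omega : 0 < h), ← hH]
    have hqF : qF S b (N, M') h = PB (EE S H) (bk (2 * (h : ℤ)) (plV (chG S.P.Q) b N M'))
        (fun ω => ¬ TT S H ω) := by
      unfold qF
      rw [dif_pos hpos]
      unfold qpl
      rw [EE_rf S hpos (by omega : 0 < h), ← hH]
      refine PB_congr fun ω _ => not_congr ?_
      rw [TT_rf S hpos (by omega : 0 < h), ← hH]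
    rw [hHF, hqF]
    -- numbers
    obtain ⟨a, ha⟩ : ∃ a : ℤ, a = ⌈4 * t * H⌉ := ⟨_, rfl⟩
    have ha1 : 4 * t * H ≤ (a : ℝ) := by rw [ha]; exact Int.le_ceil _
    have ha2 : (a : ℝ) < 4 * t * H + 1 := by rw [ha]; exact Int.ceil_lt_add_one _
    have htH2 : t * H ≤ H / 1000 := by
      have := mul_le_mul_of_nonneg_right ht1 (by positivity : (0 : ℝ) ≤ H)
      linarith
    obtain ⟨M, hM⟩ : ∃ M : ℤ, M = (H : ℤ) / 8 := ⟨_, rfl⟩
    have hM1 : 8 * M ≤ H := by rw [hM]; omega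
    have hM2 : (H : ℤ) < 8 * M + 8 := by rw [hM]; omega
    have hM1r : 8 * (M : ℝ) ≤ H := by exact_mod_cast hM1
    have hM2r : (H : ℝ) < 8 * M + 8 := by exact_mod_cast hM2
    have hH100i : (100 : ℤ) ≤ H := by exact_mod_cast hH100
    have a0 : 0 ≤ a := by
      have : (0 : ℝ) ≤ (a : ℝ) := by linarith
      exact_mod_cast this
    have aH : a < H := by
      have : (a : ℝ) < ((H : ℤ) : ℝ) := by push_cast; linarith
      exact_mod_cast this
    have aM : a + 2 ≤ M := by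
      have : (a : ℝ) + 2 ≤ (M : ℝ) := by linarith
      exact_mod_cast this
    -- the position of the tile
    have hRR : RR (N, M') h = 2 * (H : ℝ) := by
      unfold RR
      rw [hH]
      push_cast
      ring
    have hR0 : (0 : ℝ) < 2 * (H : ℝ) := by linarith
    unfold ps at hp
    rw [hRR] at hp
    have hre : |(p.1 : ℝ) / (2 * H) - (T.1 - t)| < t / 2 := by
      refine lt_of_le_of_lt ?_ hp
      rw [dist_eq_norm]
      refine le_trans (le_of_eq ?_) (Complex.abs_re_le_norm _)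
      congr 1
      rw [Complex.sub_re, Complex.div_ofReal_re]
      rfl
    have him : |(p.2 : ℝ) / (2 * H) - (T.2 + σ * t)| < t / 2 := by
      refine lt_of_le_of_lt ?_ hp
      rw [dist_eq_norm]
      refine le_trans (le_of_eq ?_) (Complex.abs_im_le_norm _)
      congr 1
      rw [Complex.sub_im, Complex.div_ofReal_im]
      rfl
    rw [abs_lt] at hre him
    obtain ⟨r1, r2⟩ := hre
    obtain ⟨i1, i2⟩ := him
    have q1 : (p.1 : ℝ) / (2 * H) * (2 * H) = p.1 := div_mul_cancel₀ _ hR0.ne'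
    have q2 : (p.2 : ℝ) / (2 * H) * (2 * H) = p.2 := div_mul_cancel₀ _ hR0.ne'
    have s1 := mul_lt_mul_of_pos_right r1 hR0
    have s2 := mul_lt_mul_of_pos_right r2 hR0
    have s3 := mul_lt_mul_of_pos_right i1 hR0
    have s4 := mul_lt_mul_of_pos_right i2 hR0
    rw [sub_mul, q1] at s1 s2
    rw [sub_mul, q2] at s3 s4
    have P : Pt T ν H p a := by
      have w1 : -(a : ℝ) ≤ ((p.1 - 2 * (H : ℤ) * T.1 : ℤ) : ℝ) := by push_cast; nlinarith
      have w2 : ((p.1 - 2 * (H : ℤ) * T.1 : ℤ) : ℝ) < 0 := by push_cast; nlinarith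
      have w3 : -(a : ℝ) ≤ ((p.2 - 2 * (H : ℤ) * T.2 : ℤ) : ℝ) := by
        push_cast
        rcases hσ' with ⟨-, h2⟩ | ⟨-, h2⟩ <;> rw [h2] at s3 s4 <;> nlinarith
      have w4 : ((p.2 - 2 * (H : ℤ) * T.2 : ℤ) : ℝ) < a := by
        push_cast
        rcases hσ' with ⟨-, h2⟩ | ⟨-, h2⟩ <;> rw [h2] at s3 s4 <;> nlinarith
      refine ⟨by exact_mod_cast w1, by exact_mod_cast w2, by exact_mod_cast w3, by exact_mod_cast w4, ?_⟩
      rcases hσ' with ⟨h1, h2⟩ | ⟨h1, h2⟩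
      · rw [h2] at s3 s4
        have w5 : (0 : ℝ) < ((p.2 - 2 * (H : ℤ) * T.2 : ℤ) : ℝ) := by push_cast; nlinarith
        have w6 : 0 < p.2 - 2 * (H : ℤ) * T.2 := by exact_mod_cast w5
        omega
      · rw [h2] at s3 s4
        have w5 : ((p.2 - 2 * (H : ℤ) * T.2 : ℤ) : ℝ) < 0 := by push_cast; nlinarith
        have w6 : p.2 - 2 * (H : ℤ) * T.2 < 0 := by exact_mod_cast w5
        omega
    -- the bound
    have hinj : ∀ l ∈ EE S H ∩ An (zT H T) (a + 2) M, ∀ l' ∈ EE S H ∩ An (zT H T) (a + 2) M,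
        bk (2 * (h : ℤ)) (plV (chG S.P.Q) b N M') l = bk (2 * (h : ℤ)) (plV (chG S.P.Q) b N M') l' →
        l = l' := by
      have hMm : 8 * M ≤ ((N * M' : ℕ) : ℤ) * (h : ℤ) := by
        rw [← Nat.cast_mul, ← hH]; exact hM1
      have hb : ∀ l ∈ EE S H ∩ An (zT H T) (a + 2) M,
          bk (2 * (h : ℤ)) (plV (chG S.P.Q) b N M') l = Sum.inl l := by
        intro l hl
        have h1 : l ∈ BR (zT H T) M := mem_BR.2 (mem_An.1 (mem_inter.1 hl).2).1
        rw [hH] at h1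
        exact bk_inj C hNM (by omega) hMm h1
      intro l hl l' hl' he
      rw [hb l hl, hb l' hl'] at he
      exact Sum.inl_injective he
    refine (hbd S T ν H p a (a + 2) M (M + 3) C (by omega) P aH a0 le_rfl aM le_rfl (by omega)
      ((ℤ × ℤ) ⊕ (ℤ × ℤ)) _ hinj).trans (le_trans ?_ ht3)
    refine mul_le_mul_of_nonneg_left ?_ hK.le
    have hMr : (0 : ℝ) < M := by linarith
    refine Real.rpow_le_rpow (by positivity) ?_ hα.le
    rw [div_le_iff₀ hMr]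
    push_cast
    nlinarith

end Pool.Agent.H70.SC
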