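import Mathlib
import Pool.Agent.H2.W.OrlE
import Pool.Agent.H51.W.VP
import Pool.Agent.H45.W.Sym
import Pool.Agent.H74.W.WorldRf

set_option autoImplicit false
open Finset

/-! # The loose corners at the marks are far from the centre of a chord block

`NearV k c u v` : the corner `c` is near the vertex `(u, v)` of the tile frame.
`X_near` : 19's `X1 S h i`, `X2 S h i` are near `(2 h a, 2 h b)` ; `X_rf` : those of the fine shape are those of
the coarse shape; `far_of` : 82's field `far` from the distance of the columns; `NearV.sw` : reflected picture;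
`NearV.up`, `NearV.dn` : moved by one row. `X_far` : all in one statement. -/

namespace Pool.Agent.H70.W

open Pool.Agent.Q1.M4 (Cell)
open Pool.Agent.H33.Q1 (lt)
open Pool.Agent.H21.FM (Shape)
open Pool.Agent.H13.W (eN eS up dn)
open Pool.Agent.H19.W (X1 X2)
open Pool.Agent.H37.W (dg)
open Pool.Agent.H75.TwoArm (fi)
open Pool.Agent.H50.W (rf)
open Pool.Agent.H78.W (Pic)
open Pool.Agent.H51.W (pv)
open Pool.Agent.H45.W (sw)

/-- the corner `c` is near the vertex `(u, v)` of the tile frame -/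
def NearV (k : ℤ) (c : ℤ × ℤ) (u v : ℤ) : Prop :=
  |2 * (fi c).1 - (u - v)| ≤ k ∧ |2 * (fi c).2 - (u + v)| ≤ k

lemma nearV_of {x y u v : ℤ} (h1 : |x - u| ≤ 1) (h2 : |y - v| ≤ 1) :
    NearV 5 (eN (lt (x, y))) u v ∧ NearV 5 (eS (lt (x, y))) u v := by
  rw [abs_le] at h1 h2
  unfold NearV fi eN eS lt
  simp only [abs_le]
  refine ⟨⟨⟨?_, ?_⟩, ?_, ?_⟩, ⟨?_, ?_⟩, ?_, ?_⟩ <;> omega

/-- the reflected picture (`y ↦ -1 - y`) -/
lemma NearV.sw {k : ℤ} {c : ℤ × ℤ} {u v : ℤ} (h : NearV k c u v) : NearV k (sw c) u (-v) := by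
  obtain ⟨h1, h2⟩ := h
  unfold NearV at *
  have e1 : (fi (Pool.Agent.H45.W.sw c)).1 = (fi c).2 := rfl
  have e2 : (fi (Pool.Agent.H45.W.sw c)).2 = (fi c).1 := rfl
  rw [e1, e2]
  refine ⟨?_, ?_⟩
  · rw [show u - -v = u + v by ring]; exact h2
  · rw [show u + -v = u - v by ring]; exact h1

lemma NearV.up {k : ℤ} {c : ℤ × ℤ} {u v : ℤ} (h : NearV k c u v) : NearV (k + 2) (up c) u v := by
  obtain ⟨h1, h2⟩ := h
  unfold fi at h1 h2
  unfold NearV fi Pool.Agent.H13.W.up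
  simp only [abs_le] at h1 h2 ⊢
  omega

lemma NearV.dn {k : ℤ} {c : ℤ × ℤ} {u v : ℤ} (h : NearV k c u v) : NearV (k + 2) (dn c) u v := by
  obtain ⟨h1, h2⟩ := h
  unfold fi at h1 h2
  unfold NearV fi Pool.Agent.H13.W.dn
  simp only [abs_le] at h1 h2 ⊢
  omega

/-- **The loose corners at the vertex `i + 1`.** -/
theorem X_near (S : Shape) (h : ℕ) (i : ℕ) : ∃ a b : ℤ,
    NearV 5 (X1 S h i) (2 * (h : ℤ) * a) (2 * (h : ℤ) * b) ∧
    NearV 5 (X2 S h i) (2 * (h : ℤ) * a) (2 * (h : ℤ) * b) := by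
  obtain ⟨p0, p1, p2, p3⟩ := Pool.Agent.H2.W.Run.dg_pos S h i
  have hk : S.k i % 4 = 0 ∨ S.k i % 4 = 1 ∨ S.k i % 4 = 2 ∨ S.k i % 4 = 3 := by omega
  unfold X1 X2
  rcases hk with m | m | m | m
  · refine ⟨(S.P.side i).1.1 + 1, (S.P.side i).1.2, ?_, ?_⟩
    · rw [if_neg (by omega), p0 m]
      refine (nearV_of ?_ ?_).2 <;> rw [abs_le] <;> constructor <;> linarith
    · rw [if_neg (by omega), if_neg (by omega), if_neg (by omega), p0 m, Pool.Agent.H2.W.Run.we_lt']
      refine (nearV_of ?_ ?_).2 <;> rw [abs_le] <;> constructor <;> linarith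
  · refine ⟨(S.P.side i).1.1 + 1, (S.P.side i).1.2 + 1, ?_, ?_⟩
    · rw [if_pos (Or.inl m), p1 m]
      refine (nearV_of ?_ ?_).1 <;> rw [abs_le] <;> constructor <;> linarith
    · rw [if_pos m, p1 m, Pool.Agent.H2.W.Run.we_lt']
      refine (nearV_of ?_ ?_).1 <;> rw [abs_le] <;> constructor <;> linarith
  · refine ⟨(S.P.side i).1.1, (S.P.side i).1.2 + 1, ?_, ?_⟩
    · rw [if_pos (Or.inr m), p2 m]
      refine (nearV_of ?_ ?_).1 <;> rw [abs_le] <;> constructor <;> linarith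
    · rw [if_neg (by omega), if_pos m, p2 m, Pool.Agent.H2.W.Run.ea_lt']
      refine (nearV_of ?_ ?_).1 <;> rw [abs_le] <;> constructor <;> linarith
  · refine ⟨(S.P.side i).1.1, (S.P.side i).1.2, ?_, ?_⟩
    · rw [if_neg (by omega), p3 m]
      refine (nearV_of ?_ ?_).2 <;> rw [abs_le] <;> constructor <;> linarith
    · rw [if_neg (by omega), if_neg (by omega), if_pos m, p3 m, Pool.Agent.H2.W.Run.ea_lt']
      refine (nearV_of ?_ ?_).2 <;> rw [abs_le] <;> constructor <;> linarith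

/-- the loose corners of the fine shape at a coarse vertex -/
theorem X_rf (S : Shape) {M : ℕ} (hM : 0 < M) (h i : ℕ) :
    X1 (rf S M hM) h (i * M + (M - 1)) = X1 S (M * h) i ∧
    X2 (rf S M hM) h (i * M + (M - 1)) = X2 S (M * h) i := by
  unfold X1 X2
  rw [Pool.Agent.H74.W.dg_rf S hM, Pool.Agent.H74.W.rf_k S hM i (show M - 1 < M by omega)]
  exact ⟨rfl, rfl⟩

/-- coarse columns are far from `xs` -/
lemma cols_far {L X xs d : ℤ} (hL : 0 ≤ L) (h1 : L * X + d ≤ xs) (h2 : xs + d ≤ L * (X + 1)) (a : ℤ) :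
    d ≤ |L * a - xs| := by
  rcases le_or_gt a X with h | h
  · have := mul_le_mul_of_nonneg_left h hL
    rw [abs_sub_comm]
    exact le_trans (by linarith) (le_abs_self _)
  · have := mul_le_mul_of_nonneg_left (show X + 1 ≤ a by omega) hL
    exact le_trans (by linarith) (le_abs_self _)

variable {κ : Type*}

/-- **82's field `far`.** -/
theorem far_of {G : Pic κ} {c : ℤ × ℤ} {u v r k : ℤ} (hc : NearV k c u v) (hk : k ≤ 7) (hr : 3 ≤ r)
    (hu : 20 * r ≤ |u - G.xs|) :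
    8 * r < |(fi c).1 - (pv G).1| ∨ 8 * r < |(fi c).2 - (pv G).2| := by
  obtain ⟨h1, h2⟩ := hc
  rw [abs_le] at h1 h2
  unfold pv
  simp only
  by_contra hcon
  rw [not_or, not_lt, not_lt, abs_le, abs_le] at hcon
  rcases abs_cases (u - G.xs) with ⟨h3, -⟩ | ⟨h3, -⟩ <;> rw [h3] at hu <;> omega

/-- **All corners at the marks.** `S` = coarse shape, `2 h` tiles per coarse cell; `c` = loose corner `X1`, `X2`
at a vertex, `c'` = `c` or `c` moved by one row, possibly in the reflected picture. -/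
theorem X_far {G : Pic κ} {S : Shape} {h i : ℕ} {c c' : ℤ × ℤ} {X r : ℤ} (hr : 3 ≤ r)
    (h1 : 2 * (h : ℤ) * X + 20 * r ≤ G.xs) (h2 : G.xs + 20 * r ≤ 2 * (h : ℤ) * (X + 1))
    (hc : c = X1 S h i ∨ c = X2 S h i)
    (hc' : c' = c ∨ c' = up c ∨ c' = dn c ∨ c' = sw c ∨ c' = up (sw c) ∨ c' = dn (sw c)) :
    8 * r < |(fi c').1 - (pv G).1| ∨ 8 * r < |(fi c').2 - (pv G).2| := by
  obtain ⟨a, b, n1, n2⟩ := X_near S h i
  have n : NearV 5 c (2 * (h : ℤ) * a) (2 * (h : ℤ) * b) := by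
    rcases hc with rfl | rfl <;> assumption
  have hu := cols_far (by positivity : (0 : ℤ) ≤ 2 * (h : ℤ)) h1 h2 a
  rcases hc' with rfl | rfl | rfl | rfl | rfl | rfl
  · exact far_of n (by norm_num) hr hu
  · exact far_of n.up (by norm_num) hr hu
  · exact far_of n.dn (by norm_num) hr hu
  · exact far_of n.sw (by norm_num) hr hu
  · exact far_of n.sw.up (by norm_num) hr hu
  · exact far_of n.sw.dn (by norm_num) hr hu

end Pool.Agent.H70.W
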