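import Pool.Agent.H70.W.Cor5
import Pool.Agent.H72.W.EndsX

set_option autoImplicit false

/-!
# StCor without hypotheses

`FarEx` is 72's `far_exists_V`.
-/

namespace Pool.Agent.H70.SC

theorem farEx : FarEx := fun _ _ _ _ h4 _ hE hO hw =>
  Pool.Agent.H72.W.V.far_exists_V (by omega) hE hO hw

theorem stCor : Pool.Agent.H74.W.StCor := stCor_of farEx

end Pool.Agent.H70.SC
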